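import Pool.Agent.MP_eed7cf_an.Mg.Main
import Mathlib

attribute [-instance] AlgHom.instContinuousLinearMapClassOfAlgHomClass
  NonarchimedeanRing.toIsTopologicalRing instT6SpaceOfMetrizableSpace RKHS.instFunLike
  littleWedderburn IsValuativeTopology.instValuedValueGroupWithZeroOfIsUniformAddGroup
  AddQuantale.instAddLeftMono LieAdmissibleAlgebra.toModule
  NonarchimedeanAddGroup.toIsTopologicalAddGroup CoalgHomClass.toSemilinearMapClass
  SubringClass.toSeminormedRing RightPreLieAlgebra.toModule LeftPreLieAlgebra.toModule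
  Valued.isTopologicalDivisionRing instT4SpaceOfMetrizableSpace MonTypeEquivalenceMon.monMonoid
  NonUnitalRing.toNonUnitalNonAssocRing NonUnitalNormedRing.toNonUnitalSeminormedRing
  IdemSemiring.toCanonicallyOrderedAdd continuousSub_of_discreteTopology
  SemilinearIsometryClass.toSemilinearMapClass LieRinehartAlgebra.toIsScalarTower
  instNonUnitalAlgHomClassOfNonUnitalAlgEquivClass IdemSemiring.toSemiring instCharZeroOfIsSemireal
  PositiveLinearMap.instContinuousLinearMapClassComplexOfLinearMapClassOfOrderHomClass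
  NumberField.to_charZero GrpTypeEquivalenceGrp.grpGroup EuclideanDomain.toCommRing
  DenselyNormedField.toNormedField LieAdmissibleRing.toNonUnitalNonAssocRing
  IsIsometricSMul.to_continuousConstSMul Action.FintypeCat.instMulActionObjFiniteOf NormedRing.toRing
  AddQuantale.instAddRightMono SemilinearIsometryClass.toContinuousSemilinearMapClass
  NonUnitalNonAssocRing.toAddCommGroup NonUnitalNormedCommRing.toNonUnitalSeminormedCommRing
  NonUnitalStarSubalgebra.nonUnitalCStarAlgebra NonUnitalNonAssocSemiring.toMulZeroClass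
  RingHomClass.toLinearMapClassRat AlexandrovDiscrete.toLocallyCompactSpace
  IsValuativeTopology.isTopologicalRing continuousSub_of_indiscreteTopology
  Valued.instIsTopologicalRing BialgHomClass.toMonoidHomClass BooleanRing.toCommRing Field.toCommRing
  LinearOrderedCommMonoidWithZero.toPosMulStrictMono Quantale.instMulRightMono
  MulSemiringAction.toDistribMulAction instCoeHTCTOfCoeTailOfCoeHTC LieRing.toAddCommGroup
  NonUnitalNormedRing.toNorm OrderTop.instIsDirectedOrder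
  NonUnitalSemiring.toNonUnitalNonAssocSemiring MulSemiringAction.toMulDistribMulAction
  instCoeHTCOfCoeHeadOfCoeOTC TotallyDisconnectedSpace.t1Space StarSubalgebra.cstarAlgebra
  instNonemptyOfMonad instCoeTCOfCoe TestFunctionClass.toDFunLike
  AddCommMonoidWithOne.toAddCommMonoid NonUnitalNormedCommRing.toNonUnitalCommRing
  IdemCommSemiring.toCommSemiring Subalgebra.seminormedRing instSMulZeroClass
  IsValuativeTopology.instIsTopologicalAddGroup ContDiffMapSupportedInClass.toDFunLike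
  SeminormedRing.toNonUnitalSeminormedRing AddCommGroupWithOne.toAddGroupWithOne
  IsNonarchimedeanLocalField.instIsTopologicalDivisionRing CStarAlgebra.instOrderClosedTopology
  MulSemiringActionSemiHomClass.toDistribMulActionSemiHomClass
  NonAssocCommSemiring.toNonAssocSemiring LinearOrderedAddCommMonoidWithTop.toAddCommMonoid
  NonUnitalNonAssocCommSemiring.toNonUnitalNonAssocSemiring BialgHomClass.toAlgHomClass
  LinearOrderedCommMonoidWithZero.toIsBotZeroClass BooleanRing.toRing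
  MulRingSeminormClass.toMonoidWithZeroHomClass Valued.toUniformSpace
  RightPreLieRing.toNonUnitalNonAssocRing CentroidHomClass.toAddMonoidHomClass
  Topology.IsScott.instClosedIicTopologyOfUnivSet NonAssocRing.toNonUnitalNonAssocRing
  ProperSMul.toContinuousSMul ContinuousSemilinearEquivClass.continuousSemilinearMapClass
  LeftPreLieRing.toNonUnitalNonAssocRing FiniteDimensional.rclike_to_real
  ZeroAtInftyContinuousMap.instNonUnitalCommCStarAlgebra DiscreteTopology.topologicalSemiring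
  NonUnitalSeminormedRing.toNorm instCoeTOfCoeDep Fintype.decidableForallFintype
  CStarAlgebra.toNonUnitalCStarAlgebra
  TopologicalSpace.UpgradedIsCompletelyPseudoMetrizableSpace.toPseudoMetricSpace
  NonarchimedeanAddGroup.instTotallySeparated IsStrictOrderedRing.topologicalRing
  ValuationClass.toMonoidWithZeroHomClass IsModuleTopology.toContinuousSMul
  MulCharClass.toMonoidHomClass LinearOrderedAddCommGroupWithTop.toAddCommMonoid Bialgebra.toAlgebra
  IsTopologicalSemiring.toContinuousAdd CompletelyRegularSpace.instRegularSpace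
  ZeroAtInftyContinuousMap.instNonUnitalCStarAlgebra NonUnitalAlgHomClass.toNonUnitalRingHomClass
  RCLike.charZero_rclike NonUnitalSeminormedCommRing.toNonUnitalCommRing
  NonAssocCommRing.toNonUnitalNonAssocCommRing RCLike.innerProductSpace
  AddCommGroupWithOne.toAddCommGroup Group.IsPerfect.subsingleton_of_isMulCommutative
  MulDistribMulActionSemiHomClass.toMonoidHomClass Torsor.toMulAction

-- part MP_eed7cf_an.Height
section

/-!
Spaces of continuous functions with values in the disc algebra: Paley inequality, summing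
decompositions, height of the base space.
-/

set_option autoImplicit false

namespace Pool.Agent.MP_eed7cf_an.H71

/-! An abstract model of the disc algebra: Paley inequality, and decompositions of operators into a
finite-dimensional space. -/

noncomputable section

open Filter Topology Finset


/-- boundary values, mean, value at the origin, shift -/
structure Model (A Ω : Type) [NormedCommRing A] [NormedAlgebra ℂ A] [TopologicalSpace Ω]
    [CompactSpace Ω] where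
  b : A →ₐ[ℂ] C(Ω, ℂ)
  b_le : ∀ f x, ‖b f x‖ ≤ ‖f‖
  norm_le : ∀ f c, (∀ x, ‖b f x‖ ≤ c) → ‖f‖ ≤ c
  m : C(Ω, ℝ) →ₗ[ℝ] ℝ
  m_pos : ∀ w, (∀ x, 0 ≤ w x) → 0 ≤ m w
  m_one : m 1 = 1
  e : A →ₐ[ℂ] ℂ
  z : A
  z_norm : ∀ x, ‖b z x‖ = 1
  e_z : e z = 0
  sh : A →ₗ[ℂ] A
  dec : ∀ f, f = e f • 1 + z * sh f
  mvp : ∀ f (w : C(Ω, ℝ)), (∀ x, w x = (b f x).re) → m w = (e f).re
  exp : ∀ f, ∃ g, (∀ x, b g x = Complex.exp (b f x)) ∧ e g = Complex.exp (e f)
  den1 : ∀ (w : C(Ω, ℝ)) (ε : ℝ), 0 < ε → ∃ G, ∀ x, |(b G x).re - w x| ≤ ε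
  den2 : ∀ (φ : C(Ω, ℂ)) (ε : ℝ), 0 < ε → ∃ N p, ∀ x, ‖b z x ^ N * φ x - b p x‖ ≤ ε

variable {A Ω : Type} [NormedCommRing A] [NormedAlgebra ℂ A] [TopologicalSpace Ω]
  [CompactSpace Ω] (D : Model A Ω)

namespace Model

/-- the modulus on the boundary -/
def ab (f : A) : C(Ω, ℝ) := ⟨fun x => ‖D.b f x‖, by fun_prop⟩

/-- the real part on the boundary -/
def re (f : A) : C(Ω, ℝ) := ⟨fun x => (D.b f x).re, by fun_prop⟩

@[simp] theorem ab_apply (f : A) (x : Ω) : D.ab f x = ‖D.b f x‖ := rfl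

@[simp] theorem re_apply (f : A) (x : Ω) : D.re f x = (D.b f x).re := rfl

theorem m_re (f : A) : D.m (D.re f) = (D.e f).re := D.mvp f _ fun _ => rfl

theorem m_le {v w : C(Ω, ℝ)} (h : ∀ x, v x ≤ w x) : D.m v ≤ D.m w := by
  have := D.m_pos (w - v) fun x => by simpa only [ContinuousMap.sub_apply, sub_nonneg] using h x
  rw [map_sub] at this
  linarith

/-- square of the Hilbert norm -/
def n2 (f : A) : ℝ := D.m (D.ab f * D.ab f)

theorem n2_nonneg (f : A) : 0 ≤ D.n2 f := D.m_pos _ fun x => by simp only [ContinuousMap.mul_apply, ab_apply]; positivity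

theorem n2_dec (f : A) : D.n2 f = ‖D.e f‖ ^ 2 + D.n2 (D.sh f) := by
  have h : D.ab f * D.ab f = (‖D.e f‖ ^ 2) • (1 : C(Ω, ℝ)) + D.ab (D.sh f) * D.ab (D.sh f) +
      (2 : ℝ) • D.re ((starRingEnd ℂ (D.e f)) • (D.z * D.sh f)) := by
    ext x
    have h1 : D.b f x = D.e f + D.b D.z x * D.b (D.sh f) x := by
      conv_lhs => rw [D.dec f]
      simp only [map_add, map_smul, map_one, map_mul, ContinuousMap.add_apply, ContinuousMap.coe_smul, ContinuousMap.coe_one, Pi.smul_apply, Pi.one_apply, smul_eq_mul, mul_one, ContinuousMap.mul_apply]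
    have h2 : ‖D.b (D.sh f) x‖ = ‖D.b D.z x * D.b (D.sh f) x‖ := by rw [norm_mul, D.z_norm, one_mul]
    simp only [ContinuousMap.mul_apply, ab_apply, ContinuousMap.add_apply, ContinuousMap.smul_apply,
      ContinuousMap.one_apply, re_apply, map_smul, map_mul, smul_eq_mul, mul_one]
    rw [h1, h2, ← sq, ← sq, Complex.sq_norm, Complex.sq_norm, Complex.sq_norm, Complex.normSq_add]
    simp [mul_comm]
    ring
  unfold n2
  rw [h, map_add, map_add, map_smul, map_smul, D.m_one, m_re]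
  simp only [smul_eq_mul, mul_one, map_smul, map_mul, D.e_z, zero_mul, mul_zero, Complex.zero_re, add_zero]

theorem sh_mul (g h : A) : D.sh (g * h) = D.e g • D.sh h + D.sh g * h := by
  have h1 : D.z * (D.sh (g * h) - (D.e g • D.sh h + D.sh g * h)) = 0 := by
    have a1 := D.dec (g * h)
    have a2 := D.dec g
    have a3 := D.dec h
    rw [map_mul] at a1
    simp only [Algebra.smul_def, map_mul, mul_one] at a1 a2 a3 ⊢
    linear_combination (-1 : A) * a1 + h * a2 + algebraMap ℂ A (D.e g) * a3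
  rw [← sub_eq_zero, ← norm_le_zero_iff]
  refine D.norm_le _ _ fun x => ?_
  have h2 := congrArg (fun f => ‖D.b f x‖) h1
  simp only [map_mul, ContinuousMap.mul_apply, norm_mul, D.z_norm, one_mul, map_zero,
    ContinuousMap.zero_apply, norm_zero] at h2
  exact h2.le

/-- Taylor coefficients -/
def c (k : ℕ) : A →ₗ[ℂ] ℂ := D.e.toLinearMap ∘ₗ D.sh ^ k

theorem c_zero (f : A) : D.c 0 f = D.e f := rfl

theorem c_succ (k : ℕ) (f : A) : D.c (k + 1) f = D.c k (D.sh f) := by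
  simp only [c, pow_succ, LinearMap.coe_comp, AlgHom.coe_toLinearMap, Function.comp_apply, Module.End.mul_apply]

theorem bessel (N : ℕ) : ∀ f : A, ∑ k ∈ range N, ‖D.c k f‖ ^ 2 ≤ D.n2 f := by
  induction N with
  | zero => intro f; simpa only [range_zero, sum_empty] using D.n2_nonneg f
  | succ N ih =>
    intro f
    rw [sum_range_succ', D.n2_dec f, c_zero]
    simp only [c_succ]
    linarith [ih (D.sh f)]

theorem c_mul (n : ℕ) : ∀ g h : A,
    D.c n (g * h) = ∑ p ∈ antidiagonal n, D.c p.1 g * D.c p.2 h := by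
  induction n with
  | zero => intro g h; simp [c_zero]
  | succ n ih =>
    intro g h
    rw [c_succ, sh_mul, map_add, map_smul, ih, Nat.sum_antidiagonal_succ]
    simp [c_succ, c_zero]

theorem sh_one : D.sh 1 = 0 := by
  have := D.sh_mul 1 1
  simpa only [mul_one, map_one, one_smul, left_eq_add] using this

theorem sh_z : D.sh D.z = 1 := by
  have h1 : D.z * (D.sh D.z - 1) = 0 := by
    have a := D.dec D.z
    rw [D.e_z, zero_smul, zero_add] at a
    linear_combination (-1 : A) * a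
  rw [← sub_eq_zero, ← norm_le_zero_iff]
  refine D.norm_le _ _ fun x => ?_
  have h2 := congrArg (fun f => ‖D.b f x‖) h1
  simp only [map_mul, ContinuousMap.mul_apply, norm_mul, D.z_norm, one_mul, map_zero,
    ContinuousMap.zero_apply, norm_zero] at h2
  exact h2.le

theorem c_pow (n : ℕ) : D.c n (D.z ^ n) = 1 := by
  induction n with
  | zero => simp [c_zero]
  | succ n ih => rw [c_succ, pow_succ', sh_mul, D.e_z, sh_z]; simpa only [zero_smul, one_mul, zero_add] using ih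

theorem pow_le (n : ℕ) : ‖D.z ^ n‖ ≤ 1 := D.norm_le _ _ fun x => by simp [D.z_norm]

theorem taylor (N : ℕ) : ∀ f : A, ∃ g,
    f = ∑ k ∈ range N, D.c k f • D.z ^ k + D.z ^ N * g := by
  induction N with
  | zero => intro f; exact ⟨f, by simp⟩
  | succ N ih =>
    intro f
    obtain ⟨g, hg⟩ := ih (D.sh f)
    refine ⟨g, ?_⟩
    rw [sum_range_succ']
    simp only [c_succ, c_zero, pow_succ', pow_zero, ← mul_smul_comm, ← mul_sum]
    have a := D.dec f
    linear_combination a + D.z * hg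

theorem factor (f : A) {ε : ℝ} (hε : 0 < ε) : ∃ g h : A, f = g * h ∧
    D.n2 g ≤ 2 * (D.m (D.ab f) + ε) ∧ D.n2 h ≤ 2 * (D.m (D.ab f) + ε) := by
  have pos : ∀ x, 0 < ‖D.b f x‖ + ε := fun x => by positivity
  obtain ⟨G, hG⟩ := D.den1 ⟨fun x => Real.log (‖D.b f x‖ + ε) / 2,
    (Continuous.log (by fun_prop) fun x => (pos x).ne').div_const _⟩ (1 / 4) (by norm_num)
  obtain ⟨h, hh, -⟩ := D.exp G
  obtain ⟨k, hk, -⟩ := D.exp (-G)
  have hk1 : k * h = 1 := by
    rw [← sub_eq_zero, ← norm_le_zero_iff]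
    refine D.norm_le _ _ fun x => ?_
    simp only [map_sub, map_mul, map_one, ContinuousMap.sub_apply, ContinuousMap.mul_apply, hk, map_neg, ContinuousMap.neg_apply, hh, ← Complex.exp_add, neg_add_cancel, Complex.exp_zero, ContinuousMap.one_apply, sub_self, norm_zero, Std.le_refl]
  have e2 : Real.exp (1 / 2) ≤ 2 := by
    have h1 := Real.exp_one_lt_d9
    have h2 : Real.exp (1 / 2) * Real.exp (1 / 2) = Real.exp 1 := by rw [← Real.exp_add]; norm_num
    nlinarith only [h1, h2]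
  have hm : D.m ((2 : ℝ) • (D.ab f + ε • 1)) = 2 * (D.m (D.ab f) + ε) := by
    rw [map_smul, map_add, map_smul, D.m_one]; simp
  refine ⟨f * k, h, by rw [mul_assoc, hk1, mul_one], ?_, ?_⟩
  · rw [← hm]
    refine D.m_le fun x => ?_
    have h1 := abs_le.1 (hG x)
    simp only [ContinuousMap.coe_mk] at h1
    have h2 : Real.exp (-(D.b G x).re) * Real.exp (-(D.b G x).re) * (‖D.b f x‖ + ε) ≤ 2 := by
      rw [← Real.exp_log (pos x), ← Real.exp_add, ← Real.exp_add]
      exact (Real.exp_le_exp.2 (by linarith only [h1])).trans e2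
    simp only [ContinuousMap.mul_apply, ab_apply, map_mul, norm_mul, hk, Complex.norm_exp, map_neg,
      ContinuousMap.neg_apply, Complex.neg_re, ContinuousMap.smul_apply, ContinuousMap.add_apply,
      ContinuousMap.one_apply, smul_eq_mul, mul_one]
    have h3 : 0 ≤ Real.exp (-(D.b G x).re) * Real.exp (-(D.b G x).re) := by positivity
    have h4 := norm_nonneg (D.b f x)
    have h5 := mul_le_mul_of_nonneg_left h2 h4
    linarith only [mul_nonneg h3 (mul_nonneg h4 hε.le), hε, h5]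
  · rw [← hm]
    refine D.m_le fun x => ?_
    have h1 := abs_le.1 (hG x)
    simp only [ContinuousMap.coe_mk] at h1
    simp only [ContinuousMap.mul_apply, ab_apply, hh, Complex.norm_exp, ContinuousMap.smul_apply,
      ContinuousMap.add_apply, ContinuousMap.one_apply, smul_eq_mul, mul_one]
    have h2 : Real.exp (D.b G x).re * Real.exp (D.b G x).re ≤
        Real.exp (1 / 2) * (‖D.b f x‖ + ε) := by
      rw [← Real.exp_log (pos x), ← Real.exp_add, ← Real.exp_add]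
      exact Real.exp_le_exp.2 (by linarith only [h1])
    exact h2.trans (mul_le_mul_of_nonneg_right e2 (pos x).le)

end Model

theorem blocks (a : ℕ → ℝ) (ha : ∀ k, 0 ≤ a k) (M : ℕ) :
    ∑ j ∈ range M, ∑ k ∈ Ico (2 ^ j) (2 ^ (j + 1)), a k ≤ ∑ k ∈ range (2 ^ M), a k := by
  induction M with
  | zero => simpa only [range_zero, sum_empty, pow_zero, range_one, sum_singleton] using ha 0
  | succ M ih =>
    rw [sum_range_succ, ← sum_range_add_sum_Ico a (Nat.pow_le_pow_right two_pos M.le_succ)]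
    linarith

theorem conv_sq (a b : ℕ → ℝ) {α β : ℝ}
    (hα : ∀ N, ∑ k ∈ range N, a k ^ 2 ≤ α) (hβ : ∀ N, ∑ k ∈ range N, b k ^ 2 ≤ β) (j : ℕ) :
    (∑ p ∈ antidiagonal (2 ^ (j + 1) - 1), a p.1 * b p.2) ^ 2 ≤
      2 * (β * ∑ k ∈ Ico (2 ^ j) (2 ^ (j + 1)), a k ^ 2 +
        α * ∑ k ∈ Ico (2 ^ j) (2 ^ (j + 1)), b k ^ 2) := by
  have hp : 0 < 2 ^ j := by positivity
  have key : ∀ (a b : ℕ → ℝ) (β : ℝ), (∀ N, ∑ k ∈ range N, b k ^ 2 ≤ β) →
      (∑ k ∈ Ico (2 ^ j) (2 ^ (j + 1)), a k * b (2 ^ (j + 1) - 1 - k)) ^ 2 ≤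
        β * ∑ k ∈ Ico (2 ^ j) (2 ^ (j + 1)), a k ^ 2 := by
    intro a b β hβ
    refine (sum_mul_sq_le_sq_mul_sq _ _ _).trans ?_
    rw [mul_comm]
    refine mul_le_mul_of_nonneg_right ?_ (sum_nonneg fun _ _ => sq_nonneg _)
    refine le_trans ?_ (hβ (2 ^ (j + 1)))
    rw [← sum_range_reflect]
    exact sum_le_sum_of_subset_of_nonneg (fun k hk => mem_range.2 (mem_Ico.1 hk).2)
      fun _ _ _ => sq_nonneg _
  have h1 := key a b β hβ
  have h2 := key b a α hα
  have h3 : ∑ p ∈ antidiagonal (2 ^ (j + 1) - 1), a p.1 * b p.2 =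
      ∑ k ∈ Ico (2 ^ j) (2 ^ (j + 1)), a k * b (2 ^ (j + 1) - 1 - k) +
        ∑ k ∈ Ico (2 ^ j) (2 ^ (j + 1)), b k * a (2 ^ (j + 1) - 1 - k) := by
    rw [Nat.sum_antidiagonal_eq_sum_range_succ (fun i k => a i * b k),
      show Nat.succ (2 ^ (j + 1) - 1) = 2 ^ (j + 1) by rw [pow_succ]; omega,
      ← sum_range_add_sum_Ico _ (Nat.pow_le_pow_right two_pos j.le_succ), add_comm]
    congr 1
    refine sum_bij' (fun k _ => 2 ^ (j + 1) - 1 - k) (fun k _ => 2 ^ (j + 1) - 1 - k) ?_ ?_ ?_ ?_ ?_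
    all_goals simp only [mem_range, mem_Ico, pow_succ]
    · intro k hk; omega
    · intro k hk; omega
    · intro k hk; omega
    · intro k hk; omega
    · intro k hk
      rw [mul_comm, show 2 ^ j * 2 - 1 - (2 ^ j * 2 - 1 - k) = k by omega]
  rw [h3]
  linarith only [sq_nonneg (∑ k ∈ Ico (2 ^ j) (2 ^ (j + 1)), a k * b (2 ^ (j + 1) - 1 - k) -
    ∑ k ∈ Ico (2 ^ j) (2 ^ (j + 1)), b k * a (2 ^ (j + 1) - 1 - k)), h1, h2]

/-- the Paley inequality -/
theorem Model.paley (f : A) (M : ℕ) :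
    ∑ j ∈ range M, ‖D.c (2 ^ (j + 1) - 1) f‖ ^ 2 ≤ (4 * D.m (D.ab f)) ^ 2 := by
  have key : ∀ ε : ℝ, 0 < ε →
      ∑ j ∈ range M, ‖D.c (2 ^ (j + 1) - 1) f‖ ^ 2 ≤ (4 * (D.m (D.ab f) + ε)) ^ 2 := by
    intro ε hε
    obtain ⟨g, h, rfl, hg, hh⟩ := D.factor f hε
    set r := 2 * (D.m (D.ab (g * h)) + ε) with hr
    have r0 : 0 ≤ r := (D.n2_nonneg g).trans hg
    have h1 : ∀ N, ∑ k ∈ range N, ‖D.c k g‖ ^ 2 ≤ r := fun N => (D.bessel N g).trans hg
    have h2 : ∀ N, ∑ k ∈ range N, ‖D.c k h‖ ^ 2 ≤ r := fun N => (D.bessel N h).trans hh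
    have h3 : ∀ j ∈ range M, ‖D.c (2 ^ (j + 1) - 1) (g * h)‖ ^ 2 ≤
        2 * (r * ∑ k ∈ Ico (2 ^ j) (2 ^ (j + 1)), ‖D.c k g‖ ^ 2 +
          r * ∑ k ∈ Ico (2 ^ j) (2 ^ (j + 1)), ‖D.c k h‖ ^ 2) := fun j _ => by
      refine le_trans ?_ (conv_sq (fun k => ‖D.c k g‖) (fun k => ‖D.c k h‖) h1 h2 j)
      rw [D.c_mul]
      refine pow_le_pow_left₀ (norm_nonneg _) ((norm_sum_le _ _).trans ?_) 2
      simp only [Complex.norm_mul, Std.le_refl]
    refine (sum_le_sum h3).trans ?_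
    rw [← mul_sum, sum_add_distrib, ← mul_sum, ← mul_sum]
    have h4 := (blocks (fun k => ‖D.c k g‖ ^ 2) (fun _ => sq_nonneg _) M).trans (h1 _)
    have h5 := (blocks (fun k => ‖D.c k h‖ ^ 2) (fun _ => sq_nonneg _) M).trans (h2 _)
    have h6 := mul_le_mul_of_nonneg_left h4 r0
    have h7 := mul_le_mul_of_nonneg_left h5 r0
    have h8 : (4 * (D.m (D.ab (g * h)) + ε)) ^ 2 = 4 * (r * r) := by rw [hr]; ring
    linarith only [h6, h7]
  have ht : Tendsto (fun ε : ℝ => (4 * (D.m (D.ab f) + ε)) ^ 2) (𝓝[>] 0)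
      (𝓝 ((4 * D.m (D.ab f)) ^ 2)) :=
    (Continuous.tendsto' (by fun_prop) 0 _ (by simp)).mono_left nhdsWithin_le_nhds
  exact ge_of_tendsto ht (eventually_mem_nhdsWithin.mono key)

end

/-! Decompositions of operators into a summing part and a part with a small trace. -/

noncomputable section

open Filter Topology Finset


variable {A Ω V : Type} [NormedCommRing A] [NormedAlgebra ℂ A] [TopologicalSpace Ω]
  [CompactSpace Ω] (D : Model A Ω) [NormedAddCommGroup V] [NormedSpace ℂ V] {M : ℕ}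

namespace Model

/-- absolutely summing with constant `a` -/
def Sm (T : A →ₗ[ℂ] V) (a : ℝ) : Prop :=
  ∀ (ι : Type) [Fintype ι] (g : ι → A) (r : ℝ), 0 ≤ r → (∀ x, ∑ i, ‖D.b (g i) x‖ ≤ r) →
    ∑ i, ‖T (g i)‖ ≤ a * r

variable {D}

theorem Sm.nonneg {T : A →ₗ[ℂ] V} {a : ℝ} (h : D.Sm T a) : 0 ≤ a := by
  simpa only [univ_eq_empty, sum_empty, mul_one] using h Empty (fun i => i.elim) 1 zero_le_one (by simp only [univ_eq_empty, sum_empty, zero_le_one, implies_true])

theorem Sm.le {T : A →ₗ[ℂ] V} {a : ℝ} (h : D.Sm T a) (g : A) : ‖T g‖ ≤ a * ‖g‖ := by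
  simpa only [univ_unique, PUnit.default_eq_unit, sum_const, card_singleton, one_smul] using h Unit (fun _ => g) ‖g‖ (norm_nonneg _) (by simpa only [univ_unique, PUnit.default_eq_unit, sum_const, card_singleton, one_smul] using D.b_le g)

theorem lower {T : A →ₗ[ℂ] V} {a a0 d : ℝ} (h : D.Sm T a) (ha : a ≤ a0) (ha0 : 0 < a0) {u : A}
    (hu : ‖u‖ ≤ 1) (hT : 1 / 2 ≤ ‖T u‖) (hd : 0 < d) (hn : D.n2 u ≤ d) :
    ∃ ψ : A, ‖ψ‖ ≤ 1 ∧ ‖1 - D.e ψ‖ ≤ 3 * d ∧
      D.Sm (T ∘ₗ LinearMap.mulLeft ℂ ψ) (a - 1 / (8 * a0)) := by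
  obtain ⟨G0, hG0⟩ := D.den1 (D.ab u * D.ab u + d • 1) d hd
  obtain ⟨G, hG, hGe⟩ : ∃ G : A, (∀ x, (D.b G x).re = (D.b G0 x).re) ∧ D.e G = ((D.e G0).re : ℝ) :=
    ⟨G0 - ((D.e G0).im * Complex.I) • 1, fun x => by simp only [map_sub, map_smul, map_one, ContinuousMap.sub_apply, ContinuousMap.coe_smul, ContinuousMap.coe_one, Pi.smul_apply, Pi.one_apply, smul_eq_mul, mul_one, Complex.sub_re, Complex.mul_re, Complex.ofReal_re, Complex.I_re, mul_zero, Complex.ofReal_im, Complex.I_im, sub_self, sub_zero], by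
      apply Complex.ext <;> simp only [map_sub, map_smul, map_one, smul_eq_mul, mul_one, Complex.sub_re, Complex.mul_re, Complex.ofReal_re, Complex.I_re, mul_zero, Complex.ofReal_im, Complex.I_im, sub_self, sub_zero, Complex.sub_im, Complex.mul_im, add_zero]⟩
  have h1 : ∀ x, ‖D.b u x‖ * ‖D.b u x‖ ≤ (D.b G x).re ∧
      (D.b G x).re ≤ ‖D.b u x‖ * ‖D.b u x‖ + 2 * d := fun x => by
    have := abs_le.1 (hG0 x)
    simp only [ContinuousMap.add_apply, ContinuousMap.mul_apply, ab_apply, ContinuousMap.smul_apply,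
      ContinuousMap.one_apply, smul_eq_mul, mul_one] at this
    rw [hG]
    constructor <;> linarith only [this]
  have h2 : (D.e G0).re ≤ 3 * d := by
    have h3 : D.m (D.re G) ≤ D.m (D.ab u * D.ab u + (2 * d) • 1) :=
      D.m_le fun x => by simpa only [re_apply, ContinuousMap.add_apply, ContinuousMap.mul_apply, ab_apply, ContinuousMap.coe_smul, ContinuousMap.coe_one, Pi.smul_apply, Pi.one_apply, smul_eq_mul, mul_one] using (h1 x).2
    rw [m_re, map_add, map_smul, D.m_one, hGe] at h3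
    simp only [Complex.ofReal_re, smul_eq_mul, mul_one] at h3
    unfold n2 at hn
    linarith only [hn, h3]
  have h2' : 0 ≤ (D.e G0).re := by
    have h3 := D.m_pos (D.re G) fun x => (mul_self_nonneg _).trans (h1 x).1
    rwa [m_re, hGe, Complex.ofReal_re] at h3
  obtain ⟨ψ, hψ, hψe⟩ := D.exp (-G)
  have h4 : ∀ x, ‖D.b ψ x‖ ≤ 1 - ‖D.b u x‖ * ‖D.b u x‖ / 2 := fun x => by
    rw [hψ, Complex.norm_exp]
    simp only [map_neg, ContinuousMap.neg_apply, Complex.neg_re]
    have h5 := (D.b_le u x).trans hu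
    have h6 := norm_nonneg (D.b u x)
    set y := ‖D.b u x‖ * ‖D.b u x‖ with hy
    have y0 : 0 ≤ y := mul_self_nonneg _
    have y1 : y ≤ 1 := mul_le_one₀ h5 h6 h5
    have h7 : Real.exp (-(D.b G x).re) ≤ Real.exp (-y) := Real.exp_le_exp.2 (by linarith only [(h1 x).1])
    have h8 : Real.exp (-y) * Real.exp y = 1 := by rw [← Real.exp_add]; simp
    have h9 := mul_le_mul_of_nonneg_left (Real.add_one_le_exp y) (Real.exp_pos (-y)).le
    have h10 : Real.exp (-y) ≤ 1 - y / 2 := by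
      by_contra hc
      push Not at hc
      linarith only [mul_lt_mul_of_pos_right hc (by linarith only [y0] : 0 < y + 1), mul_nonneg y0 (sub_nonneg.2 y1), h8, h9]
    linarith only [h7, h10]
  refine ⟨ψ, D.norm_le _ _ fun x => by linarith only [h4 x, mul_self_nonneg ‖D.b u x‖], ?_, ?_⟩
  · rw [hψe, map_neg, hGe, ← Complex.ofReal_neg, ← Complex.ofReal_exp, ← Complex.ofReal_one,
      ← Complex.ofReal_sub, Complex.norm_real, Real.norm_eq_abs, abs_le]
    have h5 := Real.add_one_le_exp (-(D.e G0).re)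
    have h6 : Real.exp (-(D.e G0).re) ≤ 1 := Real.exp_le_one_iff.2 (by linarith only [h2'])
    constructor <;> linarith only [hd, h6, h2, h5]
  · intro ι _ g r r0 hg
    obtain ⟨s, hs⟩ : ∃ s : ℝ, s = 1 / (2 * a0) := ⟨_, rfl⟩
    have s0 : 0 < s := by rw [hs]; positivity
    have h5 := h (Option ι) (fun o => o.elim (((s * r : ℝ) : ℂ) • u) fun i => ψ * g i)
      (r * (1 + s * s / 2)) (by positivity) fun x => by
        rw [Fintype.sum_option]
        simp only [Option.elim, map_smul, map_mul, ContinuousMap.smul_apply,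
          ContinuousMap.mul_apply, norm_smul, norm_mul, Complex.norm_real, Real.norm_eq_abs,
          ← mul_sum, abs_of_pos s0, abs_of_nonneg r0]
        have h6 := mul_le_mul (h4 x) (hg x) (sum_nonneg fun _ _ => norm_nonneg _)
          ((norm_nonneg _).trans (h4 x))
        linarith only [mul_nonneg r0 (sq_nonneg (‖D.b u x‖ - s)), h6]
    rw [Fintype.sum_option] at h5
    simp only [Option.elim, map_smul, norm_smul, norm_mul, Complex.norm_real, Real.norm_eq_abs,
      abs_of_pos s0, abs_of_nonneg r0] at h5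
    simp only [LinearMap.comp_apply, LinearMap.mulLeft_apply]
    have h6 : s * r * (1 / 2) ≤ s * r * ‖T u‖ := mul_le_mul_of_nonneg_left hT (by positivity)
    have h7 : a * (r * (s * s / 2)) ≤ a0 * (r * (s * s / 2)) :=
      mul_le_mul_of_nonneg_right ha (by positivity)
    have h8 : a0 * (r * (s * s / 2)) - s * r * (1 / 2) = -(1 / (8 * a0)) * r := by
      rw [hs]; field_simp; ring
    linarith

variable (D)

theorem den3 (φ : C(Ω, ℂ)) {ε : ℝ} (hε : 0 < ε) :
    ∀ᶠ N in atTop, ∃ p, ∀ x, ‖D.b D.z x ^ N * φ x - D.b p x‖ ≤ ε := by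
  obtain ⟨N, p, h⟩ := D.den2 φ ε hε
  filter_upwards [eventually_ge_atTop N] with N' hN
  obtain ⟨k, rfl⟩ := Nat.exists_eq_add_of_le hN
  refine ⟨D.z ^ k * p, fun x => ?_⟩
  have : D.b D.z x ^ (N + k) * φ x - D.b (D.z ^ k * p) x =
      D.b D.z x ^ k * (D.b D.z x ^ N * φ x - D.b p x) := by
    simp only [map_mul, map_pow, ContinuousMap.mul_apply, ContinuousMap.pow_apply]
    ring
  rw [this, norm_mul, norm_pow, D.z_norm, one_pow, one_mul]
  exact h x

theorem part [T2Space Ω] (u : Fin M → A) (hu : ∀ j, ‖u j‖ ≤ 1) {ε : ℝ} (hε : 0 < ε) (hε1 : ε ≤ 1) :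
    ∃ (N n : ℕ) (p : Fin n → A) (t : Fin M → Fin n → ℂ), (∀ j i, ‖t j i‖ ≤ 1) ∧
      (∀ x, ∑ i, ‖D.b (p i) x‖ ≤ 2) ∧ ∀ j, ‖D.z ^ N * u j - ∑ i, t j i • p i‖ ≤ 2 * ε := by
  let U : Ω → Set Ω := fun y => ⋂ j, {x | ‖D.b (u j) x - D.b (u j) y‖ < ε}
  have hU : ∀ y, IsOpen (U y) := fun y =>
    isOpen_iInter_of_finite fun j => isOpen_lt (by fun_prop) continuous_const
  obtain ⟨s, hs⟩ := isCompact_univ.elim_finite_subcover U hU fun x _ =>
    Set.mem_iUnion.2 ⟨x, Set.mem_iInter.2 fun j => by simpa using hε⟩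
  obtain ⟨φ, h1, h2, h3, -⟩ := exists_continuous_sum_one_of_isOpen_isCompact
    (s := fun i : Fin s.card => U (s.equivFin.symm i)) (fun i => hU _) isCompact_univ fun x hx => by
      obtain ⟨y, hy, hxy⟩ := Set.mem_iUnion₂.1 (hs hx)
      exact Set.mem_iUnion.2 ⟨s.equivFin ⟨y, hy⟩, by simpa using hxy⟩
  have h2' : ∀ x, ∑ i, φ i x = 1 := fun x => by simpa only [Finset.sum_apply, Pi.one_apply] using h2 (Set.mem_univ x)
  obtain ⟨δ, δ0, hδ⟩ : ∃ δ : ℝ, 0 < δ ∧ s.card * δ ≤ ε :=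
    ⟨ε / (s.card + 1), by positivity, by
      rw [← mul_div_assoc, div_le_iff₀ (by positivity)]; linarith⟩
  obtain ⟨N, hN⟩ := (eventually_all.2 fun i : Fin s.card =>
    D.den3 ⟨fun x => (φ i x : ℂ), by fun_prop⟩ δ0).exists
  choose p hp using hN
  simp only [ContinuousMap.coe_mk] at hp
  have hz : ∀ x, ‖D.b D.z x ^ N‖ = 1 := fun x => by rw [norm_pow, D.z_norm, one_pow]
  have hδ' : ∑ _i : Fin s.card, δ ≤ ε := by simpa only [sum_const, card_univ, Fintype.card_fin, nsmul_eq_mul] using hδ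
  refine ⟨N, s.card, p, fun j i => D.b (u j) (s.equivFin.symm i),
    fun j i => (D.b_le _ _).trans (hu j), fun x => ?_, fun j => D.norm_le _ _ fun x => ?_⟩
  · have : ∀ i ∈ univ, ‖D.b (p i) x‖ ≤ φ i x + δ := fun i _ => by
      have h4 := norm_sub_norm_le (D.b (p i) x) (D.b D.z x ^ N * (φ i x : ℂ))
      rw [norm_sub_rev, norm_mul, hz, one_mul, Complex.norm_real,
        Real.norm_of_nonneg (h3 i x).1] at h4
      linarith only [hp i x, h4]
    refine (sum_le_sum this).trans ?_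
    rw [sum_add_distrib, h2']
    linarith
  · have h4 : D.b (D.z ^ N * u j - ∑ i, D.b (u j) (s.equivFin.symm i) • p i) x =
        ∑ i, (D.b D.z x ^ N * (φ i x : ℂ) * (D.b (u j) x - D.b (u j) (s.equivFin.symm i)) +
          D.b (u j) (s.equivFin.symm i) * (D.b D.z x ^ N * (φ i x : ℂ) - D.b (p i) x)) := by
      have h5 : ∑ i, (φ i x : ℂ) = 1 := by exact_mod_cast h2' x
      simp only [map_sub, map_mul, map_pow, map_sum, map_smul, ContinuousMap.sub_apply,
        ContinuousMap.mul_apply, ContinuousMap.pow_apply, ContinuousMap.sum_apply,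
        ContinuousMap.smul_apply, smul_eq_mul]
      rw [← mul_one (D.b D.z x ^ N * D.b (u j) x), ← h5, mul_sum, ← sum_sub_distrib]
      exact sum_congr rfl fun i _ => by ring
    have h5 : ∀ i ∈ univ,
        ‖D.b D.z x ^ N * (φ i x : ℂ) * (D.b (u j) x - D.b (u j) (s.equivFin.symm i)) +
          D.b (u j) (s.equivFin.symm i) * (D.b D.z x ^ N * (φ i x : ℂ) - D.b (p i) x)‖ ≤
          φ i x * ε + δ := fun i _ => by
      refine norm_add_le_of_le ?_ ?_
      · rw [norm_mul, norm_mul, hz, one_mul, Complex.norm_real, Real.norm_of_nonneg (h3 i x).1]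
        by_cases h0 : φ i x = 0
        · simp [h0]
        · exact mul_le_mul_of_nonneg_left
            (Set.mem_iInter.1 (h1 i (subset_tsupport _ h0)) j).le (h3 i x).1
      · rw [norm_mul, ← one_mul δ]
        exact mul_le_mul ((D.b_le _ _).trans (hu j)) (hp i x) (norm_nonneg _) zero_le_one
    rw [h4]
    refine (norm_sum_le_of_le _ h5).trans ?_
    rw [sum_add_distrib, ← sum_mul, h2']
    linarith only [hδ']

theorem trace_le [T2Space Ω] (π : Fin M → V →L[ℂ] ℂ) {β : ℝ} (hβ : ∀ v, ∑ j, ‖π j v‖ ≤ β * ‖v‖)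
    (β0 : 0 ≤ β) (u : Fin M → A) (hu : ∀ j, ‖u j‖ ≤ 1) {ε : ℝ} (hε : 0 < ε) :
    ∃ d > 0, ∀ (T : A →ₗ[ℂ] V) (a : ℝ), D.Sm T a → ∀ ψ : A, ‖ψ‖ ≤ 1 → ‖1 - D.e ψ‖ ≤ d →
      ∑ j, ‖π j (T ((1 - ψ) * u j))‖ ≤ a * (6 * β + ε) := by
  obtain ⟨δ, δ0, δ1, hδ⟩ : ∃ δ : ℝ, 0 < δ ∧ δ ≤ 1 ∧ M * (β * (7 * δ)) ≤ ε := by
    refine ⟨min 1 (ε / (7 * M * β + 1)), by positivity, min_le_left _ _, ?_⟩
    have h1 := min_le_right 1 (ε / (7 * M * β + 1))
    rw [le_div_iff₀ (by positivity)] at h1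
    have h2 : 0 < min 1 (ε / (7 * M * β + 1)) := by positivity
    linarith
  obtain ⟨N, n, p, t, ht, hp, hup⟩ := D.part u hu δ0 δ1
  obtain ⟨s, s0, hs⟩ : ∃ s : ℝ, 0 < s ∧ N * s ≤ δ :=
    ⟨δ / (N + 1), by positivity, by rw [← mul_div_assoc, div_le_iff₀ (by positivity)]; linarith⟩
  refine ⟨s ^ 2 / 2, by positivity, fun T a hT ψ hψ hψe => ?_⟩
  have a0 := hT.nonneg
  have h1 : D.n2 (1 - ψ) ≤ s ^ 2 := by
    have h2 : D.n2 (1 - ψ) ≤ D.m ((2 : ℝ) • D.re (1 - ψ)) := D.m_le fun x => by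
      have h3 := (D.b_le ψ x).trans hψ
      have h4 : ‖D.b ψ x‖ ^ 2 ≤ 1 := pow_le_one₀ (norm_nonneg _) h3
      simp only [ContinuousMap.mul_apply, ab_apply, map_sub, map_one, ContinuousMap.sub_apply,
        ContinuousMap.one_apply, ContinuousMap.smul_apply, re_apply, smul_eq_mul]
      rw [← sq]
      rw [Complex.sq_norm, Complex.normSq_apply] at h4 ⊢
      simp only [Complex.sub_re, Complex.sub_im, Complex.one_re, Complex.one_im]
      linarith only [h4]
    rw [map_smul, m_re, map_sub, map_one, smul_eq_mul] at h2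
    linarith only [(Complex.re_le_norm _).trans hψe, h2]
  obtain ⟨g, hg⟩ := D.taylor N (1 - ψ)
  set q := ∑ k ∈ range N, D.c k (1 - ψ) • D.z ^ k with hq
  have h2 : ‖q‖ ≤ δ := by
    have h3 : ∀ k ∈ range N, ‖D.c k (1 - ψ) • D.z ^ k‖ ≤ s := fun k hk => by
      have h4 := (single_le_sum (f := fun k => ‖D.c k (1 - ψ)‖ ^ 2) (fun _ _ => sq_nonneg _)
        hk).trans ((D.bessel N _).trans h1)
      rw [norm_smul, ← mul_one s]
      exact mul_le_mul (le_of_sq_le_sq h4 s0.le) (D.pow_le k) (norm_nonneg _) s0.le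
    refine (norm_sum_le_of_le _ h3).trans ?_
    simpa only [sum_const, card_range, nsmul_eq_mul] using hs
  have h3 : ∀ x, ‖D.b g x‖ ≤ 3 := fun x => by
    have h4 : D.b D.z x ^ N * D.b g x = 1 - D.b ψ x - D.b q x := by
      have := congrArg (fun f => D.b f x) hg
      simp only [map_sub, map_one, map_add, map_mul, map_pow, ContinuousMap.sub_apply,
        ContinuousMap.one_apply, ContinuousMap.add_apply, ContinuousMap.mul_apply,
        ContinuousMap.pow_apply] at this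
      linear_combination -this
    have h5 := congrArg norm h4
    rw [norm_mul, norm_pow, D.z_norm, one_pow, one_mul] at h5
    have h6 := norm_sub_le (1 - D.b ψ x) (D.b q x)
    have h7 := norm_sub_le 1 (D.b ψ x)
    rw [norm_one] at h7
    linarith only [D.b_le ψ x, D.b_le q x, δ1, hψ, h2, h5, h6, h7]
  have h4 : ∑ i, ‖T (g * p i)‖ ≤ a * 6 := hT _ _ 6 (by norm_num) fun x => by
    simp only [map_mul, ContinuousMap.mul_apply, norm_mul, ← mul_sum]
    have := mul_le_mul (h3 x) (hp x) (sum_nonneg fun _ _ => norm_nonneg _) (by norm_num)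
    linarith only [this]
  have h5 : ∀ j ∈ univ, ‖π j (T ((1 - ψ) * u j))‖ ≤
      β * (a * (7 * δ)) + ∑ i, ‖π j (T (g * p i))‖ := fun j _ => by
    have h6 : (1 - ψ) * u j = (q * u j + g * (D.z ^ N * u j - ∑ i, t j i • p i)) +
        ∑ i, t j i • (g * p i) := by
      simp only [← mul_smul_comm, ← mul_sum]
      linear_combination u j * hg
    have h7 : ‖q * u j + g * (D.z ^ N * u j - ∑ i, t j i • p i)‖ ≤ 7 * δ := by
      have h8 := (norm_mul_le _ _).trans (mul_le_mul h2 (hu j) (norm_nonneg _) δ0.le)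
      have h9 := (norm_mul_le _ _).trans
        (mul_le_mul (D.norm_le _ _ h3) (hup j) (norm_nonneg _) (by norm_num))
      linarith only [norm_add_le (q * u j) (g * (D.z ^ N * u j - ∑ i, t j i • p i)), h8, h9]
    rw [h6, map_add, map_add]
    refine norm_add_le_of_le ?_ ?_
    · refine (single_le_sum (f := fun k => ‖π k _‖) (fun _ _ => norm_nonneg _) (mem_univ j)).trans
        ((hβ _).trans (mul_le_mul_of_nonneg_left ((hT.le _).trans ?_) β0))
      exact mul_le_mul_of_nonneg_left h7 a0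
    · rw [map_sum, map_sum]
      refine norm_sum_le_of_le _ fun i _ => ?_
      rw [map_smul, map_smul, norm_smul]
      exact mul_le_of_le_one_left (norm_nonneg _) (ht j i)
  refine (sum_le_sum h5).trans ?_
  rw [sum_add_distrib, sum_comm]
  have h6 : ∑ i, ∑ j, ‖π j (T (g * p i))‖ ≤ β * (a * 6) := by
    refine (sum_le_sum fun i _ => hβ _).trans ?_
    rw [← mul_sum]
    exact mul_le_mul_of_nonneg_left h4 β0
  have h7 := mul_le_mul_of_nonneg_left hδ a0
  simp only [sum_const, card_univ, Fintype.card_fin, nsmul_eq_mul]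
  linarith only [h6, h7]

/-- a summing part plus a part with a small trace -/
def Dec (π : Fin M → V →L[ℂ] ℂ) (T : A →ₗ[ℂ] V) (a B : ℝ) : Prop :=
  ∃ S : A →ₗ[ℂ] V, D.Sm S a ∧
    ∀ u : Fin M → A, (∀ j, ‖u j‖ ≤ 1) → ∑ j, ‖π j (T (u j) - S (u j))‖ ≤ B

theorem limit [ProperSpace V] (π : Fin M → V →L[ℂ] ℂ) {I : Type*} (F : Filter I) [F.NeBot]
    {T : A →ₗ[ℂ] V} {Ti S : I → A →ₗ[ℂ] V} (hT : ∀ g, Tendsto (fun i => Ti i g) F (𝓝 (T g)))
    {a B : ℝ} (hS : ∀ᶠ i in F, D.Sm (S i) a)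
    (hB : ∀ u : Fin M → A, (∀ j, ‖u j‖ ≤ 1) → ∀ ε > 0,
      ∀ᶠ i in F, ∑ j, ‖π j (Ti i (u j) - S i (u j))‖ ≤ B + ε) : D.Dec π T a B := by
  let U := Ultrafilter.of F
  have hU : (U : Filter I) ≤ F := Ultrafilter.of_le F
  have h1 : ∀ g, ∃ v, Tendsto (fun i => S i g) U (𝓝 v) := fun g => by
    obtain ⟨v, -, hv⟩ := (isCompact_closedBall (0 : V) (a * ‖g‖)).ultrafilter_le_nhds
      (U.map fun i => S i g) (by
        rw [le_principal_iff, Ultrafilter.coe_map, Filter.mem_map]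
        exact hU (hS.mono fun i hi => mem_closedBall_zero_iff.2 (hi.le g)))
    exact ⟨v, hv⟩
  choose s hs using h1
  refine ⟨{ toFun := s
            map_add' := fun f g => tendsto_nhds_unique (hs (f + g))
              (((hs f).add (hs g)).congr fun i => (map_add _ _ _).symm)
            map_smul' := fun c f => tendsto_nhds_unique (hs (c • f))
              (((hs f).const_smul c).congr fun i => (map_smul _ _ _).symm) }, ?_, ?_⟩
  · intro ι _ g r r0 hg
    exact le_of_tendsto (tendsto_finsetSum _ fun i _ => (hs (g i)).norm)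
      (hU (hS.mono fun i hi => hi ι g r r0 hg))
  · intro u hu
    refine le_of_forall_pos_le_add fun ε hε => ?_
    exact le_of_tendsto (tendsto_finsetSum _ fun j _ =>
      (((π j).continuous.tendsto _).comp (((hT (u j)).mono_left hU).sub (hs (u j)))).norm)
      (hU (hB u hu ε hε))

end Model

end

/-! A complemented space of vector-valued functions forces finite height. -/

noncomputable section

open Filter Topology Finset


theorem unimod {Y ι : Type*} [AddCommGroup Y] [Module ℂ Y] (l : Y →ₗ[ℂ] ℂ) (s : Finset ι)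
    (v : ι → Y) {C : ℝ} (h : ∀ θ : ι → ℂ, (∀ i, ‖θ i‖ = 1) → ‖l (∑ i ∈ s, θ i • v i)‖ ≤ C) :
    ∑ i ∈ s, ‖l (v i)‖ ≤ C := by
  choose θ h1 h2 using fun i => Complex.exists_norm_eq_mul_self (l (v i))
  refine le_trans ?_ (h θ h1)
  simp only [map_sum, map_smul, smul_eq_mul, ← h2]
  rw [← Complex.ofReal_sum, Complex.norm_real]
  exact le_abs_self _

variable {A Ω : Type} [NormedCommRing A] [NormedAlgebra ℂ A] [TopologicalSpace Ω]
  [CompactSpace Ω] (D : Model A Ω)

theorem Model.exists_paley (m : ℕ) : ∃ (P : A →ₗ[ℂ] EuclideanSpace ℂ (Fin (m * m)))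
    (π : Fin (m * m) → EuclideanSpace ℂ (Fin (m * m)) →L[ℂ] ℂ) (w : Fin (m * m) → A),
    (∀ f, ‖P f‖ ≤ 4 * D.m (D.ab f)) ∧ (∀ j, ‖w j‖ ≤ 1) ∧ (∀ j, π j (P (w j)) = 1) ∧
      (∀ v, ∑ j, ‖π j v‖ ≤ m * ‖v‖) ∧ ∀ j v, ‖π j v‖ ≤ ‖v‖ := by
  refine ⟨(WithLp.linearEquiv 2 ℂ _).symm.toLinearMap ∘ₗ
    LinearMap.pi fun j : Fin (m * m) => D.c (2 ^ (j.1 + 1) - 1), fun j => EuclideanSpace.proj j,
    fun j => D.z ^ (2 ^ (j.1 + 1) - 1), fun f => ?_, fun j => D.pow_le _, fun j => D.c_pow _,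
    fun v => ?_, fun j v => PiLp.norm_apply_le v j⟩
  · refine le_of_sq_le_sq ?_ (mul_nonneg (by norm_num) (D.m_pos _ fun x => norm_nonneg (D.b f x)))
    rw [EuclideanSpace.norm_sq_eq]
    refine le_trans (le_of_eq ?_) (D.paley f (m * m))
    exact Fin.sum_univ_eq_sum_range (fun j => ‖D.c (2 ^ (j + 1) - 1) f‖ ^ 2) _
  · refine le_of_sq_le_sq (sq_sum_le_card_mul_sum_sq.trans (le_of_eq ?_)) (by positivity)
    rw [mul_pow, EuclideanSpace.norm_sq_eq]
    simp only [card_univ, Fintype.card_fin, Nat.cast_mul, PiLp.proj_apply, sq]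

/-- a space of `A`-valued functions on `L` -/
structure Fn (L X A : Type*) [TopologicalSpace L] [NormedAddCommGroup X] [NormedSpace ℂ X]
    [NormedAddCommGroup A] [NormedSpace ℂ A] where
  ev : L → X →ₗ[ℂ] A
  ev_le : ∀ y x, ‖ev y x‖ ≤ ‖x‖
  cont : ∀ x, Continuous fun y => ev y x
  norm_le : ∀ x c, 0 ≤ c → (∀ y, ‖ev y x‖ ≤ c) → ‖x‖ ≤ c
  tens : ∀ χ : C(L, ℝ), HasCompactSupport χ → ∀ f, ∃ x, ∀ y, ev y x = (χ y : ℂ) • f

variable {L X : Type*} [TopologicalSpace L] [T2Space L] [LocallyCompactSpace L]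
  [NormedAddCommGroup X] [NormedSpace ℂ X]

theorem Fn.bump {B : Type*} [NormedAddCommGroup B] [NormedSpace ℂ B] (F : Fn L X B) {y : L}
    {U : Set L} (hU : IsOpen U) (hy : y ∈ U) (f : B) :
    ∃ x, F.ev y x = f ∧ (∀ y', ‖F.ev y' x‖ ≤ ‖f‖) ∧ ∀ y' ∉ U, F.ev y' x = 0 := by
  obtain ⟨χ, h1, h2, h3, h4⟩ := exists_continuous_one_zero_of_isCompact (isCompact_singleton (x := y))
    hU.isClosed_compl (by simpa using hy)
  obtain ⟨x, hx⟩ := F.tens χ h3 f
  refine ⟨x, by simp [hx, h1 (Set.mem_singleton y)], fun y' => ?_, fun y' hy' => by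
    simp [hx, h2 hy']⟩
  rw [hx, norm_smul, Complex.norm_real, Real.norm_of_nonneg (h4 y').1]
  exact mul_le_of_le_one_left (norm_nonneg _) (h4 y').2

theorem Fn.countable {B : Type*} [NormedAddCommGroup B] [NormedSpace ℂ B] (F : Fn L X B)
    [TopologicalSpace.SeparableSpace X] {f : B} (hf : 1 ≤ ‖f‖) {n : ℕ}
    (hn : derivedSet^[n] (Set.univ : Set L) = ∅) : Countable L := by
  have h1 : ∀ S : Set L, (S \ derivedSet S).Countable := fun S => by
    have h2 : ∀ y : L, ∃ x : X, y ∉ derivedSet S →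
        F.ev y x = f ∧ ∀ y' ∈ S, y' ≠ y → F.ev y' x = 0 := fun y => by
      by_cases hy : y ∈ derivedSet S
      · exact ⟨0, fun h => absurd hy h⟩
      · rw [mem_derivedSet, accPt_iff_nhds] at hy
        push Not at hy
        obtain ⟨U, hU, h⟩ := hy
        obtain ⟨x, h3, -, h4⟩ := F.bump isOpen_interior (mem_interior_iff_mem_nhds.2 hU) f
        exact ⟨x, fun _ => ⟨h3, fun y' hy' hne =>
          h4 y' fun hi => hne (h y' ⟨interior_subset hi, hy'⟩)⟩⟩
    choose x hx using h2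
    refine Set.PairwiseDisjoint.countable_of_isOpen (s := fun y => Metric.ball (x y) (1 / 2))
      (fun y hy y' hy' hne => Metric.ball_disjoint_ball ?_) (fun _ _ => Metric.isOpen_ball)
      fun _ _ => Metric.nonempty_ball.2 (by norm_num)
    have h3 := F.ev_le y (x y - x y')
    rw [map_sub, (hx y hy.2).1, (hx y' hy'.2).2 y hy.1 hne, sub_zero] at h3
    rw [dist_eq_norm]
    linarith
  rw [← Set.countable_univ_iff]
  refine (Set.countable_iUnion fun k : ℕ => h1 (derivedSet^[k] Set.univ)).mono fun y _ => ?_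
  by_contra hy
  simp only [Set.mem_iUnion, Set.mem_sdiff, not_exists, not_and, not_not] at hy
  have h2 : ∀ k, y ∈ derivedSet^[k] (Set.univ : Set L) := fun k => by
    induction k with
    | zero => trivial
    | succ k ih => rw [Function.iterate_succ_apply']; exact hy k ih
  simpa [hn] using h2 n

variable {V : Type} [NormedAddCommGroup V] [NormedSpace ℂ V] {M : ℕ}

/-- test functions of small mean exist -/
def Model.Good (π : Fin M → V →L[ℂ] ℂ) (T : A →ₗ[ℂ] V) (d : ℝ) : Prop :=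
  ∃ u : Fin M → A, (∀ j, ‖u j‖ ≤ 1) ∧ (∀ j, π j (T (u j)) = 1) ∧ ∀ j, D.n2 (u j) ≤ d

theorem Model.bad_finite (F : Fn L X A) {J : X →ₗ[ℂ] A} {R : A →ₗ[ℂ] X} (hRJ : ∀ x, R (J x) = x)
    (hJ : ∀ x, ‖J x‖ ≤ ‖x‖) (π : Fin M → V →L[ℂ] ℂ) (P : A →ₗ[ℂ] V) {w : Fin M → A}
    (hw : ∀ j, ‖w j‖ ≤ 1) (hP : ∀ j, π j (P (w j)) = 1) {d : ℝ} (hd : 0 < d) :
    {y | ¬ D.Good π (P ∘ₗ F.ev y ∘ₗ R) d}.Finite := by
  by_contra hinf
  obtain ⟨N, hN⟩ := exists_nat_gt (M / d)
  obtain ⟨s, hs, hcard⟩ := Set.Infinite.exists_subset_card_eq hinf N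
  obtain ⟨U, hU, hdis⟩ := s.finite_toSet.t2_separation
  choose x h1 h2 h3 using fun y j => F.bump (hU y).2 (hU y).1 (w j)
  have h4 : ∀ j t, ∑ y ∈ s, ‖D.b (J (x y j)) t‖ ≤ 1 := fun j t =>
    unimod ((ContinuousMap.evalCLM ℂ t).toLinearMap ∘ₗ D.b.toLinearMap ∘ₗ J) s (fun y => x y j)
      fun θ hθ => by
        refine (D.b_le _ t).trans ((hJ _).trans (F.norm_le _ _ zero_le_one fun y' => ?_))
        rw [map_sum]
        by_cases h5 : ∃ y ∈ s, y' ∈ U y
        · obtain ⟨y, hy, hy'⟩ := h5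
          rw [sum_eq_single_of_mem y hy fun y2 hy2 hne => by
            rw [map_smul, h3 y2 j y' (Set.disjoint_left.1 (hdis hy hy2 hne.symm) hy'), smul_zero]]
          rw [map_smul, norm_smul, hθ, one_mul]
          exact (h2 y j y').trans (hw j)
        · push Not at h5
          rw [sum_eq_zero fun y hy => by rw [map_smul, h3 y j y' (h5 y hy), smul_zero]]
          simp
  have h5 : ∀ y j, ‖J (x y j)‖ ≤ 1 := fun y j =>
    (hJ _).trans (F.norm_le _ _ zero_le_one fun y' => (h2 y j y').trans (hw j))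
  have h6 : ∀ j ∈ univ, ∑ y ∈ s, D.n2 (J (x y j)) ≤ 1 := fun j _ => by
    unfold Model.n2
    rw [← map_sum, ← D.m_one]
    refine D.m_le fun t => ?_
    rw [ContinuousMap.sum_apply]
    refine le_trans (sum_le_sum fun y _ => ?_) (h4 j t)
    exact mul_le_of_le_one_left (norm_nonneg (D.b _ t)) ((D.b_le _ t).trans (h5 y j))
  have h7 : ∀ y ∈ s, d ≤ ∑ j, D.n2 (J (x y j)) := fun y hy => by
    by_contra hc
    push Not at hc
    refine hs hy ⟨fun j => J (x y j), h5 y, fun j => by simp [hRJ, h1, hP], fun j => ?_⟩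
    exact (single_le_sum (f := fun j => D.n2 (J (x y j))) (fun _ _ => D.n2_nonneg _)
      (mem_univ j)).trans hc.le
  have h8 := (sum_le_sum h7).trans ((sum_comm.le).trans (sum_le_sum h6))
  simp only [sum_const, hcard, nsmul_eq_mul, card_univ, Fintype.card_fin, mul_one] at h8
  rw [div_lt_iff₀ hd] at hN
  linarith only [hN, h8]

omit [LocallyCompactSpace L] in
theorem Model.step [T2Space Ω] [ProperSpace V] (π : Fin M → V →L[ℂ] ℂ) {β : ℝ}
    (hβ : ∀ v, ∑ j, ‖π j v‖ ≤ β * ‖v‖) (β0 : 0 ≤ β) (hπ : ∀ j v, ‖π j v‖ ≤ ‖v‖)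
    (T : L → A →ₗ[ℂ] V) (hT : ∀ g, Continuous fun y => T y g)
    (hbad : ∀ d > 0, {y | ¬ D.Good π (T y) d}.Finite) {a a0 B : ℝ} (ha : a ≤ a0) (ha0 : 0 < a0)
    (hB : B < M / 2) {S : Set L} (hS : ∀ y ∈ S, D.Dec π (T y) a B) {κ : L}
    (hκ : κ ∈ derivedSet S) : D.Dec π (T κ) (a - 1 / (8 * a0)) (B + a0 * (6 * β)) := by
  have h1 : ∀ p : L × ℕ, ∃ (S1 : A →ₗ[ℂ] V) (ψ : A),
      p.1 ∈ S → D.Good π (T p.1) (1 / ((p.2 : ℝ) + 1)) → D.Sm S1 a ∧
        (∀ u : Fin M → A, (∀ j, ‖u j‖ ≤ 1) → ∑ j, ‖π j (T p.1 (u j) - S1 (u j))‖ ≤ B) ∧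
        ‖ψ‖ ≤ 1 ∧ ‖1 - D.e ψ‖ ≤ 3 * (1 / ((p.2 : ℝ) + 1)) ∧
        D.Sm (S1 ∘ₗ LinearMap.mulLeft ℂ ψ) (a - 1 / (8 * a0)) := fun p => by
    by_cases h : p.1 ∈ S ∧ D.Good π (T p.1) (1 / ((p.2 : ℝ) + 1))
    · obtain ⟨h2, u, hu, hu1, hu2⟩ := h
      obtain ⟨S1, h3, h4⟩ := hS _ h2
      obtain ⟨j, hj⟩ : ∃ j, 1 / 2 ≤ ‖S1 (u j)‖ := by
        by_contra hc
        push Not at hc
        have h5 : ∀ j ∈ univ, (1 / 2 : ℝ) ≤ ‖π j (T p.1 (u j) - S1 (u j))‖ := fun j _ => by
          have h6 := norm_sub_norm_le (1 : ℂ) (π j (S1 (u j)))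
          rw [map_sub, hu1]
          rw [norm_one] at h6
          linarith [hπ j (S1 (u j)), hc j]
        have h6 := (sum_le_sum h5).trans (h4 u hu)
        simp only [sum_const, card_univ, Fintype.card_fin, nsmul_eq_mul] at h6
        linarith only [hB, h6]
      obtain ⟨ψ, h5⟩ := Model.lower h3 ha ha0 (hu j) hj (by positivity) (hu2 j)
      exact ⟨S1, ψ, fun _ _ => ⟨h3, h4, h5⟩⟩
    · exact ⟨0, 0, fun h2 h3 => absurd ⟨h2, h3⟩ h⟩
  choose S1 ψ h1 using h1
  have hF0 : (𝓝[≠] κ ⊓ 𝓟 S).NeBot := hκ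
  let F : Filter (L × ℕ) := ((𝓝[≠] κ ⊓ 𝓟 S) ×ˢ atTop) ⊓
    𝓟 {p | D.Good π (T p.1) (1 / ((p.2 : ℝ) + 1))}
  have hF : F.NeBot := by
    refine inf_principal_neBot_iff.2 fun W hW => ?_
    obtain ⟨U1, hU1, U2, hU2, hsub⟩ := mem_prod_iff.1 hW
    obtain ⟨n, hn⟩ := Filter.nonempty_of_mem hU2
    have h2 : ∀ᶠ y in 𝓝[≠] κ, D.Good π (T y) (1 / ((n : ℝ) + 1)) := by
      have h3 := ((hbad _ (by positivity : 0 < 1 / ((n : ℝ) + 1))).subset
        (Set.sdiff_subset (t := {κ}))).isClosed.isOpen_compl.mem_nhds (x := κ) (by simp)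
      filter_upwards [mem_nhdsWithin_of_mem_nhds h3, self_mem_nhdsWithin] with y h4 h5
      by_contra h6
      exact h4 ⟨h6, h5⟩
    obtain ⟨y, hy1, hy2⟩ := Filter.nonempty_of_mem (inter_mem hU1 (mem_inf_of_left h2))
    exact ⟨(y, n), hsub ⟨hy1, hn⟩, hy2⟩
  have t1 : Tendsto Prod.fst F (𝓝[≠] κ ⊓ 𝓟 S) := tendsto_fst.mono_left inf_le_left
  have t2 : Tendsto Prod.snd F atTop := tendsto_snd.mono_left inf_le_left
  have h2 := (t1.eventually (mem_inf_of_right (mem_principal_self S))).and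
    (show ∀ᶠ p in F, D.Good π (T p.1) (1 / ((p.2 : ℝ) + 1)) from
      mem_inf_of_right (mem_principal_self _))
  have h3 := h2.mono fun p hp => h1 p hp.1 hp.2
  refine D.limit π F (Ti := fun p => T p.1) (S := fun p => S1 p ∘ₗ LinearMap.mulLeft ℂ (ψ p))
    (fun g => ((hT g).tendsto κ).comp (t1.mono_right (inf_le_left.trans nhdsWithin_le_nhds)))
    (h3.mono fun p hp => hp.2.2.2.2) fun u hu ε hε => ?_
  obtain ⟨d, d0, hd⟩ := D.trace_le π hβ β0 u hu (div_pos hε ha0)
  have t3 : Tendsto (fun p : L × ℕ => 3 * (1 / ((p.2 : ℝ) + 1))) F (𝓝 0) := by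
    simpa only [one_div, Function.comp_apply, mul_zero] using ((tendsto_one_div_add_atTop_nhds_zero_nat (𝕜 := ℝ)).comp t2).const_mul 3
  filter_upwards [h3, t3.eventually_le_const d0] with p hp hpd
  have h4 := hd _ _ hp.1 _ hp.2.2.1 (hp.2.2.2.1.trans hpd)
  have h5 : ∀ j ∈ univ, ‖π j (T p.1 (u j) - (S1 p ∘ₗ LinearMap.mulLeft ℂ (ψ p)) (u j))‖ ≤
      ‖π j (T p.1 (u j) - S1 p (u j))‖ + ‖π j (S1 p ((1 - ψ p) * u j))‖ := fun j _ => by
    refine le_trans (le_of_eq ?_) (norm_add_le _ _)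
    simp only [LinearMap.coe_comp, Function.comp_apply, LinearMap.mulLeft_apply, map_sub, sub_mul, one_mul, sub_add_sub_cancel]
  refine (sum_le_sum h5).trans ?_
  rw [sum_add_distrib]
  have h6 : a * (6 * β + ε / a0) ≤ a0 * (6 * β + ε / a0) :=
    mul_le_mul_of_nonneg_right ha (by positivity)
  have h7 : a0 * (6 * β + ε / a0) = a0 * (6 * β) + ε := by field_simp
  linarith only [hp.2.1 u hu, h4, h6, h7]

include D in
theorem Model.height [T2Space Ω] (F : Fn L X A) (J : X →L[ℂ] A) (R : A →L[ℂ] X)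
    (hRJ : ∀ x, R (J x) = x) : ∃ n, derivedSet^[n] (Set.univ : Set L) = ∅ := by
  obtain ⟨J, R, ρ, ρ0, hRJ, hJ, hR⟩ : ∃ (J : X →ₗ[ℂ] A) (R : A →ₗ[ℂ] X) (ρ : ℝ), 0 ≤ ρ ∧
      (∀ x, R (J x) = x) ∧ (∀ x, ‖J x‖ ≤ ‖x‖) ∧ ∀ g, ‖R g‖ ≤ ρ * ‖g‖ := by
    have k0 : 0 < ‖J‖ + 1 := by positivity
    have k1 : ((‖J‖ + 1 : ℝ) : ℂ) ≠ 0 := Complex.ofReal_ne_zero.2 k0.ne'
    refine ⟨((‖J‖ + 1 : ℝ) : ℂ)⁻¹ • J.toLinearMap, ((‖J‖ + 1 : ℝ) : ℂ) • R.toLinearMap,
      (‖J‖ + 1) * ‖R‖, by positivity, fun x => ?_, fun x => ?_, fun g => ?_⟩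
    · simp only [LinearMap.smul_apply, map_smul, ContinuousLinearMap.coe_coe, hRJ, smul_smul]
      rw [inv_mul_cancel₀ k1, one_smul]
    · rw [LinearMap.smul_apply, norm_smul, norm_inv, Complex.norm_real, Real.norm_of_nonneg k0.le,
        inv_mul_le_iff₀ k0, ContinuousLinearMap.coe_coe]
      linarith [J.le_opNorm x, norm_nonneg x]
    · rw [LinearMap.smul_apply, norm_smul, Complex.norm_real, Real.norm_of_nonneg k0.le, mul_assoc]
      exact mul_le_mul_of_nonneg_left (R.le_opNorm g) k0.le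
  obtain ⟨a0, ha0, hρ⟩ : ∃ a0 : ℝ, 0 < a0 ∧ 4 * ρ ≤ a0 := ⟨4 * ρ + 1, by positivity, by linarith⟩
  obtain ⟨n, hn⟩ := exists_nat_gt (8 * a0 * a0)
  obtain ⟨m, hm⟩ := exists_nat_gt (12 * n * a0)
  have m0 : (0 : ℝ) < m := lt_of_le_of_lt (by positivity) hm
  obtain ⟨P, π, w, hP, hw, hPw, hβ, hπ⟩ := D.exists_paley m
  have hPc : Continuous P := AddMonoidHomClass.continuous_of_bound P 4 fun f =>
    (hP f).trans (mul_le_mul_of_nonneg_left (by
      have := D.m_le (v := D.ab f) (w := ‖f‖ • 1) fun x => by simpa only [ab_apply, ContinuousMap.coe_smul, ContinuousMap.coe_one, Pi.smul_apply, Pi.one_apply, smul_eq_mul, mul_one] using D.b_le f x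
      rwa [map_smul, D.m_one, smul_eq_mul, mul_one] at this) (by norm_num))
  have key : ∀ k ≤ n, ∀ y ∈ derivedSet^[k] (Set.univ : Set L),
      D.Dec π (P ∘ₗ F.ev y ∘ₗ R) (a0 - k * (1 / (8 * a0))) (k * (a0 * (6 * m))) := by
    intro k
    induction k with
    | zero =>
      intro _ y _
      refine ⟨P ∘ₗ F.ev y ∘ₗ R, fun ι _ g r r0 hg => ?_, fun u _ => by simp only [LinearMap.coe_comp, Function.comp_apply, sub_self, map_zero, norm_zero, sum_const_zero, CharP.cast_eq_zero, zero_mul, Std.le_refl]⟩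
      refine (sum_le_sum fun i _ => hP _).trans ?_
      rw [← mul_sum, ← map_sum]
      have h1 := D.m_le (v := ∑ i, D.ab ((F.ev y ∘ₗ R) (g i))) (w := (ρ * r) • 1) fun t => by
        rw [ContinuousMap.sum_apply]
        simp only [ContinuousMap.smul_apply, ContinuousMap.one_apply, smul_eq_mul, mul_one]
        refine unimod ((ContinuousMap.evalCLM ℂ t).toLinearMap ∘ₗ D.b.toLinearMap ∘ₗ F.ev y ∘ₗ R)
          univ g fun θ hθ => (D.b_le _ t).trans ((F.ev_le _ _).trans ((hR _).trans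
            (mul_le_mul_of_nonneg_left (D.norm_le _ _ fun x => ?_) ρ0)))
        rw [map_sum, ContinuousMap.sum_apply]
        refine (norm_sum_le _ _).trans (le_trans (le_of_eq ?_) (hg x))
        simp only [map_smul, ContinuousMap.coe_smul, Pi.smul_apply, smul_eq_mul, Complex.norm_mul, hθ, one_mul]
      rw [map_smul, D.m_one, smul_eq_mul, mul_one] at h1
      have h2 := mul_le_mul_of_nonneg_right hρ r0
      simp only [Nat.cast_zero, zero_mul, sub_zero]
      linarith only [h1, h2]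
    | succ k ih =>
      intro hk y hy
      rw [Function.iterate_succ_apply'] at hy
      have hk' : (k : ℝ) ≤ n := by exact_mod_cast (by omega : k ≤ n)
      have h1 := D.step π hβ m0.le hπ (fun y => P ∘ₗ F.ev y ∘ₗ R)
        (fun g => hPc.comp (F.cont _)) (fun d hd => D.bad_finite F hRJ hJ π P hw hPw hd)
        (sub_le_self a0 (by positivity)) ha0 (by
          push_cast
          have h2 := mul_le_mul_of_nonneg_right hk' (by positivity : 0 ≤ a0 * (6 * m))
          nlinarith only [hm, m0, h2]) (ih (by omega)) hy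
      push_cast
      rw [add_mul, add_mul, one_mul, one_mul, ← sub_sub]
      exact h1
  refine ⟨n, Set.eq_empty_of_forall_notMem fun y hy => ?_⟩
  obtain ⟨S, hS, -⟩ := key n le_rfl y hy
  have h1 := hS.nonneg
  rw [sub_nonneg, mul_one_div, div_le_iff₀ (by positivity)] at h1
  linarith

end

/-! Countable spaces of finite height, and trigonometric approximation. -/

noncomputable section

open Filter Topology Finset ZeroAtInfty OnePoint


theorem parent {K : Type*} [MetricSpace K] [CompactSpace K] (ρ : K → ℕ) (o : K) (n : ℕ)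
    (ho : ρ o = n) (hlt : ∀ y, y ≠ o → ρ y < n) (hloc : ∀ w, ∀ᶠ y in 𝓝 w, y ≠ w → ρ y < ρ w) :
    ∃ π : K → K, π o = o ∧ (∀ y, π^[n] y = o) ∧ ∀ w, ∀ V ∈ 𝓝 w, ∀ᶠ y in 𝓝 w,
      ∃ i ≤ n, π^[i] y = w ∧ ∀ j < i, π^[j] y ∈ V ∧ π^[j] y ≠ w := by
  have hle : ∀ y, ρ y ≤ n := fun y => by
    by_cases h : y = o
    · rw [h, ho]
    · exact (hlt y h).le
  have h1 : ∀ y, ∃ p, (y = o → p = o) ∧
      (y ≠ o → ρ y < ρ p ∧ ∀ w, ρ y < ρ w → dist y p ≤ dist y w) := fun y => by
    by_cases h : y = o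
    · exact ⟨o, fun _ => rfl, fun h' => absurd h h'⟩
    · have hc : IsClosed {w | ρ y < ρ w} := by
        rw [← isOpen_compl_iff, isOpen_iff_mem_nhds]
        intro w hw
        filter_upwards [hloc w] with v hv h2
        by_cases h3 : v = w
        · exact hw (h3 ▸ h2)
        · exact hw (lt_trans h2 (hv h3))
      obtain ⟨p, hp, hmin⟩ := hc.isCompact.exists_isMinOn ⟨o, by simpa [ho] using hlt y h⟩
        (f := fun w => dist y w) (by fun_prop)
      exact ⟨p, fun h' => absurd h' h, fun _ => ⟨hp, fun w hw => hmin hw⟩⟩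
  choose π h1 h2 using h1
  have ho' : π o = o := h1 o rfl
  refine ⟨π, ho', fun y => ?_, fun w V hV => ?_⟩
  · have h3 : ∀ k y, n ≤ ρ y + k → π^[k] y = o := fun k => by
      induction k with
      | zero => intro y h; by_contra h'; have := hlt y h'; omega
      | succ k ih =>
        intro y h
        by_cases h' : y = o
        · rw [h', Function.iterate_fixed ho']
        · exact ih (π y) (by have := (h2 y h').1; omega)
    exact h3 n y (by omega)
  · obtain ⟨r, r0, hr⟩ := Metric.eventually_nhds_iff.1 ((hloc w).and hV)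
    have h3 : ∀ k y, ρ w ≤ ρ y + k → dist y w * 2 ^ k < r →
        ∃ i ≤ k, π^[i] y = w ∧ ∀ j < i, π^[j] y ∈ V ∧ π^[j] y ≠ w := fun k => by
      induction k with
      | zero =>
        intro y h hd
        refine ⟨0, le_rfl, ?_, fun j hj => absurd hj (Nat.not_lt_zero _)⟩
        by_contra h'
        have : ρ y < ρ w := (hr (by simpa using hd)).1 h'
        omega
      | succ k ih =>
        intro y h hd
        by_cases h' : y = w
        · exact ⟨0, Nat.zero_le _, h', fun j hj => absurd hj (Nat.not_lt_zero _)⟩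
        · have h4 : (1 : ℝ) ≤ 2 ^ k := one_le_pow₀ one_le_two
          have h5 : dist y w < r := by
            rw [pow_succ] at hd
            nlinarith only [r0, hd, h4]
          have h6 := (hr h5).1 h'
          have h7 := h2 y fun h8 => by have := hle w; rw [h8, ho] at h6; omega
          obtain ⟨i, hi, h8, h9⟩ := ih (π y) (by have := h7.1; omega) (by
            have h10 := dist_triangle_left (π y) w y
            have h11 := h7.2 w h6
            rw [pow_succ] at hd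
            nlinarith only [hd, h4, h10, h11])
          refine ⟨i + 1, by omega, h8, fun j hj => ?_⟩
          cases j with
          | zero => exact ⟨(hr h5).2, h'⟩
          | succ j => exact h9 j (by omega)
    filter_upwards [Metric.ball_mem_nhds w (by positivity : 0 < r / 2 ^ n)] with y hy
    exact h3 n y (by have := hle w; omega) ((lt_div_iff₀ (by positivity)).1 hy)

theorem metrizable_of_countable (K : Type*) [TopologicalSpace K] [CompactSpace K] [T2Space K]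
    [Countable K] : TopologicalSpace.MetrizableSpace K := by
  have h1 : ∀ p : K × K, ∃ f : C(K, ℝ), p.1 ≠ p.2 → f p.1 ≠ f p.2 := fun p => by
    by_cases h : p.1 = p.2
    · exact ⟨0, fun h' => absurd h h'⟩
    · obtain ⟨f, h0, h1, -⟩ := exists_continuous_zero_one_of_isClosed (isClosed_singleton (x := p.1))
        (isClosed_singleton (x := p.2)) (by simpa using h)
      exact ⟨f, fun _ => by simp [h0 (Set.mem_singleton _), h1 (Set.mem_singleton _)]⟩
  choose f hf using h1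
  have h2 := (Continuous.isClosedEmbedding (f := fun x p => f p x) (by fun_prop) fun x y h => by
    by_contra h'
    exact hf (x, y) h' (congrFun h (x, y))).isEmbedding
  have := h2.secondCountableTopology
  infer_instance

variable {L : Type*} [TopologicalSpace L]

theorem parent_onePoint [T2Space L] [LocallyCompactSpace L] [Countable L] {n : ℕ}
    (hn : derivedSet^[n] (Set.univ : Set L) = ∅) :
    ∃ π : OnePoint L → OnePoint L, π ∞ = ∞ ∧ (∀ y, π^[n + 1] y = ∞) ∧ ∀ w, ∀ V ∈ 𝓝 w, ∀ᶠ y in 𝓝 w,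
      ∃ i ≤ n + 1, π^[i] y = w ∧ ∀ j < i, π^[j] y ∈ V ∧ π^[j] y ≠ w := by
  classical
  have : Countable (OnePoint L) := inferInstanceAs (Countable (Option L))
  have := metrizable_of_countable (OnePoint L)
  let := TopologicalSpace.metrizableSpaceMetric (OnePoint L)
  have h0 : ∀ y : L, y ∉ derivedSet^[n] (Set.univ : Set L) := fun y => by simp [hn]
  have h1 : ∀ y : L, ∃ k, y ∉ derivedSet^[k] (Set.univ : Set L) := fun y => ⟨n, h0 y⟩
  have h2 : ∀ y : OnePoint L, y ≠ ∞ → y.elim (n + 1) (fun y => Nat.find (h1 y)) < n + 1 :=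
    fun y hy => by
      lift y to L using hy
      exact Nat.lt_succ_of_le (Nat.find_min' _ (h0 y))
  refine parent (fun y => y.elim (n + 1) fun y => Nat.find (h1 y)) ∞ (n + 1) rfl h2 fun w => ?_
  induction w using OnePoint.rec with
  | infty => exact .of_forall h2
  | coe w =>
    obtain ⟨k, hk⟩ : ∃ k, Nat.find (h1 w) = k + 1 :=
      Nat.exists_eq_succ_of_ne_zero (by simp [Nat.find_eq_zero])
    have h3 := Nat.find_spec (h1 w)
    rw [hk, Function.iterate_succ_apply', mem_derivedSet, accPt_iff_nhds] at h3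
    push Not at h3
    obtain ⟨U, hU, h4⟩ := h3
    filter_upwards [isOpenMap_coe.image_mem_nhds hU]
    rintro _ ⟨y, hy, rfl⟩ hne
    rw [elim_some, elim_some, hk]
    exact Nat.lt_succ_of_le (Nat.find_min' _ fun h5 => hne (congrArg _ (h4 y ⟨hy, h5⟩)))

variable {X Y : Type*} [NormedAddCommGroup X] [NormedSpace ℂ X] [NormedAddCommGroup Y]
  [NormedSpace ℂ Y]

/-- evaluation -/
def evL (y : L) : C₀(L, X) →L[ℂ] X :=
  LinearMap.mkContinuous
    { toFun := fun x => x y, map_add' := fun _ _ => rfl, map_smul' := fun _ _ => rfl } 1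
    fun x => (x.toBCF.norm_coe_le_norm y).trans_eq (one_mul _).symm

theorem evL_le (y : L) (x : C₀(L, X)) : ‖evL y x‖ ≤ ‖x‖ := x.toBCF.norm_coe_le_norm y

omit [NormedSpace ℂ X] in
theorem c0L_le {x : C₀(L, X)} {c : ℝ} (c0 : 0 ≤ c) (h : ∀ y, ‖x y‖ ≤ c) : ‖x‖ ≤ c :=
  (BoundedContinuousFunction.norm_le c0).2 h

/-- an operator into a space of functions, from its values -/
def toL (T : L → Y →L[ℂ] X) (c : ℝ) (c0 : 0 ≤ c) (hc : ∀ y x, ‖T y x‖ ≤ c * ‖x‖)
    (h1 : ∀ x, Continuous fun y => T y x)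
    (h0 : ∀ x, Tendsto (fun y => T y x) (cocompact L) (𝓝 0)) : Y →L[ℂ] C₀(L, X) :=
  LinearMap.mkContinuous
    { toFun := fun x => ⟨⟨fun y => T y x, h1 x⟩, h0 x⟩
      map_add' := fun x x' => ZeroAtInftyContinuousMap.ext fun y => map_add (T y) x x'
      map_smul' := fun a x => ZeroAtInftyContinuousMap.ext fun y => map_smul (T y) a x } c
    fun x => c0L_le (by positivity) fun y => hc y x

theorem tens_zero (χ : C(L, ℝ)) (h : HasCompactSupport χ) (f : X) :
    Tendsto (fun y => (χ y : ℂ) • f) (cocompact L) (𝓝 0) := by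
  simpa only [Complex.coe_smul, Function.comp_apply, Complex.ofReal_zero, zero_smul] using ((Complex.continuous_ofReal.tendsto 0).comp h.is_zero_at_infty).smul_const f

/-- the space of functions vanishing at infinity -/
def fn0 (L X : Type*) [TopologicalSpace L] [NormedAddCommGroup X] [NormedSpace ℂ X] :
    Fn L C₀(L, X) X where
  ev y := (evL y).toLinearMap
  ev_le := evL_le
  cont x := x.continuous
  norm_le _ _ := c0L_le
  tens χ h f := ⟨⟨⟨fun y => (χ y : ℂ) • f, by fun_prop⟩, tens_zero χ h f⟩, fun _ => rfl⟩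

variable [T2Space L] [LocallyCompactSpace L]

theorem compl_in [Nonempty L] :
    ∃ (J : X →L[ℂ] C₀(L, X)) (R : C₀(L, X) →L[ℂ] X), ∀ x, R (J x) = x := by
  obtain ⟨y⟩ := ‹Nonempty L›
  obtain ⟨χ, h1, -, h3, h4⟩ := exists_continuous_one_zero_of_isCompact (isCompact_singleton (x := y))
    isClosed_empty (by simp)
  refine ⟨toL (fun y => (χ y : ℂ) • ContinuousLinearMap.id ℂ X) 1 zero_le_one (fun y x => ?_)
    (fun x => ?_) (fun x => tens_zero χ h3 x), evL y, fun x => ?_⟩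
  · change ‖(χ y : ℂ) • x‖ ≤ _
    rw [norm_smul, Complex.norm_real, Real.norm_of_nonneg (h4 y).1]
    exact mul_le_mul_of_nonneg_right (h4 y).2 (norm_nonneg _)
  · change Continuous fun y => (χ y : ℂ) • x
    fun_prop
  · change (χ y : ℂ) • x = x
    simp [h1 (Set.mem_singleton y)]

theorem compl_c0 [Countable L] {n : ℕ} (hn : derivedSet^[n] (Set.univ : Set L) = ∅) :
    ∃ (J : C₀(L, X) →L[ℂ] C₀(ℕ, X)) (R : C₀(ℕ, X) →L[ℂ] C₀(L, X)), ∀ x, R (J x) = x := by
  classical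
  obtain ⟨π, hπ, htop, hch⟩ := parent_onePoint hn
  obtain ⟨ι, hι⟩ := exists_injective_nat L
  obtain ⟨σ, σ1, σ2⟩ : ∃ σ : ℕ → OnePoint L, (∀ y, σ (ι y) = y) ∧ ∀ k (y : L), σ k = y → k = ι y :=
    ⟨fun k => if h : ∃ y, ι y = k then (h.choose : L) else ∞, fun y => by
      have h : ∃ y', ι y' = ι y := ⟨y, rfl⟩
      simp only [dif_pos h, hι h.choose_spec], fun k y h => by
      by_cases h' : ∃ y, ι y = k
      · simp only [dif_pos h', coe_eq_coe] at h
        rw [← h, h'.choose_spec]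
      · simp only [dif_neg h', infty_ne_coe] at h⟩
  let eK : OnePoint L → C₀(L, X) →L[ℂ] X := fun y => y.elim 0 evL
  let eN : OnePoint L → C₀(ℕ, X) →L[ℂ] X := fun y => y.elim 0 fun y => ev (ι y)
  have eK1 : ∀ y f, ‖eK y f‖ ≤ ‖f‖ := fun y f => by
    induction y using OnePoint.rec with
    | infty => simp [eK]
    | coe y => exact evL_le y f
  have eN1 : ∀ y g, ‖eN y g‖ ≤ ‖g‖ := fun y g => by
    induction y using OnePoint.rec with
    | infty => simp [eN]
    | coe y => exact c0_apply_le g _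
  have eK2 : ∀ f, Continuous fun y => eK y f := fun f => by
    refine continuous_iff_continuousAt.2 fun y => ?_
    induction y using OnePoint.rec with
    | infty =>
      rw [continuousAt_infty', coclosedCompact_eq_cocompact]
      exact zero_at_infty f
    | coe y => exact continuousAt_coe.2 f.continuous.continuousAt
  have eN2 : ∀ g, ∀ ε > 0, {y | ε ≤ ‖eN y g‖}.Finite := fun g ε hε => by
    have h1 : {k | ε ≤ ‖g k‖}.Finite := by
      have := NormedAddGroup.tendsto_nhds_zero.1 (c0_tendsto g) ε hε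
      rw [← Nat.cofinite_eq_atTop] at this
      simpa only [not_lt] using eventually_cofinite.1 this
    refine ((h1.preimage hι.injOn).image (↑)).subset fun y hy => ?_
    induction y using OnePoint.rec with
    | infty => exact absurd hy (by simpa only [eN, Set.mem_ofPred_eq, elim_infty, zero_apply, norm_zero, not_le, gt_iff_lt] using hε)
    | coe y => exact ⟨y, hy, rfl⟩
  have h1 : ∀ f, ∀ ε > 0, {y | ε ≤ ‖eK y f - eK (π y) f‖}.Finite := fun f ε hε => by
    by_contra hinf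
    obtain ⟨w, -, hw⟩ := Set.Infinite.exists_accPt_of_subset_isCompact hinf isCompact_univ
      (Set.subset_univ _)
    have h2 := Metric.tendsto_nhds.1 ((eK2 f).tendsto w) _ (half_pos hε)
    obtain ⟨y, ⟨⟨h3, i, -, h4, h5⟩, hy⟩, hne⟩ := accPt_iff_nhds.1 hw _ (h2.and (hch w _ h2))
    have h6 : dist (eK (π y) f) (eK w f) < ε / 2 := by
      rcases i with _ | _ | i
      · exact absurd h4 hne
      · rw [show π y = w from h4]
        simpa using hε
      · exact (h5 1 (by omega)).1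
    have h7 := dist_triangle_right (eK y f) (eK (π y) f) (eK w f)
    rw [dist_eq_norm] at h7
    have h8 : ε ≤ ‖eK y f - eK (π y) f‖ := hy
    linarith only [h3, h6, h7, h8]
  have h2 : ∀ g, Continuous fun y => ∑ j ∈ range (n + 1), eN (π^[j] y) g := fun g => by
    refine continuous_iff_continuousAt.2 fun w => Metric.tendsto_nhds.2 fun ε hε => ?_
    have δ0 : 0 < ε / (n + 2) := by positivity
    have h3 := ((eN2 g _ δ0).subset (Set.sdiff_subset (t := {w}))).isClosed.isOpen_compl.mem_nhds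
      (x := w) (by simp only [Set.mem_compl_iff, Set.mem_sdiff, Set.mem_ofPred_eq, Set.mem_singleton_iff, not_true_eq_false, and_false, not_false_eq_true])
    filter_upwards [hch w _ h3] with y ⟨i, hi, h4, h5⟩
    have h6 : ∑ j ∈ range (n + 1), eN (π^[j] y) g =
        ∑ j ∈ range i, eN (π^[j] y) g + ∑ j ∈ range (n + 1), eN (π^[j] w) g := by
      have h7 : ∑ j ∈ range i, eN (π^[n + 1 + j] y) g = 0 := sum_eq_zero fun j _ => by
        rw [add_comm, Function.iterate_add_apply, htop, Function.iterate_fixed hπ]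
        rfl
      rw [← add_zero (∑ j ∈ range (n + 1), eN (π^[j] y) g), ← h7,
        ← sum_range_add (fun j => eN (π^[j] y) g), add_comm (n + 1), sum_range_add]
      refine congrArg _ (sum_congr rfl fun j _ => ?_)
      rw [add_comm, Function.iterate_add_apply, h4]
    rw [dist_eq_norm, h6, add_sub_cancel_right]
    have h7 : ∀ j ∈ range i, ‖eN (π^[j] y) g‖ ≤ ε / (n + 2) := fun j hj => by
      have h8 := h5 j (mem_range.1 hj)
      by_contra h9
      exact h8.1 ⟨(not_le.1 h9).le, h8.2⟩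
    refine (norm_sum_le_of_le _ h7).trans_lt ?_
    have h8 : (i : ℝ) ≤ n + 1 := by exact_mod_cast hi
    rw [sum_const, card_range, nsmul_eq_mul, ← mul_div_assoc, div_lt_iff₀ (by positivity)]
    nlinarith only [hε, h8]
  refine ⟨toC0 (fun k => eK (σ k) - eK (π (σ k))) 2 (fun k f => ?_) fun f => ?_,
    toL (fun y : L => ∑ j ∈ range (n + 1), eN (π^[j] y)) (n + 1 : ℕ) (by positivity) (fun y g => ?_)
      (fun g => ?_) fun g => ?_, fun f => ?_⟩
  · linarith [norm_sub_le (eK (σ k) f) (eK (π (σ k)) f), eK1 (σ k) f, eK1 (π (σ k)) f,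
      congrArg norm (_root_.sub_apply (eK (σ k)) (eK (π (σ k))) f)]
  · refine NormedAddGroup.tendsto_nhds_zero.2 fun ε hε => ?_
    rw [← Nat.cofinite_eq_atTop, eventually_cofinite]
    refine (((h1 f ε hε).preimage OnePoint.coe_injective.injOn).image ι).subset fun k hk => ?_
    have h3 : ε ≤ ‖eK (σ k) f - eK (π (σ k)) f‖ := not_lt.1 hk
    cases h4 : σ k using OnePoint.rec with
    | infty => rw [h4, hπ, sub_self, norm_zero] at h3; exact absurd h3 (not_le.2 hε)
    | coe y => exact ⟨y, by rwa [h4] at h3, (σ2 k y h4).symm⟩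
  · rw [_root_.sum_apply]
    refine (norm_sum_le_of_le _ fun j _ => eN1 _ g).trans ?_
    simp
  · simp only [_root_.sum_apply]
    exact (h2 g).comp continuous_coe
  · simp only [_root_.sum_apply]
    have h3 := ((h2 g).tendsto ∞).comp tendsto_coe_infty
    rw [coclosedCompact_eq_cocompact, sum_eq_zero fun j _ => by
      rw [Function.iterate_fixed hπ]; rfl] at h3
    exact h3
  · ext y
    change (∑ j ∈ range (n + 1), eN (π^[j] y)) _ = _
    rw [_root_.sum_apply, sum_congr rfl (g := fun j => eK (π^[j] y) f - eK (π^[j + 1] y) f),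
      sum_range_sub' (fun j => eK (π^[j] y) f), htop]
    · exact sub_zero _
    · intro j _
      rw [Function.iterate_succ_apply']
      induction π^[j] y using OnePoint.rec with
      | infty => exact (by rw [hπ, sub_self] : eK ∞ f - eK (π ∞) f = 0).symm
      | coe v =>
        change eK (σ (ι v)) f - eK (π (σ (ι v))) f = _
        rw [σ1]

theorem iso_of_height [Nonempty L] [Countable L] {n : ℕ}
    (hn : derivedSet^[n] (Set.univ : Set L) = ∅) {J : C₀(ℕ, X) →L[ℂ] X} {R : X →L[ℂ] C₀(ℕ, X)}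
    (h : ∀ x, R (J x) = x) : Nonempty (C₀(L, X) ≃L[ℂ] X) := by
  obtain ⟨u⟩ := absorb h
  let a := u.trans c0shift.symm
  obtain ⟨J1, R1, h1⟩ := compl_in (L := L) (X := X)
  obtain ⟨J2, R2, h2⟩ := compl_c0 (X := X) hn
  obtain ⟨v⟩ := pel h1 a (a.trans (ContinuousLinearEquiv.equivOfRightInverse R2 J2 h2))
  exact ⟨v.symm⟩

theorem Model.iso_iff {A Ω : Type} [NormedCommRing A] [NormedAlgebra ℂ A] [TopologicalSpace Ω]
    [CompactSpace Ω] [T2Space Ω] [SecondCountableTopology A] (D : Model A Ω) (x : Ω)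
    {J : C₀(ℕ, A) →L[ℂ] A} {R : A →L[ℂ] C₀(ℕ, A)} (h : ∀ x, R (J x) = x) (L : Type*)
    [TopologicalSpace L] [T2Space L] [LocallyCompactSpace L] [Nonempty L] :
    Nonempty (C₀(L, A) ≃L[ℂ] A) ↔ Countable L ∧ ∃ n, derivedSet^[n] (Set.univ : Set L) = ∅ := by
  refine ⟨fun ⟨e⟩ => ?_, fun ⟨_, n, hn⟩ => iso_of_height hn h⟩
  obtain ⟨n, hn⟩ := D.height (fn0 L A) e.toContinuousLinearMap e.symm.toContinuousLinearMap
    e.symm_apply_apply
  have := e.toHomeomorph.isEmbedding.secondCountableTopology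
  exact ⟨(fn0 L A).countable ((D.z_norm x).ge.trans (D.b_le _ x)) hn, n, hn⟩

variable {A : Type} [CommRing A] [Algebra ℂ A]

theorem shift_lin (e : A →ₗ[ℂ] ℂ) (z : A) (h1 : ∀ f, ∃ g, f = e f • (1 : A) + z * g)
    (h2 : ∀ g g', z * g = z * g' → g = g') :
    ∃ sh : A →ₗ[ℂ] A, ∀ f, f = e f • (1 : A) + z * sh f := by
  choose s hs using h1
  refine ⟨{ toFun := s, map_add' := fun f g => h2 _ _ ?_, map_smul' := fun c f => h2 _ _ ?_ }, hs⟩
  · have a1 := hs (f + g)
    rw [map_add, add_smul] at a1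
    linear_combination hs f + hs g - a1
  · have a1 := hs (c • f)
    have a2 := congrArg (c • ·) (hs f)
    simp only [smul_add, ← mul_smul_comm, smul_smul] at a2
    rw [_root_.map_smul, smul_eq_mul] at a1
    rw [RingHom.id_apply]
    linear_combination a2 - a1

instance : Fact (0 < 2 * Real.pi) := ⟨by positivity⟩

/-- the circle -/
abbrev Cir : Type := AddCircle (2 * Real.pi)

theorem f_norm (x : Cir) : ‖fourier 1 x‖ = 1 := by
  rw [fourier_one]
  exact Circle.norm_coe _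

theorem f_coe (θ : ℝ) : fourier 1 (θ : Cir) = circleMap 0 1 θ := by
  rw [fourier_coe_apply, circleMap]
  have : (Real.pi : ℂ) ≠ 0 := Complex.ofReal_ne_zero.2 Real.pi_ne_zero
  push_cast
  rw [zero_add, one_mul]
  congr 1
  field_simp

theorem trig (bT : A →ₐ[ℂ] C(Cir, ℂ)) (ZZ : A) (bT_ZZ : ∀ x, bT ZZ x = fourier 1 x)
    (φ : C(Cir, ℂ)) {ε : ℝ} (hε : 0 < ε) : ∃ ψ : C(Cir, ℂ), (∀ x, ‖ψ x - φ x‖ ≤ ε) ∧
    (∃ N p, ∀ x, bT ZZ x ^ N * ψ x = bT p x) ∧
      ∃ g h, ∀ x, ψ x = bT g x + starRingEnd ℂ (bT h x) := by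
  have h1 : φ ∈ closure (Submodule.span ℂ (Set.range (@fourier (2 * Real.pi))) : Set _) := by
    rw [← Submodule.topologicalClosure_coe, span_fourier_closure_eq_top]
    trivial
  obtain ⟨ψ, hψ, hd⟩ := Metric.mem_closure_iff.1 h1 ε hε
  refine ⟨ψ, fun x => ?_, ?_⟩
  · rw [← dist_eq_norm, dist_comm]
    exact (ContinuousMap.dist_apply_le_dist x).trans hd.le
  clear hd
  have hp : ∀ (k : ℕ) (x : Cir), bT ZZ x ^ k = fourier k x := fun k x => by
    induction k with
    | zero => simp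
    | succ k ih => rw [pow_succ, ih, bT_ZZ, Nat.cast_succ, fourier_add]
  induction hψ using Submodule.span_induction with
  | mem _ h =>
    obtain ⟨k, rfl⟩ := h
    obtain ⟨k, rfl | rfl⟩ := k.eq_nat_or_neg
    · exact ⟨⟨0, ZZ ^ k, fun x => by rw [map_pow, ContinuousMap.pow_apply, hp k, pow_zero, one_mul]⟩,
        ZZ ^ k, 0, fun x => by
          rw [map_pow, ContinuousMap.pow_apply, hp k, map_zero, ContinuousMap.zero_apply, map_zero,
            add_zero]⟩
    · exact ⟨⟨k, 1, fun x => by rw [hp k, ← fourier_add, add_neg_cancel, fourier_zero, map_one]; rfl⟩,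
        0, ZZ ^ k, fun x => by
          rw [map_pow, ContinuousMap.pow_apply, hp k, map_zero, ContinuousMap.zero_apply, zero_add,
            fourier_neg]⟩
  | zero => exact ⟨⟨0, 0, fun x => by rw [map_zero]; simp⟩, 0, 0, fun x => by rw [map_zero]; simp⟩
  | add _ _ _ _ h1 h2 =>
    obtain ⟨⟨N, p, a1⟩, g, h, a2⟩ := h1
    obtain ⟨⟨N', p', b1⟩, g', h', b2⟩ := h2
    refine ⟨⟨N + N', ZZ ^ N' * p + ZZ ^ N * p', fun x => ?_⟩, g + g', h + h', fun x => ?_⟩
    · simp only [map_add, map_mul, map_pow, ContinuousMap.add_apply, ContinuousMap.mul_apply,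
        ContinuousMap.pow_apply, ← a1, ← b1]
      ring
    · simp only [map_add, ContinuousMap.add_apply, a2, b2]
      ring
  | smul c _ _ h1 =>
    obtain ⟨⟨N, p, a1⟩, g, h, a2⟩ := h1
    refine ⟨⟨N, c • p, fun x => ?_⟩, c • g, starRingEnd ℂ c • h, fun x => ?_⟩
    · simp only [_root_.map_smul, ContinuousMap.smul_apply, smul_eq_mul, ← a1]
      ring
    · simp only [_root_.map_smul, ContinuousMap.smul_apply, smul_eq_mul, a2, map_mul, Complex.conj_conj]
      ring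

end

/-! The concrete model of the disc algebra. -/

noncomputable section

open Filter Topology Finset ZeroAtInfty


/-- boundary values -/
def bT : DA →ₐ[ℂ] C(Cir, ℂ) :=
  AlgHom.ofLinearMap
    { toFun := fun f => ⟨fun x => E (fourier 1 x) f,
        E_cont2 (map_continuous _) (fun x => (f_norm x).le) continuous_const⟩
      map_add' := fun f g => ContinuousMap.ext fun x => map_add (E (fourier 1 x)) f g
      map_smul' := fun c f => ContinuousMap.ext fun x => map_smul (E (fourier 1 x)) c f }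
    (ContinuousMap.ext fun x => E_one (f_norm x).le)
    fun f g => ContinuousMap.ext fun _ => E_mul _ f g

theorem bT_apply (f : DA) (x : Cir) : bT f x = E (fourier 1 x) f := rfl

theorem bT_norm (f : DA) (c : ℝ) (h : ∀ x, ‖bT f x‖ ≤ c) : ‖f‖ ≤ c := norm_le_T fun z hz => by
  obtain ⟨θ, rfl⟩ : z ∈ Set.range (circleMap 0 1) := by simpa [range_circleMap] using hz
  rw [← f_coe]
  exact h _

/-- the coordinate function -/
def ZZ : DA := mk id continuousOn_id differentiableOn_id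

theorem E_ZZ {z : ℂ} (h : ‖z‖ ≤ 1) : E z ZZ = z := E_mk _ _ _ h

theorem bT_ZZ (x : Cir) : bT ZZ x = fourier 1 x := E_ZZ (f_norm x).le

theorem exists_shift : ∃ sh : DA →ₗ[ℂ] DA, ∀ f, f = E 0 f • (1 : DA) + ZZ * sh f := by
  refine shift_lin (E 0).toLinearMap ZZ (fun f => ?_) fun g g' h => ?_
  · have h0 : Metric.ball (0 : ℂ) 1 ∈ 𝓝 0 := Metric.ball_mem_nhds _ one_pos
    refine ⟨mk (dslope (fun z => E z f) 0)
      ((continuousOn_dslope (Metric.closedBall_mem_nhds _ one_pos)).2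
        ⟨E_cont f, (E_diff f).differentiableAt h0⟩)
      ((Complex.differentiableOn_dslope h0).2 (E_diff f)), DA_ext fun z hz => ?_⟩
    change E z f = E z (E 0 f • (1 : DA) + _)
    rw [map_add, map_smul, E_one hz, E_mul, E_ZZ hz, E_mk _ _ _ hz]
    have := sub_smul_dslope (fun z => E z f) 0 z
    simp only [sub_zero, smul_eq_mul] at this
    rw [this, smul_eq_mul]
    ring
  · rw [← sub_eq_zero, ← norm_le_zero_iff]
    refine norm_le_T fun z hz => ?_
    have h3 := congrArg (E z) h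
    rw [E_mul, E_mul, E_ZZ hz.le] at h3
    rw [map_sub, mul_left_cancel₀ (by rintro rfl; simp at hz) h3, sub_self, norm_zero]

theorem model : Nonempty (Model DA Cir) := by
  obtain ⟨sh, hsh⟩ := exists_shift
  have hi : ∀ w : C(Cir, ℝ), IntervalIntegrable (fun θ : ℝ => w θ) MeasureTheory.volume 0
      (2 * Real.pi) := fun w => (w.continuous.comp (AddCircle.continuous_mk' _)).intervalIntegrable _ _
  refine ⟨{
    b := bT
    b_le := fun f x => E_le _ f
    norm_le := bT_norm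
    m :=
      { toFun := fun w => (2 * Real.pi)⁻¹ * ∫ θ in (0 : ℝ)..2 * Real.pi, w θ
        map_add' := fun v w => by
          rw [← mul_add, ← intervalIntegral.integral_add (hi v) (hi w)]; rfl
        map_smul' := fun c w => by
          simp only [ContinuousMap.smul_apply, smul_eq_mul, intervalIntegral.integral_const_mul,
            RingHom.id_apply]
          ring }
    m_pos := fun w hw => mul_nonneg (by positivity)
      (intervalIntegral.integral_nonneg (by positivity) fun θ _ => hw θ)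
    m_one := by
      change (2 * Real.pi)⁻¹ * ∫ θ in (0 : ℝ)..2 * Real.pi, (1 : ℝ) = 1
      rw [intervalIntegral.integral_const, sub_zero, smul_eq_mul, mul_one,
        inv_mul_cancel₀ (by positivity)]
    e := AlgHom.ofLinearMap (E 0).toLinearMap (E_one (by simp)) (E_mul 0)
    z := ZZ
    z_norm := fun x => by rw [bT_ZZ, f_norm]
    e_z := E_ZZ (by simp)
    sh := sh
    dec := hsh
    mvp := fun f w hw => ?_
    exp := fun f => ⟨mk (fun z => Complex.exp (E z f)) (E_cont f).cexp (E_diff f).cexp,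
      fun x => E_mk _ _ _ (f_norm x).le, E_mk _ _ _ (by simp)⟩
    den1 := fun w ε hε => ?_
    den2 := fun φ ε hε => ?_ }⟩
  · have h1 := circleAverage_of_differentiable_on_off_countable (f := fun z => E z f) (c := 0)
      (R := 1) Set.countable_empty (by rw [abs_one]; exact E_cont f) fun z hz =>
        (E_diff f).differentiableAt (Metric.isOpen_ball.mem_nhds (by simpa only [Metric.mem_ball, dist_zero_right, abs_one, Set.sdiff_empty] using hz))
    change (2 * Real.pi)⁻¹ * ∫ θ in (0 : ℝ)..2 * Real.pi, w θ = (E 0 f).re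
    rw [← h1, Real.circleAverage_def, Complex.smul_re, smul_eq_mul]
    simp only [hw, ← f_coe, ← bT_apply]
    congr 1
    exact Complex.reCLM.intervalIntegral_comp_comm
      (((bT f).continuous.comp (AddCircle.continuous_mk' _)).intervalIntegrable _ _)
  · obtain ⟨ψ, h1, -, g, h, h2⟩ := trig bT ZZ bT_ZZ ⟨fun x => (w x : ℂ), by fun_prop⟩ hε
    refine ⟨g + h, fun x => ?_⟩
    have h3 := (Complex.abs_re_le_norm _).trans (h1 x)
    rw [h2] at h3
    rw [map_add]
    simpa only [ContinuousMap.add_apply, Complex.add_re, ge_iff_le, ContinuousMap.coe_mk, Complex.sub_re, Complex.conj_re, Complex.ofReal_re] using h3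
  · obtain ⟨ψ, h1, ⟨N, p, h2⟩, -⟩ := trig bT ZZ bT_ZZ φ hε
    refine ⟨N, p, fun x => ?_⟩
    rw [← h2, ← mul_sub, norm_mul, norm_pow, bT_ZZ, f_norm, one_pow, one_mul, norm_sub_rev]
    exact h1 x

instance : SecondCountableTopology DA :=
  ((ContinuousMap.isometryEquivBoundedOfCompact K ℂ).symm.toHomeomorph.isEmbedding.comp
    Topology.IsEmbedding.subtypeVal).secondCountableTopology

theorem main (L : Type*) [TopologicalSpace L] [T2Space L] [LocallyCompactSpace L] [Nonempty L] :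
    Nonempty (C₀(L, DA) ≃L[ℂ] DA) ↔
      Countable L ∧ ∃ n, derivedSet^[n] (Set.univ : Set L) = ∅ := by
  obtain ⟨D⟩ := model
  obtain ⟨J, R, h⟩ := sum_compl
  exact D.iso_iff 0 h L

end

end Pool.Agent.MP_eed7cf_an.H71

end

-- part MP_eed7cf_an.H42.It
section

/-!
Transfinite iteration of set operations, and iterated derived sets.
-/

set_option autoImplicit false

namespace Pool.Agent.MP_eed7cf_an.H42

open Filter Topology Set

noncomputable section

section It

variable {X : Type*}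

/-- transfinite iteration of a set operation -/
def it (d : Set X → Set X) (S : Set X) (γ : Ordinal.{0}) : Set X :=
  S ∩ ⋂ ξ : Set.Iio γ, d (it d S ξ)
termination_by γ
decreasing_by exact ξ.2

variable {d : Set X → Set X} {S S' O : Set X} {γ γ' : Ordinal.{0}} {x : X}

theorem mem_it : x ∈ it d S γ ↔ x ∈ S ∧ ∀ ξ < γ, x ∈ d (it d S ξ) := by
  rw [it]; simp only [iInter_coe_set, mem_Iio, mem_inter_iff, mem_iInter]

theorem it_sub : it d S γ ⊆ S := fun _ h => (mem_it.1 h).1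

theorem it_zero : it d S 0 = S := by ext; simp [mem_it]

theorem it_anti (h : γ ≤ γ') : it d S γ' ⊆ it d S γ := fun _ hx =>
  mem_it.2 ⟨(mem_it.1 hx).1, fun ξ hξ => (mem_it.1 hx).2 ξ (hξ.trans_le h)⟩

theorem it_loc (hd : Monotone d) (hO : ∀ A, d A ∩ O ⊆ d (A ∩ O)) (h : S ∩ O ⊆ S')
    (γ : Ordinal.{0}) : it d S γ ∩ O ⊆ it d S' γ := by
  induction γ using WellFoundedLT.induction with
  | ind γ ih =>
    exact fun x hx => mem_it.2 ⟨h ⟨it_sub hx.1, hx.2⟩, fun ξ hξ =>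
      hd (ih ξ hξ) (hO _ ⟨(mem_it.1 hx.1).2 ξ hξ, hx.2⟩)⟩

theorem it_mono (hd : Monotone d) (h : S ⊆ S') : it d S γ ⊆ it d S' γ := by
  simpa using it_loc (O := univ) hd (by simp) (by simpa using h) γ

theorem it_add (γ γ' : Ordinal.{0}) : it d S (γ + γ') = it d (it d S γ) γ' := by
  induction γ' using WellFoundedLT.induction with
  | ind γ' ih =>
    ext x
    refine ⟨fun h => mem_it.2 ⟨it_anti le_self_add h, fun ξ hξ => ?_⟩,
      fun h => mem_it.2 ⟨it_sub (it_sub h), fun ζ hζ => ?_⟩⟩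
    · rw [← ih ξ hξ]
      exact (mem_it.1 h).2 _ ((add_lt_add_iff_left γ).2 hξ)
    · rcases lt_or_ge ζ γ with h1 | h1
      · exact (mem_it.1 (it_sub h)).2 ζ h1
      · obtain ⟨ξ, rfl⟩ := exists_add_of_le h1
        have h2 := (add_lt_add_iff_left γ).1 hζ
        rw [ih ξ h2]
        exact (mem_it.1 h).2 ξ h2

theorem it_empty (h : it d S γ = ∅) (h' : γ ≤ γ') : it d S γ' = ∅ :=
  eq_empty_of_subset_empty (h ▸ it_anti h')

theorem exists_rank (hx : x ∈ S) (h : x ∉ it d S γ) :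
    ∃ ξ < γ, x ∈ it d S ξ ∧ x ∉ d (it d S ξ) := by
  have h1 : ∃ ξ, ξ < γ ∧ x ∉ d (it d S ξ) := by
    by_contra hc
    push Not at hc
    exact h (mem_it.2 ⟨hx, hc⟩)
  obtain ⟨ξ, h2, h3⟩ := (wellFounded_lt (α := Ordinal.{0})).has_min _ h1
  refine ⟨ξ, h2.1, mem_it.2 ⟨hx, fun ζ hζ => ?_⟩, h2.2⟩
  by_contra hc
  exact h3 ζ ⟨hζ.trans h2.1, hc⟩ hζ

end It

variable {X : Type*} [TopologicalSpace X] {F G : Set X} {γ : Ordinal.{0}}

/-- iterated derived sets -/
abbrev cb (F : Set X) (γ : Ordinal.{0}) : Set X := it derivedSet F γ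

theorem der_mono : Monotone (derivedSet : Set X → Set X) := fun A B h => derivedSet_mono A B h

theorem cb_closed [T1Space X] (h : IsClosed F) : IsClosed (cb F γ) := by
  rw [cb, it]
  exact h.inter (isClosed_iInter fun _ => isClosed_derivedSet _)

theorem cb_union (hF : IsClosed F) (hG : IsClosed G) (γ : Ordinal.{0}) :
    cb (F ∪ G) γ ⊆ cb F γ ∪ cb G γ := by
  induction γ using WellFoundedLT.induction with
  | ind γ ih =>
    intro x hx
    have h1 : ∀ ξ < γ, x ∈ derivedSet (cb F ξ) ∨ x ∈ derivedSet (cb G ξ) := fun ξ hξ => by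
      have := der_mono (ih ξ hξ) ((mem_it.1 hx).2 ξ hξ)
      rwa [derivedSet_union] at this
    have h2 : ∀ {F : Set X}, IsClosed F → ∀ ξ, x ∈ derivedSet (cb F ξ) → x ∈ F := fun h ξ h' =>
      (isClosed_iff_derivedSet_subset _).1 h (der_mono it_sub h')
    by_contra hc
    simp only [mem_union, mem_it, not_or, not_and, not_forall] at hc
    have h3 : ∃ ξ < γ, x ∉ derivedSet (cb F ξ) := by
      by_contra h4
      push Not at h4
      rcases it_sub hx with h5 | h5
      · obtain ⟨ξ, hξ, h6⟩ := hc.1 h5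
        exact h6 (h4 ξ hξ)
      · obtain ⟨ξ, hξ, -⟩ := hc.2 h5
        obtain ⟨ζ, hζ, h6⟩ := hc.1 (h2 hF ξ (h4 ξ hξ))
        exact h6 (h4 ζ hζ)
    obtain ⟨ξ, hξ, h3⟩ := h3
    obtain ⟨ζ, hζ, h4⟩ := hc.2 (h2 hG ξ ((h1 ξ hξ).resolve_left h3))
    rcases h1 _ (max_lt hξ hζ) with h5 | h5
    · exact h3 (der_mono (it_anti (le_max_left _ _)) h5)
    · exact h4 (der_mono (it_anti (le_max_right _ _)) h5)

theorem cb_lim [T2Space X] (hF : IsCompact F) (h : cb F γ = ∅) (hγ : Order.IsSuccLimit γ) :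
    ∃ ξ < γ, cb F ξ = ∅ := by
  by_contra hc
  push Not at hc
  have : Nonempty (Iio γ) := ⟨⟨0, hγ.bot_lt⟩⟩
  obtain ⟨x, hx⟩ := IsCompact.nonempty_iInter_of_directed_nonempty_isCompact_isClosed
    (fun ξ : Iio γ => cb F ξ) (fun a b => ⟨max a b, it_anti (le_max_left a b), it_anti (le_max_right a b)⟩)
    (fun ξ => hc ξ ξ.2) (fun ξ => hF.of_isClosed_subset (cb_closed hF.isClosed) it_sub)
    fun ξ => cb_closed hF.isClosed
  rw [mem_iInter] at hx
  refine (eq_empty_iff_forall_notMem.1 h) x (mem_it.2 ⟨it_sub (hx ⟨0, hγ.bot_lt⟩), fun ξ hξ => ?_⟩)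
  exact (mem_it.1 (hx ⟨_, hγ.succ_lt hξ⟩)).2 ξ (Order.lt_succ ξ)

theorem cb_one (hF : IsCompact F) (h : cb F 1 = ∅) : F.Finite := by
  by_contra hc
  obtain ⟨x, h1, h2⟩ := Set.Infinite.exists_accPt_of_subset_isCompact hc hF Subset.rfl
  refine (eq_empty_iff_forall_notMem.1 h) x (mem_it.2 ⟨h1, fun ξ hξ => ?_⟩)
  rw [Order.lt_one_iff.1 hξ, it_zero]
  exact h2

theorem eq_cb (D : Ordinal.{0} → Set X) (h0 : D 0 = univ)
    (h1 : ∀ ξ, D (Order.succ ξ) = derivedSet (D ξ))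
    (h2 : ∀ ξ, Order.IsSuccLimit ξ → D ξ = ⋂ ζ < ξ, D ζ) (γ : Ordinal.{0}) :
    D γ = cb univ γ := by
  induction γ using Ordinal.limitRecOn with
  | zero => rw [h0, cb, it_zero]
  | add_one ξ ih =>
    rw [← Order.succ_eq_add_one, h1, ih]
    ext x
    refine ⟨fun h => mem_it.2 ⟨trivial, fun ζ hζ => der_mono (it_anti (Order.lt_succ_iff.1 hζ)) h⟩,
      fun h => (mem_it.1 h).2 ξ (Order.lt_succ ξ)⟩
  | limit ξ hξ ih =>
    rw [h2 ξ hξ]
    ext x
    simp only [mem_iInter]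
    refine ⟨fun h => mem_it.2 ⟨trivial, fun ζ hζ => ?_⟩, fun h ζ hζ => ?_⟩
    · have h3 := h _ (hξ.succ_lt hζ)
      rw [ih _ (hξ.succ_lt hζ)] at h3
      exact (mem_it.1 h3).2 ζ (Order.lt_succ ζ)
    · rw [ih ζ hζ]
      exact it_anti hζ.le h

theorem cb_open {Y : Type*} [TopologicalSpace Y] {j : X → Y} (hj : IsOpenMap j)
    (γ : Ordinal.{0}) : ∀ x, j x ∈ cb univ γ → x ∈ cb univ γ := by
  induction γ using WellFoundedLT.induction with
  | ind γ ih =>
    refine fun x hx => mem_it.2 ⟨trivial, fun ξ hξ => accPt_iff_nhds.2 fun U hU => ?_⟩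
    obtain ⟨_, ⟨⟨y, h1, rfl⟩, h2⟩, h3⟩ :=
      accPt_iff_nhds.1 ((mem_it.1 hx).2 ξ hξ) _ (hj.image_mem_nhds hU)
    exact ⟨y, ⟨h1, ih ξ hξ y h2⟩, fun h => h3 (congrArg j h)⟩

theorem cb_onePoint [T2Space X] [LocallyCompactSpace X] (h : cb (univ : Set X) γ = ∅) :
    cb (univ : Set (OnePoint X)) (γ + 1) = ∅ := by
  refine eq_empty_of_forall_notMem fun x hx => ?_
  have h1 : cb (univ : Set (OnePoint X)) γ ⊆ {OnePoint.infty} := fun y hy => by
    induction y using OnePoint.rec with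
    | infty => rfl
    | coe y => exact absurd (cb_open OnePoint.isOpenMap_coe γ y hy) (by simp [h])
  have h2 := der_mono h1 ((mem_it.1 hx).2 γ (lt_add_one γ))
  exact (Set.Infinite.of_accPt h2) (finite_singleton _)

theorem scattered [T2Space X] [LocallyCompactSpace X] [Countable X] :
    ∃ γ, cb (univ : Set X) γ = ∅ := by
  have h1 : ∀ y : X, ∃ ρ, y ∈ cb univ ρ → ∀ ξ, y ∈ cb univ ξ := fun y => by
    by_cases h : ∀ ξ, y ∈ cb (univ : Set X) ξ
    · exact ⟨0, fun _ => h⟩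
    · push Not at h
      obtain ⟨ξ, h⟩ := h
      exact ⟨ξ, fun h' => absurd h' h⟩
  choose ρ hρ using h1
  refine ⟨iSup ρ, ?_⟩
  by_contra hc
  have h2 : Nonempty (cb (univ : Set X) (iSup ρ)) := (nonempty_iff_ne_empty.2 hc).to_subtype
  have h3 : LocallyCompactSpace (cb (univ : Set X) (iSup ρ)) :=
    (cb_closed isClosed_univ).locallyCompactSpace
  obtain ⟨p, q, hq⟩ := nonempty_interior_of_iUnion_of_closed
    (f := fun p : cb (univ : Set X) (iSup ρ) => ({p} : Set _)) (fun _ => isClosed_singleton)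
    (by ext; simp only [iUnion_coe_set, mem_iUnion, mem_singleton_iff, exists_eq_subtype_mk_iff, exists_eq', mem_univ])
  obtain rfl : q = p := mem_singleton_iff.1 (interior_subset hq)
  obtain ⟨U, hU, h4⟩ := (mem_nhds_subtype _ _ _).1 (mem_interior_iff_mem_nhds.1 hq)
  have h5 := hρ q (it_anti (Ordinal.le_iSup ρ q) q.2) (iSup ρ + 1)
  obtain ⟨y, ⟨h6, h7⟩, h8⟩ := accPt_iff_nhds.1 ((mem_it.1 h5).2 _ (lt_add_one _)) U hU
  exact h8 (congrArg Subtype.val (h4 (show (⟨y, h7⟩ : cb (univ : Set X) (iSup ρ)) ∈ _ from h6)))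

theorem countable_of [SecondCountableTopology X] (h : cb (univ : Set X) γ = ∅) : Countable X := by
  have h1 : ∀ y : X, ∃ (ρ : Ordinal.{0}) (U : TopologicalSpace.countableBasis X),
      y ∈ cb univ ρ ∧ y ∈ U.1 ∧ ∀ y' ∈ U.1, y' ∈ cb univ ρ → y' = y := fun y => by
    obtain ⟨ρ, -, h1, h2⟩ := exists_rank (d := derivedSet) (γ := γ) (mem_univ y) (by simp [h])
    rw [mem_derivedSet, accPt_iff_nhds] at h2
    push Not at h2
    obtain ⟨V, hV, h2⟩ := h2
    obtain ⟨U, h3, h4, h5⟩ := (TopologicalSpace.isBasis_countableBasis X).mem_nhds_iff.1 hV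
    exact ⟨ρ, ⟨U, h3⟩, h1, h4, fun y' h6 h7 => h2 y' ⟨h5 h6, h7⟩⟩
  choose ρ U h1 h2 h3 using h1
  have := (TopologicalSpace.countable_countableBasis X).to_subtype
  refine Function.Injective.countable (f := U) fun y y' h4 => ?_
  rcases le_total (ρ y) (ρ y') with h5 | h5
  · exact (h3 y y' (h4 ▸ h2 y') (it_anti h5 (h1 y'))).symm
  · exact h3 y' y (h4 ▸ h2 y) (it_anti h5 (h1 y))

end

end Pool.Agent.MP_eed7cf_an.H42

end

-- part MP_eed7cf_an.H42.Kill
section

/-!
A derivation on summing operators defined on a space of vector-valued functions, and its index.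
-/

set_option autoImplicit false

namespace Pool.Agent.MP_eed7cf_an.H42

open Filter Topology Finset H71
open Ordinal hiding univ card_univ nsmul_eq_mul sub_sub

noncomputable section

variable {A Ω V : Type} [NormedCommRing A] [NormedAlgebra ℂ A] [TopologicalSpace Ω]
  [CompactSpace Ω] (D : Model A Ω) [NormedAddCommGroup V] [NormedSpace ℂ V]
  {L : Type*} [TopologicalSpace L] [CompactSpace L]

theorem nB_le {g : C(L, A)} {c : ℝ} (c0 : 0 ≤ c) (h : ∀ l x, ‖D.b (g l) x‖ ≤ c) : ‖g‖ ≤ c :=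
  (ContinuousMap.norm_le _ c0).2 fun l => D.norm_le _ _ (h l)

theorem bB_le (g : C(L, A)) (l : L) (x : Ω) : ‖D.b (g l) x‖ ≤ ‖g‖ :=
  (D.b_le _ x).trans (g.norm_coe_le_norm l)

/-- multiplication by a real function -/
def cut (χ : C(L, ℝ)) (g : C(L, A)) : C(L, A) := ⟨fun l => (χ l : ℂ) • g l, by fun_prop⟩

omit [CompactSpace L] in
theorem cut_apply (χ : C(L, ℝ)) (g : C(L, A)) (l : L) : cut χ g l = (χ l : ℂ) • g l := rfl

omit [CompactSpace L] in
theorem b_cut {χ : C(L, ℝ)} {l : L} (h : 0 ≤ χ l) (g : C(L, A)) (x : Ω) :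
    ‖D.b (cut χ g l) x‖ = χ l * ‖D.b (g l) x‖ := by
  rw [cut_apply, map_smul, ContinuousMap.smul_apply, norm_smul, Complex.norm_real,
    Real.norm_of_nonneg h]

omit [CompactSpace L] in
theorem cut_add (χ : C(L, ℝ)) (g : C(L, A)) : cut χ g + cut (1 - χ) g = g := by
  ext l
  simp [cut_apply, sub_smul]

omit [CompactSpace L] in
theorem exists_ramp (τ : C(L, ℝ)) {θ : ℝ} (h : 0 < θ) : ∃ χ : C(L, ℝ), (∀ l, 0 ≤ χ l) ∧
    (∀ l, 0 ≤ (1 - χ) l) ∧ (∀ l, τ l ≤ θ → χ l = 0) ∧ ∀ l, 2 * θ ≤ τ l → (1 - χ) l = 0 := by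
  refine ⟨⟨fun l => max 0 (min 1 (τ l / θ - 1)), by fun_prop⟩, fun l => le_max_left _ _,
    fun l => sub_nonneg.2 (max_le zero_le_one (min_le_left _ _)), fun l hl => ?_, fun l hl => ?_⟩
  · exact max_eq_left ((min_le_right _ _).trans (sub_nonpos.2 ((div_le_one h).2 hl)))
  · have : 1 ≤ τ l / θ - 1 := by rw [le_sub_iff_add_le, le_div_iff₀ h]; linarith
    simp [min_eq_left this]

/-- absolutely summing with constant `a` on the functions vanishing on `F` -/
def Sm (F : Set L) (S : C(L, A) →ₗ[ℂ] V) (a : ℝ) : Prop :=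
  ∀ (ι : Type) [Fintype ι] (g : ι → C(L, A)) (r : ℝ), 0 ≤ r → (∀ i, ∀ l ∈ F, g i l = 0) →
    (∀ l x, ∑ i, ‖D.b (g i l) x‖ ≤ r) → ∑ i, ‖S (g i)‖ ≤ a * r

variable {D} {F F' : Set L} {S : C(L, A) →ₗ[ℂ] V} {a a' : ℝ}

omit [CompactSpace L] in
theorem Sm.nonneg (h : Sm D F S a) : 0 ≤ a := by
  simpa only [univ_eq_empty, sum_empty, mul_one] using h Empty (fun i => i.elim) 1 zero_le_one (by simp only [IsEmpty.forall_iff]) (by simp only [univ_eq_empty, sum_empty, zero_le_one, implies_true])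

theorem Sm.le (h : Sm D F S a) {g : C(L, A)} (hg : ∀ l ∈ F, g l = 0) : ‖S g‖ ≤ a * ‖g‖ := by
  simpa only [univ_unique, PUnit.default_eq_unit, sum_const, card_singleton, one_smul] using h Unit (fun _ => g) ‖g‖ (norm_nonneg _) (fun _ => hg) (by simpa only [univ_unique, PUnit.default_eq_unit, sum_const, card_singleton, one_smul] using bB_le D g)

omit [CompactSpace L] in
theorem Sm.mono (h : Sm D F S a) (hF : F ⊆ F') (ha : a ≤ a') : Sm D F' S a' :=
  fun ι _ g r r0 h1 h2 =>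
    (h ι g r r0 (fun i l hl => h1 i l (hF hl)) h2).trans (mul_le_mul_of_nonneg_right ha r0)

/-- the derivation: limits after a loss of mass or an escape of mass -/
def der (c : ℝ) (P : Set ((C(L, A) →ₗ[ℂ] V) × ℝ)) : Set ((C(L, A) →ₗ[ℂ] V) × ℝ) :=
  {p | ∀ (s : Finset C(L, A)) (F : Finset L) (ε : ℝ), 0 < ε → ∃ q ∈ P, ∃ ψ : C(L, A), ‖ψ‖ ≤ 1 ∧
    (∀ g ∈ s, ‖q.1 (ψ * g) - p.1 g‖ ≤ ε) ∧
      (p.2 ≤ q.2 - c + ε ∨ ∃ u, ‖u‖ ≤ 1 ∧ (∀ l ∈ F, u l = 0) ∧ 1 / 4 ≤ ‖q.1 u‖)}

theorem der_mono' (c : ℝ) : Monotone (der c : Set ((C(L, A) →ₗ[ℂ] V) × ℝ) → _) :=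
  fun _ _ h _ hp s F ε hε => by
    obtain ⟨q, h1, h2⟩ := hp s F ε hε
    exact ⟨q, h h1, h2⟩

variable (D V)

/-- small mass outside `F` -/
def Q (a0 : ℝ) (F : Set L) (η : ℝ) : Set ((C(L, A) →ₗ[ℂ] V) × ℝ) :=
  {p | 0 ≤ p.2 ∧ p.2 ≤ a0 ∧ Sm D ∅ p.1 a0 ∧ Sm D F p.1 η}

variable (L)

/-- height `γ` gives index below `ρ * ω` -/
def Kill (c a0 : ℝ) (γ ρ : Ordinal.{0}) : Prop :=
  ∀ η < 1 / 4, ∃ N : ℕ, ∀ F : Set L, IsClosed F → cb F γ = ∅ →
    it (der c) (Q V D a0 F η) (ρ * N) = ∅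

variable {D V L} {c a0 : ℝ}

theorem kill_base (hc : 0 < c) : Kill V D L c a0 1 1 := by
  intro η hη
  obtain ⟨N, hN⟩ := exists_nat_gt (a0 / c)
  refine ⟨N, fun F h1 h2 => ?_⟩
  have h3 := cb_one h1.isCompact h2
  have key : ∀ n : ℕ, ∀ p ∈ it (der c) (Q V D a0 F η) n, p.2 ≤ a0 - n * c := by
    intro n
    induction n with
    | zero => intro p hp; simpa using (it_sub hp).2.1
    | succ n ih =>
      intro p hp
      refine le_of_forall_pos_le_add fun ε hε => ?_
      obtain ⟨q, h4, -, -, -, h5 | ⟨u, h5, h6, h7⟩⟩ :=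
        (mem_it.1 hp).2 n (by exact_mod_cast n.lt_succ_self) ∅ h3.toFinset ε hε
      · push_cast
        linarith only [ih q h4, h5]
      · have h8 := (it_sub h4).2.2.2
        have h9 := (h8.le fun l hl => h6 l (h3.mem_toFinset.2 hl)).trans
          (mul_le_of_le_one_right h8.nonneg h5)
        linarith only [hη, h7, h9]
  refine Set.eq_empty_of_forall_notMem fun p hp => ?_
  rw [one_mul] at hp
  rw [div_lt_iff₀ hc] at hN
  linarith only [key N p hp, (it_sub hp).1, hN]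

theorem kill_step [T2Space L] {γ ρ : Ordinal.{0}} {η δ t : ℝ} (hF : IsClosed F)
    (hγ : cb F (γ + γ) = ∅)
    (h : ∀ F : Set L, IsClosed F → cb F γ = ∅ → it (der c) (Q V D a0 F (η + δ)) ρ = ∅) :
    it (der c) (Q V D a0 F η ∩ {p | Sm D (cb F γ) p.1 t}) ρ ⊆
      Q V D a0 F η ∩ {p | Sm D (cb F γ) p.1 (t - δ)} := by
  intro p hp
  refine ⟨(it_sub hp).1, ?_⟩
  by_contra hc
  simp only [Set.mem_ofPred_eq, Sm, not_forall, not_le] at hc
  obtain ⟨ι, _, g, r, r0, g0, g1, g2⟩ := hc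
  have a00 := (it_sub hp).1.2.2.1.nonneg
  obtain ⟨θ, θ0, hθ⟩ : ∃ θ : ℝ, 0 < θ ∧ a0 * (4 * θ) < ∑ i, ‖p.1 (g i)‖ - (t - δ) * r := by
    have h1 := sub_pos.2 g2
    refine ⟨(∑ i, ‖p.1 (g i)‖ - (t - δ) * r) / (4 * a0 + 1), by positivity, ?_⟩
    rw [← mul_assoc, ← mul_div_assoc, div_lt_iff₀ (by positivity)]
    linarith
  let τ : C(L, ℝ) := ⟨fun l => ∑ i, ‖g i l‖, by fun_prop⟩
  have τ0 : ∀ l ∈ cb F γ, τ l = 0 := fun l hl => sum_eq_zero fun i _ => by rw [g0 i l hl, norm_zero]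
  obtain ⟨χ, χ0, χ1, χ2, χ3⟩ := exists_ramp τ θ0
  obtain ⟨κ, κ0, κ1, κ2, κ3⟩ := exists_ramp τ (by positivity : 0 < 2 * θ)
  let O : Set ((C(L, A) →ₗ[ℂ] V) × ℝ) := {q | ∃ g : ι → C(L, A), (∀ i l, τ l ≤ 2 * θ → g i l = 0) ∧
    (∀ l x, ∑ i, ‖D.b (g i l) x‖ ≤ r) ∧ (t - δ) * r < ∑ i, ‖q.1 (g i)‖}
  have h1 : p ∈ O := by
    refine ⟨fun i => cut κ (g i), fun i l hl => by simp [cut_apply, κ2 l hl], fun l x => ?_, ?_⟩
    · simp only [b_cut D (κ0 l), ← mul_sum]
      exact (mul_le_of_le_one_left (sum_nonneg fun _ _ => norm_nonneg _)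
        (sub_nonneg.1 (κ1 l))).trans (g1 l x)
    · have h2 := (it_sub hp).1.2.2.1 ι (fun i => cut (1 - κ) (g i)) (4 * θ) (by positivity)
        (by simp only [Set.mem_empty_iff_false, IsEmpty.forall_iff, implies_true]) fun l x => by
          simp only [b_cut D (κ1 l), ← mul_sum]
          rcases le_total (2 * (2 * θ)) (τ l) with h3 | h3
          · rw [κ3 l h3, zero_mul]; positivity
          · refine (mul_le_of_le_one_left (sum_nonneg fun _ _ => norm_nonneg _)
              (sub_le_self 1 (κ0 l))).trans ((sum_le_sum fun i _ => D.b_le _ x).trans ?_)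
            exact h3.trans_eq (by ring)
      have h3 : ∀ i ∈ univ, ‖p.1 (g i)‖ ≤ ‖p.1 (cut κ (g i))‖ + ‖p.1 (cut (1 - κ) (g i))‖ :=
        fun i _ => by
          conv_lhs => rw [← cut_add κ (g i), map_add]
          exact norm_add_le _ _
      have h4 := sum_le_sum h3
      rw [sum_add_distrib] at h4
      linarith
  have h2 : ∀ P, der c P ∩ O ⊆ der c (P ∩ O) := by
    classical
    rintro P q ⟨hq, g, g0, g1, g2⟩ s F0 ε hε
    obtain ⟨e, e0, e1, e2⟩ : ∃ e : ℝ, 0 < e ∧ e ≤ ε ∧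
        Fintype.card ι * e < ∑ i, ‖q.1 (g i)‖ - (t - δ) * r := by
      have h3 := sub_pos.2 g2
      refine ⟨min ε ((∑ i, ‖q.1 (g i)‖ - (t - δ) * r) / (Fintype.card ι + 1)), by positivity,
        min_le_left _ _, (mul_le_mul_of_nonneg_left (min_le_right _ _) (by positivity)).trans_lt ?_⟩
      rw [← mul_div_assoc, div_lt_iff₀ (by positivity)]
      linarith only [g2]
    obtain ⟨q', h3, ψ, h4, h5, h6⟩ := hq (s ∪ univ.image g) F0 e e0
    refine ⟨q', ⟨h3, fun i => ψ * g i, fun i l hl => by simp [g0 i l hl], fun l x => ?_, ?_⟩, ψ, h4,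
      fun f hf => (h5 f (mem_union_left _ hf)).trans e1, h6.imp_left fun h7 => by linarith only [e1, h7]⟩
    · simp only [ContinuousMap.mul_apply, map_mul, norm_mul, ← mul_sum]
      exact (mul_le_of_le_one_left (sum_nonneg fun _ _ => norm_nonneg _)
        ((bB_le D ψ l x).trans h4)).trans (g1 l x)
    · have h7 : ∀ i ∈ univ, ‖q.1 (g i)‖ ≤ ‖q'.1 (ψ * g i)‖ + e := fun i _ => by
        have h8 := h5 (g i) (mem_union_right _ (mem_image_of_mem g (mem_univ i)))
        linarith only [norm_sub_norm_le (q.1 (g i)) (q'.1 (ψ * g i)), norm_sub_rev (q.1 (g i)) (q'.1 (ψ * g i)), h8]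
      have h8 := sum_le_sum h7
      rw [sum_add_distrib, sum_const, card_univ, nsmul_eq_mul] at h8
      linarith
  have hW : IsClosed (F ∩ {l | θ ≤ τ l}) := hF.inter (isClosed_le continuous_const τ.continuous)
  have h3 : (Q V D a0 F η ∩ {p | Sm D (cb F γ) p.1 t}) ∩ O ⊆
      Q V D a0 (cb F γ ∪ F ∩ {l | θ ≤ τ l}) (η + δ) := by
    rintro q ⟨⟨⟨q1, q2, q3, q4⟩, q5⟩, g, g0, g1, g2⟩
    refine ⟨q1, q2, q3, fun ι' _ f r' r1 f0 f1 => ?_⟩
    have r2 : 0 < r := by
      refine r0.lt_of_ne fun h4 => ?_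
      have h5 := q3 ι g r r0 (by simp only [Set.mem_empty_iff_false, IsEmpty.forall_iff, implies_true]) g1
      rw [← h4] at g2 h5
      linarith only [g2, h5]
    have f2 : ∀ {χ : C(L, ℝ)} (l x), 0 ≤ χ l → χ l ≤ 1 → ∑ i, ‖D.b (cut χ (f i) l) x‖ ≤ r' :=
      fun l x h4 h5 => by
        simp only [b_cut D h4, ← mul_sum]
        exact (mul_le_of_le_one_left (sum_nonneg fun _ _ => norm_nonneg _) h5).trans (f1 l x)
    have h4 := q4 ι' (fun i => cut χ (f i)) r' r1 (fun i l hl => by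
      rcases le_total θ (τ l) with h5 | h5
      · simp [cut_apply, f0 i l (.inr ⟨hl, h5⟩)]
      · simp [cut_apply, χ2 l h5]) fun l x => f2 l x (χ0 l) (sub_nonneg.1 (χ1 l))
    have h5 := q5 (ι ⊕ ι')
      (Sum.elim (fun i => (r' : ℂ) • g i) fun i => (r : ℂ) • cut (1 - χ) (f i)) (r * r')
      (by positivity) (by
        rintro (i | i) l hl
        · simp only [Complex.coe_smul, Sum.elim_inl, ContinuousMap.coe_smul, Pi.smul_apply, g0 i l (by rw [τ0 l hl]; positivity), smul_zero]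
        · simp only [Complex.coe_smul, Sum.elim_inr, ContinuousMap.coe_smul, Pi.smul_apply, cut_apply, ContinuousMap.sub_apply, ContinuousMap.one_apply, Complex.ofReal_sub, Complex.ofReal_one, f0 i l (.inl hl), smul_zero]) fun l x => by
        simp only [Fintype.sum_sum_type, Sum.elim_inl, Sum.elim_inr, ContinuousMap.smul_apply,
          map_smul, norm_smul, Complex.norm_real, Real.norm_of_nonneg r0, Real.norm_of_nonneg r1,
          ← mul_sum]
        rcases le_total (τ l) (2 * θ) with h6 | h6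
        · have := mul_le_mul_of_nonneg_left (f2 l x (χ1 l) (sub_le_self 1 (χ0 l))) r0
          simpa only [g0 _ l h6, map_zero, ContinuousMap.zero_apply, norm_zero, sum_const_zero, mul_zero, zero_add, ge_iff_le] using this
        · have := mul_le_mul_of_nonneg_left (g1 l x) r1
          simpa only [b_cut D (χ1 l), χ3 l h6, zero_mul, sum_const_zero, mul_zero, add_zero, ge_iff_le, mul_comm] using this
    simp only [Fintype.sum_sum_type, Sum.elim_inl, Sum.elim_inr, map_smul, norm_smul,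
      Complex.norm_real, Real.norm_of_nonneg r0, Real.norm_of_nonneg r1, ← mul_sum] at h5
    have h6 : ∑ i, ‖q.1 (cut (1 - χ) (f i))‖ ≤ δ * r' := by
      refine le_of_mul_le_mul_left ?_ r2
      linarith only [mul_le_mul_of_nonneg_left g2.le r1, h5]
    have h7 : ∀ i ∈ univ, ‖q.1 (f i)‖ ≤ ‖q.1 (cut χ (f i))‖ + ‖q.1 (cut (1 - χ) (f i))‖ :=
      fun i _ => by
        conv_lhs => rw [← cut_add χ (f i), map_add]
        exact norm_add_le _ _
    have h8 := sum_le_sum h7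
    rw [sum_add_distrib] at h8
    linarith
  have h4 := it_loc (der_mono' c) h2 h3 ρ ⟨hp, h1⟩
  rw [h _ ((cb_closed hF).union hW)] at h4
  · exact h4
  refine Set.eq_empty_of_forall_notMem fun l hl => ?_
  rcases cb_union (cb_closed hF) hW γ hl with h5 | h5
  · rw [cb, cb, ← it_add] at h5
    exact (hγ ▸ h5 : l ∈ (∅ : Set L))
  · have h6 : θ ≤ τ l := (it_sub h5).2
    rw [τ0 l (it_mono der_mono Set.inter_subset_left h5)] at h6
    linarith only [θ0, h6]

theorem kill_double [T2Space L] {γ ρ : Ordinal.{0}} (h : Kill V D L c a0 γ ρ) :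
    Kill V D L c a0 (γ + γ) ρ := by
  intro η hη
  obtain ⟨δ, δ0, hδ⟩ : ∃ δ : ℝ, 0 < δ ∧ η + δ < 1 / 4 := ⟨(1 / 4 - η) / 2, by linarith, by linarith⟩
  obtain ⟨N, hN⟩ := h _ hδ
  obtain ⟨k, hk⟩ := exists_nat_gt (a0 / δ)
  refine ⟨N * k, fun F hF hγ => ?_⟩
  have key : ∀ j : ℕ, it (der c) (Q V D a0 F η) (ρ * N * j) ⊆
      Q V D a0 F η ∩ {p | Sm D (cb F γ) p.1 (a0 - j * δ)} := by
    intro j
    induction j with
    | zero => exact fun p hp => ⟨it_sub hp, (it_sub hp).2.2.1.mono (Set.empty_subset _) (by simp)⟩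
    | succ j ih =>
      rw [Nat.cast_succ, mul_add, mul_one, it_add, Nat.cast_succ, add_mul, one_mul, ← sub_sub]
      exact (it_mono (der_mono' c) ih).trans (kill_step hF hγ hN)
  refine Set.eq_empty_of_forall_notMem fun p hp => ?_
  rw [natCast_mul, ← mul_assoc] at hp
  rw [div_lt_iff₀ δ0] at hk
  linarith only [Sm.nonneg (key k hp).2, hk]

theorem kill_fin [T2Space L] {α ξ : Ordinal.{0}}
    (h : ∀ β < α, Kill V D L c a0 (ω ^ β) (ω ^ β)) (hα : α ≠ 0) (hξ : ξ < ω ^ α) (hF : IsClosed F)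
    (h0 : cb F ξ = ∅) {η : ℝ} (hη : η < 1 / 4) :
    ∃ ρ < ω ^ α, it (der c) (Q V D a0 F η) ρ = ∅ := by
  obtain ⟨β, hβ, k, hk⟩ := (lt_omega0_opow hα).1 hξ
  have h1 : ∀ k : ℕ, Kill V D L c a0 (ω ^ β * (2 ^ k : ℕ)) (ω ^ β) := fun k => by
    induction k with
    | zero => simpa using h β hβ
    | succ k ih =>
      rw [pow_succ, mul_two, Nat.cast_add, mul_add]
      exact kill_double ih
  obtain ⟨N, hN⟩ := h1 k η hη
  refine ⟨_, opow_mul_lt_opow (natCast_lt_omega0 N) hβ, hN F hF (it_empty h0 (hk.le.trans ?_))⟩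
  exact mul_le_mul_right (Nat.cast_le.2 k.lt_two_pow_self.le) _

theorem kill_all [T2Space L] (hc : 0 < c) (β : Ordinal.{0}) :
    Kill V D L c a0 (ω ^ β) (ω ^ β) := by
  induction β using WellFoundedLT.induction with
  | ind β ih =>
    rcases eq_or_ne β 0 with rfl | h
    · simpa using kill_base hc
    · refine fun η hη => ⟨1, fun F hF h0 => ?_⟩
      obtain ⟨ξ, h1, h2⟩ := cb_lim hF.isCompact h0 (isSuccLimit_opow_left isSuccLimit_omega0 h)
      obtain ⟨ρ, h3, h4⟩ := kill_fin ih h h1 hF h2 hη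
      exact it_empty h4 (by simpa using h3.le)

end

end Pool.Agent.MP_eed7cf_an.H42

end

-- part MP_eed7cf_an.H42.Low
section

/-!
A complemented space of vector-valued functions bounds the height of the base space.
-/

set_option autoImplicit false

namespace Pool.Agent.MP_eed7cf_an.H42

open Filter Topology Finset H71

noncomputable section

variable {A Ω V : Type} [NormedCommRing A] [NormedAlgebra ℂ A] [TopologicalSpace Ω]
  [CompactSpace Ω] (D : Model A Ω) [NormedAddCommGroup V] [NormedSpace ℂ V]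
  {L : Type*} [TopologicalSpace L] [CompactSpace L] [T2Space L] {M : ℕ}

theorem pu {E : Type*} [PseudoMetricSpace E] {u : L → E} (hu : Continuous u) {θ : ℝ} (h : 0 < θ) :
    ∃ (n : ℕ) (φ : Fin n → C(L, ℝ)) (l : Fin n → L), (∀ k y, 0 ≤ φ k y) ∧ (∀ y, ∑ k, φ k y = 1) ∧
      ∀ k y, φ k y ≠ 0 → dist (u y) (u (l k)) < θ := by
  let U : L → Set L := fun y => {x | dist (u x) (u y) < θ}
  have hU : ∀ y, IsOpen (U y) := fun y => isOpen_lt (by fun_prop) continuous_const
  obtain ⟨s, hs⟩ := isCompact_univ.elim_finite_subcover U hU fun x _ =>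
    Set.mem_iUnion.2 ⟨x, by simpa [U] using h⟩
  obtain ⟨φ, h1, h2, h3, -⟩ := exists_continuous_sum_one_of_isOpen_isCompact
    (s := fun i : Fin s.card => U (s.equivFin.symm i)) (fun i => hU _) isCompact_univ fun x hx => by
      obtain ⟨y, hy, hxy⟩ := Set.mem_iUnion₂.1 (hs hx)
      exact Set.mem_iUnion.2 ⟨s.equivFin ⟨y, hy⟩, by simpa using hxy⟩
  exact ⟨s.card, φ, fun i => s.equivFin.symm i, fun k y => (h3 k y).1,
    fun x => by simpa only [Finset.sum_apply, Pi.one_apply] using h2 (Set.mem_univ x), fun k y h0 => h1 k (subset_tsupport _ h0)⟩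

theorem m_const (c : ℝ) : D.m (c • 1) = c := by rw [map_smul, D.m_one, smul_eq_mul, mul_one]

theorem n2_cont : Continuous D.n2 := by
  have h1 : Continuous D.m := AddMonoidHomClass.continuous_of_bound D.m 1 fun w => by
    rw [one_mul, Real.norm_eq_abs, abs_le, ← m_const D (-‖w‖)]
    refine ⟨D.m_le fun x => ?_, (D.m_le fun x => ?_).trans_eq (m_const D ‖w‖)⟩
    · simpa only [neg_smul, ContinuousMap.neg_apply, ContinuousMap.coe_smul, ContinuousMap.coe_one, Pi.smul_apply, Pi.one_apply, smul_eq_mul, mul_one] using (abs_le.1 (w.norm_coe_le_norm x)).1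
    · simpa only [ContinuousMap.coe_smul, ContinuousMap.coe_one, Pi.smul_apply, Pi.one_apply, smul_eq_mul, mul_one] using (abs_le.1 (w.norm_coe_le_norm x)).2
  have h2 : Continuous D.ab := (LipschitzWith.of_dist_le_mul (K := 1) fun f g => by
    refine (ContinuousMap.dist_le (by positivity)).2 fun x => ?_
    have := D.b_le (f - g) x
    rw [map_sub, ContinuousMap.sub_apply] at this
    simpa only [Model.ab_apply, dist_eq_norm, Real.norm_eq_abs, NNReal.coe_one, one_mul, ge_iff_le] using (abs_norm_sub_norm_le _ _).trans this).continuous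
  exact h1.comp (h2.mul h2)

theorem sh_cont : Continuous D.sh := AddMonoidHomClass.continuous_of_bound D.sh 2 fun f =>
  D.norm_le _ _ fun x => by
    have h1 : D.b D.z x * D.b (D.sh f) x = D.b f x - D.e f := by
      conv_rhs => rw [D.dec f]
      simp [D.e_z]
    have h2 : ‖D.e f‖ ^ 2 ≤ ‖f‖ ^ 2 := by
      have h3 : D.n2 f ≤ D.m ((‖f‖ ^ 2) • 1) := D.m_le fun x => by
        simpa only [ContinuousMap.mul_apply, Model.ab_apply, sq, ContinuousMap.coe_smul, ContinuousMap.coe_one, Pi.smul_apply, Pi.one_apply, smul_eq_mul, mul_one] using mul_self_le_mul_self (norm_nonneg _) (D.b_le f x)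
      rw [m_const] at h3
      linarith [D.n2_dec f, D.n2_nonneg (D.sh f)]
    have h3 := congrArg norm h1
    rw [norm_mul, D.z_norm, one_mul] at h3
    linarith [norm_sub_le (D.b f x) (D.e f), D.b_le f x, le_of_sq_le_sq h2 (norm_nonneg f)]

theorem taylor (N : ℕ) : ∀ f : A,
    f - D.z ^ N * (D.sh ^ N) f = ∑ k ∈ range N, D.c k f • D.z ^ k := by
  induction N with
  | zero => intro f; simp
  | succ N ih =>
    intro f
    rw [sum_range_succ', pow_succ D.sh, Module.End.mul_apply]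
    simp only [D.c_succ, D.c_zero, pow_succ', pow_zero, ← mul_smul_comm, ← mul_sum]
    linear_combination D.dec f + D.z * ih (D.sh f)

theorem tay (N : ℕ) {δ : ℝ} (δ0 : 0 < δ) (δ1 : δ ≤ 1) : ∃ d > 0, ∀ ψ : A, ‖ψ‖ ≤ 1 →
    ‖1 - D.e ψ‖ ≤ d → ‖1 - ψ - D.z ^ N * (D.sh ^ N) (1 - ψ)‖ ≤ δ ∧ ‖(D.sh ^ N) (1 - ψ)‖ ≤ 3 := by
  obtain ⟨s, s0, hs⟩ : ∃ s : ℝ, 0 < s ∧ N * s ≤ δ :=
    ⟨δ / (N + 1), by positivity, by rw [← mul_div_assoc, div_le_iff₀ (by positivity)]; linarith⟩
  refine ⟨s ^ 2 / 2, by positivity, fun ψ hψ hψe => ?_⟩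
  have h1 : D.n2 (1 - ψ) ≤ s ^ 2 := by
    have h2 : D.n2 (1 - ψ) ≤ D.m ((2 : ℝ) • D.re (1 - ψ)) := D.m_le fun x => by
      have h3 := (D.b_le ψ x).trans hψ
      have h4 : ‖D.b ψ x‖ ^ 2 ≤ 1 := pow_le_one₀ (norm_nonneg _) h3
      simp only [ContinuousMap.mul_apply, Model.ab_apply, map_sub, map_one, ContinuousMap.sub_apply,
        ContinuousMap.one_apply, ContinuousMap.smul_apply, Model.re_apply, smul_eq_mul]
      rw [← sq]
      rw [Complex.sq_norm, Complex.normSq_apply] at h4 ⊢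
      simp only [Complex.sub_re, Complex.sub_im, Complex.one_re, Complex.one_im]
      linarith only [h4]
    rw [map_smul, D.m_re, map_sub, map_one, smul_eq_mul] at h2
    linarith only [(Complex.re_le_norm _).trans hψe, h2]
  have h2 : ‖1 - ψ - D.z ^ N * (D.sh ^ N) (1 - ψ)‖ ≤ δ := by
    have h3 : ∀ k ∈ range N, ‖D.c k (1 - ψ) • D.z ^ k‖ ≤ s := fun k hk => by
      have h4 := (single_le_sum (f := fun k => ‖D.c k (1 - ψ)‖ ^ 2) (fun _ _ => sq_nonneg _)
        hk).trans ((D.bessel N _).trans h1)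
      rw [norm_smul, ← mul_one s]
      exact mul_le_mul (le_of_sq_le_sq h4 s0.le) (D.pow_le k) (norm_nonneg _) s0.le
    rw [taylor]
    refine (norm_sum_le_of_le _ h3).trans ?_
    simpa only [sum_const, card_range, nsmul_eq_mul] using hs
  refine ⟨h2, D.norm_le _ _ fun x => ?_⟩
  have h3 := (D.b_le _ x).trans h2
  simp only [map_sub (D.b), map_one, map_mul, map_pow, ContinuousMap.sub_apply,
    ContinuousMap.one_apply, ContinuousMap.mul_apply, ContinuousMap.pow_apply] at h3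
  have h4 := norm_sub_norm_le (D.b D.z x ^ N * D.b ((D.sh ^ N) (1 - ψ)) x) (1 - D.b ψ x)
  rw [norm_mul, norm_pow, D.z_norm, one_pow, one_mul, norm_sub_rev (_ * _)] at h4
  have h7 := norm_sub_le 1 (D.b ψ x)
  rw [norm_one] at h7
  linarith only [D.b_le ψ x, δ1, hψ, h3, h4, h7]

theorem low1 {u : A} (hu : ‖u‖ ≤ 1) {d : ℝ} (hd : 0 < d) (hn : D.n2 u ≤ d) :
    ∃ ψ : A, (∀ x, ‖D.b ψ x‖ ≤ 1 - ‖D.b u x‖ * ‖D.b u x‖ / 2) ∧ ‖1 - D.e ψ‖ ≤ 3 * d := by
  obtain ⟨G0, hG0⟩ := D.den1 (D.ab u * D.ab u + d • 1) d hd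
  obtain ⟨G, hG, hGe⟩ : ∃ G : A, (∀ x, (D.b G x).re = (D.b G0 x).re) ∧ D.e G = ((D.e G0).re : ℝ) :=
    ⟨G0 - ((D.e G0).im * Complex.I) • 1, fun x => by simp only [map_sub, map_smul, map_one, ContinuousMap.sub_apply, ContinuousMap.coe_smul, ContinuousMap.coe_one, Pi.smul_apply, Pi.one_apply, smul_eq_mul, mul_one, Complex.sub_re, Complex.mul_re, Complex.ofReal_re, Complex.I_re, mul_zero, Complex.ofReal_im, Complex.I_im, sub_self, sub_zero], by
      apply Complex.ext <;> simp only [map_sub, map_smul, map_one, smul_eq_mul, mul_one, Complex.sub_re, Complex.mul_re, Complex.ofReal_re, Complex.I_re, mul_zero, Complex.ofReal_im, Complex.I_im, sub_self, sub_zero, Complex.sub_im, Complex.mul_im, add_zero]⟩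
  have h1 : ∀ x, ‖D.b u x‖ * ‖D.b u x‖ ≤ (D.b G x).re ∧
      (D.b G x).re ≤ ‖D.b u x‖ * ‖D.b u x‖ + 2 * d := fun x => by
    have := abs_le.1 (hG0 x)
    simp only [ContinuousMap.add_apply, ContinuousMap.mul_apply, Model.ab_apply,
      ContinuousMap.smul_apply, ContinuousMap.one_apply, smul_eq_mul, mul_one] at this
    rw [hG]
    constructor <;> linarith
  have h2 : (D.e G0).re ≤ 3 * d := by
    have h3 : D.m (D.re G) ≤ D.m (D.ab u * D.ab u + (2 * d) • 1) :=
      D.m_le fun x => by simpa only [Model.re_apply, ContinuousMap.add_apply, ContinuousMap.mul_apply, Model.ab_apply, ContinuousMap.coe_smul, ContinuousMap.coe_one, Pi.smul_apply, Pi.one_apply, smul_eq_mul, mul_one] using (h1 x).2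
    rw [D.m_re, map_add, m_const, hGe] at h3
    simp only [Complex.ofReal_re] at h3
    unfold Model.n2 at hn
    linarith
  have h2' : 0 ≤ (D.e G0).re := by
    have h3 := D.m_pos (D.re G) fun x => (mul_self_nonneg _).trans (h1 x).1
    rwa [D.m_re, hGe, Complex.ofReal_re] at h3
  obtain ⟨ψ, hψ, hψe⟩ := D.exp (-G)
  refine ⟨ψ, fun x => ?_, ?_⟩
  · rw [hψ, Complex.norm_exp]
    simp only [map_neg, ContinuousMap.neg_apply, Complex.neg_re]
    have h5 := (D.b_le u x).trans hu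
    have h6 := norm_nonneg (D.b u x)
    set y := ‖D.b u x‖ * ‖D.b u x‖ with hy
    have y0 : 0 ≤ y := mul_self_nonneg _
    have y1 : y ≤ 1 := mul_le_one₀ h5 h6 h5
    have h7 : Real.exp (-(D.b G x).re) ≤ Real.exp (-y) := Real.exp_le_exp.2 (by linarith [(h1 x).1])
    have h8 : Real.exp (-y) * Real.exp y = 1 := by rw [← Real.exp_add]; simp
    have h9 := mul_le_mul_of_nonneg_left (Real.add_one_le_exp y) (Real.exp_pos (-y)).le
    have h10 : Real.exp (-y) ≤ 1 - y / 2 := by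
      by_contra hc
      push Not at hc
      linarith only [mul_lt_mul_of_pos_right hc (by linarith only [y0] : 0 < y + 1), mul_nonneg y0 (sub_nonneg.2 y1), h8, h9]
    linarith
  · rw [hψe, map_neg, hGe, ← Complex.ofReal_neg, ← Complex.ofReal_exp, ← Complex.ofReal_one,
      ← Complex.ofReal_sub, Complex.norm_real, Real.norm_eq_abs, abs_le]
    have h5 := Real.add_one_le_exp (-(D.e G0).re)
    have h6 : Real.exp (-(D.e G0).re) ≤ 1 := Real.exp_le_one_iff.2 (by linarith)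
    constructor <;> linarith

theorem cvx {E ι : Type*} [NormedAddCommGroup E] [NormedSpace ℂ E] [Fintype ι] {φ : ι → ℝ}
    (h0 : ∀ k, 0 ≤ φ k) (h1 : ∑ k, φ k = 1) {v : ι → E} {c : ℝ} (h : ∀ k, φ k ≠ 0 → ‖v k‖ ≤ c) :
    ‖∑ k, (φ k : ℂ) • v k‖ ≤ c := by
  refine (norm_sum_le_of_le (n := fun k => φ k * c) _ fun k _ => ?_).trans
    (by rw [← sum_mul, h1, one_mul])
  rw [norm_smul, Complex.norm_real, Real.norm_of_nonneg (h0 k)]
  by_cases h2 : φ k = 0
  · simp [h2]
  · exact mul_le_mul_of_nonneg_left (h k h2) (h0 k)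

theorem cvx_sub {E ι : Type*} [AddCommGroup E] [Module ℂ E] [Fintype ι] {φ : ι → ℝ}
    (h1 : ∑ k, φ k = 1) (w : E) (v : ι → E) :
    w - ∑ k, (φ k : ℂ) • v k = ∑ k, (φ k : ℂ) • (w - v k) := by
  have h2 : ∑ k, (φ k : ℂ) = 1 := by exact_mod_cast h1
  simp only [smul_sub, sum_sub_distrib, ← sum_smul, h2, one_smul]

variable {D} {S : C(L, A) →ₗ[ℂ] V} {a a0 d : ℝ}

theorem lowerB (h : Sm D ∅ S a) (ha : a ≤ a0) (ha0 : 0 < a0) {u : C(L, A)} (hu : ‖u‖ ≤ 1)
    (hT : 1 / 4 ≤ ‖S u‖) (hd : 0 < d) (hn : ∀ l, D.n2 (u l) ≤ d) :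
    ∃ ψ : C(L, A), ‖ψ‖ ≤ 1 ∧ (∀ l, ‖1 - D.e (ψ l)‖ ≤ 3 * d) ∧
      Sm D ∅ (S ∘ₗ LinearMap.mulLeft ℂ ψ) (a - 1 / (64 * a0)) := by
  obtain ⟨s, hs⟩ : ∃ s : ℝ, s = 1 / (4 * a0) := ⟨_, rfl⟩
  have s0 : 0 < s := by rw [hs]; positivity
  have u1 : ∀ l, ‖u l‖ ≤ 1 := fun l => (u.norm_coe_le_norm l).trans hu
  obtain ⟨n, φ, l, φ0, φ1, φ2⟩ := pu u.continuous (by positivity : 0 < s * s / 4)
  choose ψ h1 h2 using fun k => low1 D (u1 (l k)) hd (hn (l k))
  let Ψ : C(L, A) := ⟨fun y => ∑ k, (φ k y : ℂ) • ψ k, by fun_prop⟩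
  have h3 : ∀ y x c, (∀ k, φ k y ≠ 0 → ‖D.b (ψ k) x‖ ≤ c) → ‖D.b (Ψ y) x‖ ≤ c := fun y x c hc => by
    simpa only [Ψ, ContinuousMap.coe_mk, map_sum, map_smul, ContinuousMap.sum_apply,
      ContinuousMap.smul_apply] using cvx (fun k => φ0 k y) (φ1 y) hc
  have h4 : ∀ y x, ‖D.b (Ψ y) x‖ ≤ 1 - ‖D.b (u y) x‖ * ‖D.b (u y) x‖ / 2 + s * s / 4 :=
    fun y x => h3 y x _ fun k hk => by
      have h5 := (D.b_le (u y - u (l k)) x).trans (dist_eq_norm (u y) _ ▸ (φ2 k y hk).le)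
      rw [map_sub, ContinuousMap.sub_apply] at h5
      have h6 := (norm_sub_norm_le _ _).trans h5
      have h7 := (D.b_le _ x).trans (u1 y)
      have h8 := (D.b_le _ x).trans (u1 (l k))
      have h9 := mul_le_mul_of_nonneg_right h6
        (add_nonneg (norm_nonneg (D.b (u y) x)) (norm_nonneg (D.b (u (l k)) x)))
      have h10 := mul_le_mul_of_nonneg_left (add_le_add h7 h8) (by positivity : 0 ≤ s * s / 4)
      linarith only [h1 k x, h9, h10]
  refine ⟨Ψ, nB_le D zero_le_one fun y x => h3 y x _ fun k _ => by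
    linarith only [h1 k x, mul_self_nonneg ‖D.b (u (l k)) x‖], fun y => ?_, ?_⟩
  · have h5 : D.e (Ψ y) = ∑ k, (φ k y : ℂ) • D.e (ψ k) := by
      simp only [Ψ, ContinuousMap.coe_mk, map_sum, map_smul]
    rw [h5, cvx_sub (φ1 y)]
    exact cvx (fun k => φ0 k y) (φ1 y) fun k _ => h2 k
  · intro ι _ g r r0 _ hg
    have h5 := h (Option ι) (fun o => o.elim (((s * r : ℝ) : ℂ) • u) fun i => Ψ * g i)
      (r * (1 + s * s * (3 / 4))) (by positivity) (by simp only [Set.mem_empty_iff_false, Complex.ofReal_mul, IsEmpty.forall_iff, implies_true]) fun y x => by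
        rw [Fintype.sum_option]
        simp only [Option.elim, map_smul, map_mul, ContinuousMap.smul_apply,
          ContinuousMap.mul_apply, norm_smul, norm_mul, Complex.norm_real, Real.norm_eq_abs,
          ← mul_sum, abs_of_pos s0, abs_of_nonneg r0]
        have h6 := mul_le_mul (h4 y x) (hg y x) (sum_nonneg fun _ _ => norm_nonneg _)
          ((norm_nonneg _).trans (h4 y x))
        linarith only [mul_nonneg r0 (sq_nonneg (‖D.b (u y) x‖ - s)), h6]
    rw [Fintype.sum_option] at h5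
    simp only [Option.elim, map_smul, norm_smul, norm_mul, Complex.norm_real, Real.norm_eq_abs,
      abs_of_pos s0, abs_of_nonneg r0] at h5
    simp only [LinearMap.comp_apply, LinearMap.mulLeft_apply]
    have h6 : s * r * (1 / 4) ≤ s * r * ‖S u‖ := mul_le_mul_of_nonneg_left hT (by positivity)
    have h7 : a * (r * (s * s * (3 / 4))) ≤ a0 * (r * (s * s * (3 / 4))) :=
      mul_le_mul_of_nonneg_right ha (by positivity)
    have h8 : a0 * (r * (s * s * (3 / 4))) - s * r * (1 / 4) = -(1 / (64 * a0)) * r := by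
      rw [hs]; field_simp; ring
    linarith

theorem dich (h : Sm D ∅ S a) (ha : a ≤ a0) (ha0 : 0 < a0) {u : C(L, A)} (hu : ‖u‖ ≤ 1)
    (hT : 1 / 2 ≤ ‖S u‖) (hd : 0 < d) {F : Finset L} (hn : ∀ l ∈ F, D.n2 (u l) ≤ d) :
    (∃ ψ : C(L, A), ‖ψ‖ ≤ 1 ∧ (∀ l, ‖1 - D.e (ψ l)‖ ≤ 3 * (2 * d)) ∧
      Sm D ∅ (S ∘ₗ LinearMap.mulLeft ℂ ψ) (a - 1 / (64 * a0))) ∨
      ∃ u, ‖u‖ ≤ 1 ∧ (∀ l ∈ F, u l = 0) ∧ 1 / 4 ≤ ‖S u‖ := by
  obtain ⟨χ, χ0, χ1, χ2, χ3⟩ :=
    exists_ramp (⟨fun l => D.n2 (u l), (n2_cont D).comp u.continuous⟩ : C(L, ℝ)) hd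
  have h1 : ∀ {χ : C(L, ℝ)} (l x), 0 ≤ χ l → χ l ≤ 1 → ‖D.b (cut χ u l) x‖ ≤ ‖D.b (u l) x‖ :=
    fun l x h4 h5 => (b_cut D h4 u x).trans_le (mul_le_of_le_one_left (norm_nonneg _) h5)
  have h2 := fun l x => h1 l x (χ1 l) (sub_le_self 1 (χ0 l))
  by_cases h3 : 1 / 4 ≤ ‖S (cut χ u)‖
  · exact .inr ⟨_, nB_le D zero_le_one fun l x => (h1 l x (χ0 l) (sub_nonneg.1 (χ1 l))).trans
      ((bB_le D u l x).trans hu), fun l hl => by simp [cut_apply, χ2 l (hn l hl)], h3⟩
  · refine .inl (lowerB h ha ha0 (u := cut (1 - χ) u)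
      (nB_le D zero_le_one fun l x => (h2 l x).trans ((bB_le D u l x).trans hu)) ?_
      (by positivity) fun l => ?_)
    · rw [← cut_add χ u, map_add] at hT
      linarith [norm_add_le (S (cut χ u)) (S (cut (1 - χ) u))]
    · rcases le_total (2 * d) (D.n2 (u l)) with h4 | h4
      · refine (D.m_le (w := (2 * d) • 1) fun x => ?_).trans_eq (m_const D _)
        simp only [ContinuousMap.mul_apply, Model.ab_apply, b_cut D (χ1 l), χ3 l h4, zero_mul, mul_zero, ContinuousMap.coe_smul, ContinuousMap.coe_one, Pi.smul_apply, Pi.one_apply, smul_eq_mul, mul_one, Nat.ofNat_pos, mul_nonneg_iff_of_pos_left, hd.le]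
      · exact (D.m_le fun x => mul_self_le_mul_self (norm_nonneg _) (h2 l x)).trans h4

variable (D) [T2Space Ω]

theorem partB (u : Fin M → C(L, A)) (hu : ∀ j, ‖u j‖ ≤ 1) {ε : ℝ} (hε : 0 < ε) (hε1 : ε ≤ 1) :
    ∃ (N : ℕ) (ι : Type) (_ : Fintype ι) (p : ι → C(L, A)) (t : Fin M → ι → ℂ),
      (∀ j i, ‖t j i‖ ≤ 1) ∧ (∀ l x, ∑ i, ‖D.b (p i l) x‖ ≤ 2) ∧
        ∀ j, ‖ContinuousMap.const L D.z ^ N * u j - ∑ i, t j i • p i‖ ≤ 3 * ε := by
  obtain ⟨n, φ, l, φ0, φ1, φ2⟩ := pu (u := fun y j => u j y) (by fun_prop) hε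
  choose N m p t h1 h2 h3 using fun k =>
    D.part (fun j => u j (l k)) (fun j => ((u j).norm_coe_le_norm _).trans (hu j)) hε hε1
  refine ⟨univ.sup N, (k : Fin n) × Fin (m k), inferInstance,
    fun i => cut (φ i.1) (.const L (D.z ^ (univ.sup N - N i.1) * p i.1 i.2)), fun j i => t i.1 j i.2,
    fun j i => h1 _ _ _, fun y x => ?_, fun j => (ContinuousMap.norm_le _ (by positivity)).2 fun y => ?_⟩
  · simp only [Fintype.sum_sigma, b_cut D (φ0 _ y), ContinuousMap.const_apply, map_mul, map_pow,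
      ContinuousMap.mul_apply, ContinuousMap.pow_apply, norm_mul, norm_pow, D.z_norm, one_pow,
      one_mul, ← mul_sum]
    refine (sum_le_sum fun k _ => mul_le_mul_of_nonneg_left (h2 k x) (φ0 k y)).trans ?_
    rw [← sum_mul, φ1, one_mul]
  · have h4 : (ContinuousMap.const L D.z ^ univ.sup N * u j - ∑ i : (k : Fin n) × Fin (m k),
        t i.1 j i.2 • cut (φ i.1) (.const L (D.z ^ (univ.sup N - N i.1) * p i.1 i.2))) y =
        D.z ^ univ.sup N * u j y -
          ∑ k, (φ k y : ℂ) • (D.z ^ (univ.sup N - N k) * ∑ i, t k j i • p k i) := by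
      simp only [ContinuousMap.sub_apply, ContinuousMap.mul_apply, ContinuousMap.pow_apply,
        ContinuousMap.const_apply, ContinuousMap.sum_apply, ContinuousMap.smul_apply, cut_apply,
        Fintype.sum_sigma, mul_sum, smul_sum, mul_smul_comm, smul_comm (t _ j _)]
    rw [h4, cvx_sub (φ1 y)]
    refine cvx (fun k => φ0 k y) (φ1 y) fun k hk => ?_
    have h5 : D.z ^ univ.sup N * u j y - D.z ^ (univ.sup N - N k) * ∑ i, t k j i • p k i =
        D.z ^ univ.sup N * (u j y - u j (l k)) +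
          D.z ^ (univ.sup N - N k) * (D.z ^ N k * u j (l k) - ∑ i, t k j i • p k i) := by
      rw [mul_sub (D.z ^ (univ.sup N - N k)), ← mul_assoc, pow_sub_mul_pow _ (le_sup (mem_univ k))]
      ring
    have h6 := (dist_le_pi_dist _ _ j).trans (φ2 k y hk).le
    rw [dist_eq_norm] at h6
    have h7 := (norm_mul_le _ _).trans (mul_le_mul (D.pow_le (univ.sup N)) h6 (norm_nonneg _)
      zero_le_one)
    have h8 := (norm_mul_le _ _).trans (mul_le_mul (D.pow_le (univ.sup N - N k)) (h3 k j)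
      (norm_nonneg _) zero_le_one)
    rw [h5]
    exact (norm_add_le_of_le h7 h8).trans_eq (by ring)

theorem traceB (π : Fin M → V →L[ℂ] ℂ) {β : ℝ} (hβ : ∀ v, ∑ j, ‖π j v‖ ≤ β * ‖v‖)
    (β0 : 0 ≤ β) (u : Fin M → C(L, A)) (hu : ∀ j, ‖u j‖ ≤ 1) {ε : ℝ} (hε : 0 < ε) :
    ∃ d > 0, ∀ (T : C(L, A) →ₗ[ℂ] V) (a : ℝ), Sm D ∅ T a → ∀ ψ : C(L, A), ‖ψ‖ ≤ 1 →
      (∀ l, ‖1 - D.e (ψ l)‖ ≤ d) → ∑ j, ‖π j (T ((1 - ψ) * u j))‖ ≤ a * (6 * β + ε) := by
  obtain ⟨δ, δ0, δ1, hδ⟩ : ∃ δ : ℝ, 0 < δ ∧ δ ≤ 1 ∧ M * (β * (10 * δ)) ≤ ε := by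
    refine ⟨min 1 (ε / (10 * M * β + 1)), by positivity, min_le_left _ _, ?_⟩
    have h1 := min_le_right 1 (ε / (10 * M * β + 1))
    rw [le_div_iff₀ (by positivity)] at h1
    have h2 : 0 < min 1 (ε / (10 * M * β + 1)) := by positivity
    linarith
  obtain ⟨N, ι, _, p, t, ht, hp, hup⟩ := partB D u hu δ0 δ1
  obtain ⟨d, d0, hd⟩ := tay D N δ0 δ1
  refine ⟨d, d0, fun T a hT ψ hψ hψe => ?_⟩
  have a0 := hT.nonneg
  have h1 := fun l => hd (ψ l) ((ψ.norm_coe_le_norm l).trans hψ) (hψe l)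
  let g : C(L, A) := ⟨fun l => (D.sh ^ N) (1 - ψ l), by
    rw [Module.End.coe_pow]
    exact ((sh_cont D).iterate N).comp (by fun_prop)⟩
  have h2 : ‖1 - ψ - ContinuousMap.const L D.z ^ N * g‖ ≤ δ :=
    (ContinuousMap.norm_le _ δ0.le).2 fun l => (h1 l).1
  have h3 : ‖g‖ ≤ 3 := (ContinuousMap.norm_le _ (by norm_num)).2 fun l => (h1 l).2
  have h4 : ∑ i, ‖T (g * p i)‖ ≤ a * 6 := hT _ _ 6 (by norm_num) (by simp only [Set.mem_empty_iff_false, ContinuousMap.mul_apply, IsEmpty.forall_iff, implies_true]) fun l x => by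
    simp only [map_mul, ContinuousMap.mul_apply, norm_mul, ← mul_sum]
    have := mul_le_mul ((bB_le D g l x).trans h3) (hp l x) (sum_nonneg fun _ _ => norm_nonneg _)
      (by norm_num)
    linarith only [this]
  set Z := ContinuousMap.const L D.z ^ N
  have h5 : ∀ j ∈ univ, ‖π j (T ((1 - ψ) * u j))‖ ≤
      β * (a * (10 * δ)) + ∑ i, ‖π j (T (g * p i))‖ := fun j _ => by
    have h6 : (1 - ψ) * u j = ((1 - ψ - Z * g) * u j + g * (Z * u j - ∑ i, t j i • p i)) +
        ∑ i, t j i • (g * p i) := by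
      simp only [← mul_smul_comm, ← mul_sum]
      ring
    have h7 : ‖(1 - ψ - Z * g) * u j + g * (Z * u j - ∑ i, t j i • p i)‖ ≤ 10 * δ := by
      have h8 := (norm_mul_le _ _).trans (mul_le_mul h2 (hu j) (norm_nonneg _) δ0.le)
      have h9 := (norm_mul_le _ _).trans (mul_le_mul h3 (hup j) (norm_nonneg _) (by norm_num))
      exact (norm_add_le_of_le h8 h9).trans_eq (by ring)
    rw [h6, map_add, map_add]
    refine norm_add_le_of_le ?_ ?_
    · refine (single_le_sum (f := fun k => ‖π k _‖) (fun _ _ => norm_nonneg _) (mem_univ j)).trans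
        ((hβ _).trans (mul_le_mul_of_nonneg_left ((hT.le (by simp only [Set.mem_empty_iff_false, ContinuousMap.add_apply, ContinuousMap.mul_apply, ContinuousMap.sub_apply, ContinuousMap.one_apply, ContinuousMap.coe_sum, ContinuousMap.coe_smul, Finset.sum_apply, Pi.smul_apply, IsEmpty.forall_iff, implies_true])).trans ?_) β0))
      exact mul_le_mul_of_nonneg_left h7 a0
    · rw [map_sum, map_sum]
      refine norm_sum_le_of_le _ fun i _ => ?_
      rw [map_smul, map_smul, norm_smul]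
      exact mul_le_of_le_one_left (norm_nonneg _) (ht j i)
  refine (sum_le_sum h5).trans ?_
  rw [sum_add_distrib, sum_comm]
  have h6 : ∑ i, ∑ j, ‖π j (T (g * p i))‖ ≤ β * (a * 6) := by
    refine (sum_le_sum fun i _ => hβ _).trans ?_
    rw [← mul_sum]
    exact mul_le_mul_of_nonneg_left h4 β0
  have h7 := mul_le_mul_of_nonneg_left hδ a0
  simp only [sum_const, card_univ, Fintype.card_fin, nsmul_eq_mul]
  linarith only [h6, h7]

/-- a summing part plus a part with a small trace -/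
def Val (π : Fin M → V →L[ℂ] ℂ) (a0 C : ℝ) (T : C(L, A) →ₗ[ℂ] V)
    (p : (C(L, A) →ₗ[ℂ] V) × ℝ) : Prop :=
  Sm D ∅ p.1 p.2 ∧ p.2 ≤ a0 ∧
    ∀ u : Fin M → C(L, A), (∀ j, ‖u j‖ ≤ 1) → ∑ j, ‖π j (T (u j) - p.1 (u j))‖ ≤ C * (a0 - p.2)

/-- test functions of small mean exist -/
def Good (π : Fin M → V →L[ℂ] ℂ) (T : C(L, A) →ₗ[ℂ] V) (F : Finset L) (d : ℝ) : Prop :=
  ∃ u : Fin M → C(L, A), (∀ j, ‖u j‖ ≤ 1) ∧ (∀ j, π j (T (u j)) = 1) ∧
    ∀ j, ∀ l ∈ F, D.n2 (u j l) ≤ d

variable {K X : Type*} [TopologicalSpace K] [T2Space K] [NormedAddCommGroup X] [NormedSpace ℂ X]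

omit [T2Space L] [T2Space Ω] in
theorem bad_finite [LocallyCompactSpace K] (F : Fn K X A) {J : X →ₗ[ℂ] C(L, A)}
    {R : C(L, A) →ₗ[ℂ] X} (hRJ : ∀ x, R (J x) = x) (hJ : ∀ x, ‖J x‖ ≤ ‖x‖)
    (π : Fin M → V →L[ℂ] ℂ) (P : A →ₗ[ℂ] V) {w : Fin M → A} (hw : ∀ j, ‖w j‖ ≤ 1)
    (hP : ∀ j, π j (P (w j)) = 1) (G : Finset L) {d : ℝ} (hd : 0 < d) :
    {y | ¬ Good D π (P ∘ₗ F.ev y ∘ₗ R) G d}.Finite := by
  by_contra hinf
  obtain ⟨N, hN⟩ := exists_nat_gt (M * G.card / d)
  obtain ⟨s, hs, hcard⟩ := Set.Infinite.exists_subset_card_eq hinf N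
  obtain ⟨U, hU, hdis⟩ := s.finite_toSet.t2_separation
  choose x h1 h2 h3 using fun y j => F.bump (hU y).2 (hU y).1 (w j)
  have h4 : ∀ j l t, ∑ y ∈ s, ‖D.b (J (x y j) l) t‖ ≤ 1 := fun j l t =>
    unimod ((ContinuousMap.evalCLM ℂ t).toLinearMap ∘ₗ D.b.toLinearMap ∘ₗ
      (ContinuousMap.evalCLM ℂ l).toLinearMap ∘ₗ J) s (fun y => x y j)
      fun θ hθ => by
        refine (bB_le D _ l t).trans ((hJ _).trans (F.norm_le _ _ zero_le_one fun y' => ?_))
        rw [map_sum]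
        by_cases h5 : ∃ y ∈ s, y' ∈ U y
        · obtain ⟨y, hy, hy'⟩ := h5
          rw [sum_eq_single_of_mem y hy fun y2 hy2 hne => by
            rw [map_smul, h3 y2 j y' (Set.disjoint_left.1 (hdis hy hy2 hne.symm) hy'), smul_zero]]
          rw [map_smul, norm_smul, hθ, one_mul]
          exact (h2 y j y').trans (hw j)
        · push Not at h5
          rw [sum_eq_zero fun y hy => by rw [map_smul, h3 y j y' (h5 y hy), smul_zero]]
          simp
  have h5 : ∀ y j, ‖J (x y j)‖ ≤ 1 := fun y j =>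
    (hJ _).trans (F.norm_le _ _ zero_le_one fun y' => (h2 y j y').trans (hw j))
  have h6 : ∀ i ∈ univ ×ˢ G, ∑ y ∈ s, D.n2 (J (x y i.1) i.2) ≤ 1 := fun i _ => by
    unfold Model.n2
    rw [← map_sum, ← D.m_one]
    refine D.m_le fun t => ?_
    rw [ContinuousMap.sum_apply]
    refine le_trans (sum_le_sum fun y _ => ?_) (h4 i.1 i.2 t)
    exact mul_le_of_le_one_left (norm_nonneg (D.b _ t)) ((bB_le D _ _ t).trans (h5 y _))
  have h7 : ∀ y ∈ s, d ≤ ∑ i ∈ univ ×ˢ G, D.n2 (J (x y i.1) i.2) := fun y hy => by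
    by_contra hc
    push Not at hc
    refine hs hy ⟨fun j => J (x y j), h5 y, fun j => by simp [hRJ, h1, hP], fun j l hl => ?_⟩
    exact (single_le_sum (f := fun i : Fin M × L => D.n2 (J (x y i.1) i.2))
      (fun _ _ => D.n2_nonneg _) (mk_mem_product (mem_univ j) hl)).trans hc.le
  have h8 := (sum_le_sum h7).trans ((sum_comm.le).trans (sum_le_sum h6))
  simp only [sum_const, hcard, nsmul_eq_mul, card_product, card_univ, Fintype.card_fin, mul_one,
    Nat.cast_mul] at h8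
  rw [div_lt_iff₀ hd] at hN
  linarith only [hN, h8]

theorem step [ProperSpace V] (π : Fin M → V →L[ℂ] ℂ) {β C : ℝ}
    (hβ : ∀ v, ∑ j, ‖π j v‖ ≤ β * ‖v‖) (β0 : 0 ≤ β) (hπ : ∀ j v, ‖π j v‖ ≤ ‖v‖)
    (T : K → C(L, A) →ₗ[ℂ] V) (hT : ∀ g, Continuous fun y => T y g)
    (hbad : ∀ G, ∀ d > 0, {y | ¬ Good D π (T y) G d}.Finite) (ha0 : 0 < a0) (C0 : 0 ≤ C)
    (hC : a0 * (6 * β) ≤ C * (1 / (64 * a0))) (hB : C * a0 < M / 2) {I : Type*} (F : Filter I)
    [F.NeBot] {κ : K} {y : I → K} (hy : Tendsto y F (𝓝[≠] κ)) {p : I → (C(L, A) →ₗ[ℂ] V) × ℝ}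
    (hp : ∀ᶠ i in F, Val D π a0 C (T (y i)) (p i)) :
    ∃ q, Val D π a0 C (T κ) q ∧ ∀ P, (∀ᶠ i in F, p i ∈ P) → q ∈ der (1 / (64 * a0)) P := by
  classical
  have h1 : ∀ w : I × Finset L × ℕ, ∃ (ψ : C(L, A)) (a : ℝ), Val D π a0 C (T (y w.1)) (p w.1) →
      Good D π (T (y w.1)) w.2.1 (1 / ((w.2.2 : ℝ) + 1)) → ‖ψ‖ ≤ 1 ∧
        (∀ l, ‖1 - D.e (ψ l)‖ ≤ 3 * (2 * (1 / ((w.2.2 : ℝ) + 1)))) ∧
        Sm D ∅ ((p w.1).1 ∘ₗ LinearMap.mulLeft ℂ ψ) a ∧
        (a = (p w.1).2 - 1 / (64 * a0) ∨ ψ = 1 ∧ a = (p w.1).2 ∧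
          ∃ u, ‖u‖ ≤ 1 ∧ (∀ l ∈ w.2.1, u l = 0) ∧ 1 / 4 ≤ ‖(p w.1).1 u‖) := fun w => by
    by_cases h : Val D π a0 C (T (y w.1)) (p w.1) ∧
        Good D π (T (y w.1)) w.2.1 (1 / ((w.2.2 : ℝ) + 1))
    · obtain ⟨⟨h2, h3, h4⟩, u, hu, hu1, hu2⟩ := h
      obtain ⟨j, hj⟩ : ∃ j, 1 / 2 ≤ ‖(p w.1).1 (u j)‖ := by
        by_contra hc
        push Not at hc
        have h5 : ∀ j ∈ univ, (1 / 2 : ℝ) ≤ ‖π j (T (y w.1) (u j) - (p w.1).1 (u j))‖ :=
          fun j _ => by
            have h6 := norm_sub_norm_le (1 : ℂ) (π j ((p w.1).1 (u j)))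
            rw [map_sub, hu1]
            rw [norm_one] at h6
            linarith only [hπ j ((p w.1).1 (u j)), hc j, h6]
        have h6 := (sum_le_sum h5).trans (h4 u hu)
        simp only [sum_const, card_univ, Fintype.card_fin, nsmul_eq_mul] at h6
        linarith only [mul_nonneg C0 h2.nonneg, hB, h6]
      rcases dich h2 h3 ha0 (hu j) hj (by positivity) (hu2 j) with ⟨ψ, h5, h6, h7⟩ | h5
      · exact ⟨ψ, _, fun _ _ => ⟨h5, h6, h7, .inl rfl⟩⟩
      · refine ⟨1, _, fun _ _ => ⟨nB_le D zero_le_one fun l x => by simp, fun l => ?_, ?_,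
          .inr ⟨rfl, rfl, h5⟩⟩⟩
        · rw [ContinuousMap.one_apply, map_one, sub_self, norm_zero]
          positivity
        · rwa [LinearMap.mulLeft_one, LinearMap.comp_id]
    · exact ⟨0, 0, fun h2 h3 => absurd ⟨h2, h3⟩ h⟩
  choose ψ a h1 using h1
  let G : Filter (I × Finset L × ℕ) := (F ×ˢ atTop) ⊓
    𝓟 {w | Good D π (T (y w.1)) w.2.1 (1 / ((w.2.2 : ℝ) + 1))}
  have hG : G.NeBot := by
    refine inf_principal_neBot_iff.2 fun W hW => ?_
    obtain ⟨U1, hU1, U2, hU2, hsub⟩ := mem_prod_iff.1 hW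
    obtain ⟨n, hn⟩ := Filter.nonempty_of_mem hU2
    have h2 : ∀ᶠ y in 𝓝[≠] κ, Good D π (T y) n.1 (1 / ((n.2 : ℝ) + 1)) := by
      have h3 := ((hbad n.1 _ (by positivity : 0 < 1 / ((n.2 : ℝ) + 1))).subset
        (Set.sdiff_subset (t := {κ}))).isClosed.isOpen_compl.mem_nhds (x := κ) (by simp)
      filter_upwards [mem_nhdsWithin_of_mem_nhds h3, self_mem_nhdsWithin] with y h4 h5
      by_contra h6
      exact h4 ⟨h6, h5⟩
    obtain ⟨i, hi1, hi2⟩ := Filter.nonempty_of_mem (inter_mem hU1 (hy h2))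
    exact ⟨(i, n), hsub ⟨hi1, hn⟩, hi2⟩
  let U := Ultrafilter.of G
  have hU : (U : Filter _) ≤ G := Ultrafilter.of_le G
  have t1 : Tendsto (fun w : I × Finset L × ℕ => w.1) U F :=
    tendsto_fst.mono_left (hU.trans inf_le_left)
  have t2 : Tendsto (fun w : I × Finset L × ℕ => w.2) U atTop :=
    tendsto_snd.mono_left (hU.trans inf_le_left)
  rw [← prod_atTop_atTop_eq] at t2
  have h2 := t1.eventually hp
  have h3 := (h2.and (show ∀ᶠ w : I × Finset L × ℕ in U,
    Good D π (T (y w.1)) w.2.1 (1 / ((w.2.2 : ℝ) + 1)) from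
      hU (mem_inf_of_right (mem_principal_self _)))).mono fun w hw => h1 w hw.1 hw.2
  have c0 : 0 < 1 / (64 * a0) := by positivity
  have h4 : ∀ᶠ w in U, a w ∈ Set.Icc 0 a0 := by
    filter_upwards [h2, h3] with w h4 h5
    refine ⟨h5.2.2.1.nonneg, le_trans ?_ h4.2.1⟩
    rcases h5.2.2.2 with h6 | h6
    · linarith only [c0, h6]
    · exact h6.2.1.le
  obtain ⟨b, hb0, hb⟩ := isCompact_Icc.ultrafilter_le_nhds (U.map a) (le_principal_iff.2 h4)
  replace hb : Tendsto a U (𝓝 b) := hb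
  have h5 : ∀ g, ∃ v, Tendsto (fun w => (p w.1).1 (ψ w * g)) U (𝓝 v) := fun g => by
    obtain ⟨v, -, hv⟩ := (isCompact_closedBall (0 : V) (a0 * ‖g‖)).ultrafilter_le_nhds
      (U.map fun w => (p w.1).1 (ψ w * g)) (le_principal_iff.2 <| (h3.and h4).mono fun w h5 =>
        mem_closedBall_zero_iff.2 ((h5.1.2.2.1.mono subset_rfl h5.2.2).le (g := g) (by simp only [Set.mem_empty_iff_false, IsEmpty.forall_iff, implies_true])))
    exact ⟨v, hv⟩
  choose s hs using h5
  refine ⟨(⟨⟨s, fun f g => tendsto_nhds_unique (hs (f + g)) (((hs f).add (hs g)).congr fun w => by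
      rw [mul_add, map_add])⟩, fun c f => tendsto_nhds_unique (hs (c • f))
      (((hs f).const_smul c).congr fun w => by rw [mul_smul_comm, map_smul])⟩, b),
    ⟨fun ι _ g r r0 g0 hg => ?_, hb0.2, fun u hu => le_of_forall_pos_le_add fun ε hε => ?_⟩,
    fun P hP t G ε hε => ?_⟩
  · exact le_of_tendsto_of_tendsto (tendsto_finsetSum _ fun i _ => (hs (g i)).norm)
      (hb.mul_const r) (h3.mono fun w hw => hw.2.2.1 ι g r r0 g0 hg)
  · obtain ⟨d, d0, hd⟩ := traceB D π hβ β0 u hu (div_pos hε ha0)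
    have t3 : Tendsto (fun w : I × Finset L × ℕ => 3 * (2 * (1 / ((w.2.2 : ℝ) + 1)))) U (𝓝 0) := by
      simpa only [one_div, Function.comp_apply, mul_zero] using (((tendsto_one_div_add_atTop_nhds_zero_nat (𝕜 := ℝ)).comp
        (tendsto_snd.comp t2)).const_mul 2).const_mul 3
    refine le_of_tendsto_of_tendsto (tendsto_finsetSum _ fun j _ => (((π j).continuous.tendsto _).comp
      ((((hT (u j)).tendsto κ).comp ((hy.mono_right nhdsWithin_le_nhds).comp t1)).sub
        (hs (u j)))).norm) (((hb.const_sub a0).const_mul C).add_const ε) ?_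
    filter_upwards [h2, h3, t3.eventually_le_const d0] with w h5 h6 h7
    have h8 := h5.2.2 u hu
    simp only [Function.comp]
    rcases h6.2.2.2 with h9 | h9
    · have h10 := hd _ _ (h5.1.mono subset_rfl h5.2.1) _ h6.1 fun l => (h6.2.1 l).trans h7
      have h11 : ∀ j ∈ univ, ‖π j (T (y w.1) (u j) - (p w.1).1 (ψ w * u j))‖ ≤
          ‖π j (T (y w.1) (u j) - (p w.1).1 (u j))‖ + ‖π j ((p w.1).1 ((1 - ψ w) * u j))‖ :=
        fun j _ => by
          refine le_trans (le_of_eq ?_) (norm_add_le _ _)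
          rw [← map_add, sub_mul, one_mul, map_sub (p w.1).1, sub_add_sub_cancel]
      refine (sum_le_sum h11).trans ?_
      have h12 : a0 * (6 * β + ε / a0) = a0 * (6 * β) + ε := by field_simp
      rw [sum_add_distrib, h9]
      linarith only [hC, h8, h10, h12]
    · simp only [h9.1, h9.2.1, one_mul]
      linarith only [hε, h8]
  · have h5 : ∀ᶠ w in U, ∀ g ∈ t, ‖(p w.1).1 (ψ w * g) - s g‖ ≤ ε :=
      (eventually_all_finset t).2 fun g _ =>
        (Metric.tendsto_nhds.1 (hs g) ε hε).mono fun w hw => (dist_eq_norm _ (s g) ▸ hw).le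
    obtain ⟨w, h6, h7, h8, h9, h10⟩ := ((t1.eventually hP).and (h3.and (h5.and
      ((hb.eventually_const_le (sub_lt_self b hε)).and
        ((tendsto_fst.comp t2).eventually (eventually_ge_atTop G)))))).exists
    refine ⟨_, h6, ψ w, h7.1, h8, h7.2.2.2.imp (fun h => by linarith only [h9, h]) ?_⟩
    rintro ⟨-, -, u, u1, u2, u3⟩
    exact ⟨u, u1, fun l hl => u2 l (h10 hl), u3⟩

include D in
theorem height [LocallyCompactSpace K] (F : Fn K X A) (J : X →L[ℂ] C(L, A))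
    (R : C(L, A) →L[ℂ] X) (hRJ : ∀ x, R (J x) = x) {α ξ : Ordinal.{0}} (hα : α ≠ 0)
    (hξ : ξ < Ordinal.omega0 ^ α) (h0 : cb (Set.univ : Set L) ξ = ∅) :
    ∃ ρ < Ordinal.omega0 ^ α, cb (Set.univ : Set K) ρ = ∅ := by
  obtain ⟨J, R, ρ, ρ0, hRJ, hJ, hR⟩ : ∃ (J : X →ₗ[ℂ] C(L, A)) (R : C(L, A) →ₗ[ℂ] X) (ρ : ℝ),
      0 ≤ ρ ∧ (∀ x, R (J x) = x) ∧ (∀ x, ‖J x‖ ≤ ‖x‖) ∧ ∀ g, ‖R g‖ ≤ ρ * ‖g‖ := by
    have k0 : 0 < ‖J‖ + 1 := by positivity
    have k1 : ((‖J‖ + 1 : ℝ) : ℂ) ≠ 0 := Complex.ofReal_ne_zero.2 k0.ne'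
    refine ⟨((‖J‖ + 1 : ℝ) : ℂ)⁻¹ • J.toLinearMap, ((‖J‖ + 1 : ℝ) : ℂ) • R.toLinearMap,
      (‖J‖ + 1) * ‖R‖, by positivity, fun x => ?_, fun x => ?_, fun g => ?_⟩
    · simp only [LinearMap.smul_apply, map_smul, ContinuousLinearMap.coe_coe, hRJ, smul_smul]
      rw [inv_mul_cancel₀ k1, one_smul]
    · rw [LinearMap.smul_apply, norm_smul, norm_inv, Complex.norm_real, Real.norm_of_nonneg k0.le,
        inv_mul_le_iff₀ k0, ContinuousLinearMap.coe_coe]
      linarith [J.le_opNorm x, norm_nonneg x]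
    · rw [LinearMap.smul_apply, norm_smul, Complex.norm_real, Real.norm_of_nonneg k0.le, mul_assoc]
      exact mul_le_mul_of_nonneg_left (R.le_opNorm g) k0.le
  obtain ⟨a0, ha0, hρ⟩ : ∃ a0 : ℝ, 0 < a0 ∧ 4 * ρ ≤ a0 := ⟨4 * ρ + 1, by positivity, by linarith⟩
  obtain ⟨m, hm⟩ := exists_nat_gt (768 * a0 * a0 * a0)
  have m0 : (0 : ℝ) < m := lt_of_le_of_lt (by positivity) hm
  obtain ⟨P, π, w, hP, hw, hPw, hβ, hπ⟩ := D.exists_paley m
  have hPc : Continuous P := AddMonoidHomClass.continuous_of_bound P 4 fun f =>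
    (hP f).trans (mul_le_mul_of_nonneg_left ((D.m_le fun x => by simpa only [Model.ab_apply, ContinuousMap.coe_smul, ContinuousMap.coe_one, Pi.smul_apply, Pi.one_apply, smul_eq_mul, mul_one] using D.b_le f x).trans_eq
      (m_const D _)) (by norm_num))
  have key : ∀ γ, ∀ κ ∈ cb (Set.univ : Set K) γ,
      ∃ q ∈ it (der (1 / (64 * a0))) (Q _ D a0 Set.univ 0) γ,
        Val D π a0 (384 * a0 * a0 * m) (P ∘ₗ F.ev κ ∘ₗ R) q := by
    have hQ : ∀ T q, Val D π a0 (384 * a0 * a0 * m) T q → q ∈ Q _ D a0 (Set.univ : Set L) 0 :=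
      fun T q h => ⟨h.1.nonneg, h.2.1, h.1.mono subset_rfl h.2.1, fun ι _ g r _ g0 _ => by
        simp only [show ∀ i, g i = 0 from fun i => ContinuousMap.ext fun l => g0 i l trivial, map_zero, norm_zero, sum_const_zero, zero_mul, Std.le_refl]⟩
    intro γ
    induction γ using WellFoundedLT.induction with
    | ind γ ih =>
      intro κ hκ
      rcases eq_or_ne γ 0 with rfl | hγ
      · have h1 : Val D π a0 (384 * a0 * a0 * m) (P ∘ₗ F.ev κ ∘ₗ R) (P ∘ₗ F.ev κ ∘ₗ R, a0) := by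
          refine ⟨fun ι _ g r r0 _ hg => ?_, le_rfl, fun u _ => by simp only [LinearMap.coe_comp, Function.comp_apply, sub_self, map_zero, norm_zero, sum_const_zero, mul_zero, Std.le_refl]⟩
          refine (sum_le_sum fun i _ => hP _).trans ?_
          rw [← mul_sum, ← map_sum]
          have h1 := D.m_le (v := ∑ i, D.ab ((F.ev κ ∘ₗ R) (g i))) (w := (ρ * r) • 1) fun t => by
            rw [ContinuousMap.sum_apply]
            simp only [ContinuousMap.smul_apply, ContinuousMap.one_apply, smul_eq_mul, mul_one]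
            refine unimod
              ((ContinuousMap.evalCLM ℂ t).toLinearMap ∘ₗ D.b.toLinearMap ∘ₗ F.ev κ ∘ₗ R)
              univ g fun θ hθ => (D.b_le _ t).trans ((F.ev_le _ _).trans ((hR _).trans
                (mul_le_mul_of_nonneg_left (nB_le D r0 fun l x => ?_) ρ0)))
            rw [ContinuousMap.sum_apply, map_sum, ContinuousMap.sum_apply]
            refine (norm_sum_le _ _).trans (le_trans (le_of_eq ?_) (hg l x))
            simp only [ContinuousMap.smul_apply, map_smul, norm_smul, hθ, one_mul]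
          rw [m_const] at h1
          linarith only [mul_le_mul_of_nonneg_right hρ r0, h1]
        exact ⟨_, it_zero.symm ▸ hQ _ _ h1, h1⟩
      · have : Nonempty (Set.Iio γ) := ⟨⟨0, pos_iff_ne_zero.2 hγ⟩⟩
        choose! p hp1 hp2 using fun w : Set.Iio γ × K => ih w.1 w.1.2 w.2
        let G : Filter (Set.Iio γ × K) := (atTop ×ˢ 𝓝[≠] κ) ⊓ 𝓟 {w | w.2 ∈ cb Set.univ w.1}
        have hG : G.NeBot := by
          refine inf_principal_neBot_iff.2 fun W hW => ?_
          obtain ⟨U1, hU1, U2, hU2, hsub⟩ := mem_prod_iff.1 hW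
          obtain ⟨ξ, h1⟩ := Filter.nonempty_of_mem hU1
          obtain ⟨y, h2, h3⟩ := inf_principal_neBot_iff.1 ((mem_it.1 hκ).2 ξ ξ.2) _ hU2
          exact ⟨(ξ, y), hsub ⟨h1, h2⟩, h3⟩
        have h1 : ∀ᶠ w in G, w.2 ∈ cb Set.univ w.1 := mem_inf_of_right (mem_principal_self _)
        obtain ⟨q, h2, h3⟩ := step D π hβ m0.le hπ (fun y => P ∘ₗ F.ev y ∘ₗ R)
          (fun g => hPc.comp (F.cont _)) (fun G d hd => bad_finite D F hRJ hJ π P hw hPw G hd) ha0
          (C := 384 * a0 * a0 * m) (by positivity) (le_of_eq (by field_simp; ring)) (by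
            push_cast
            linarith only [mul_lt_mul_of_pos_right hm m0]) G (tendsto_snd.mono_left inf_le_left)
          (h1.mono hp2)
        refine ⟨q, mem_it.2 ⟨hQ _ _ h2, fun ξ hξ => h3 _ ?_⟩, h2⟩
        filter_upwards [h1, (tendsto_fst.mono_left inf_le_left : Tendsto _ G _).eventually
          (eventually_ge_atTop ⟨ξ, hξ⟩)] with w h4 h5
        exact it_anti h5 (hp1 w h4)
  obtain ⟨ζ, h1, h2⟩ := kill_fin (V := EuclideanSpace ℂ (Fin (m * m))) (D := D) (a0 := a0)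
    (fun β _ => kill_all (by positivity : 0 < 1 / (64 * a0)) β) hα hξ isClosed_univ h0
    (by norm_num : (0 : ℝ) < 1 / 4)
  refine ⟨ζ, h1, Set.eq_empty_of_forall_notMem fun κ hκ => ?_⟩
  obtain ⟨q, h3, -⟩ := key ζ κ hκ
  rwa [h2] at h3

end

end Pool.Agent.MP_eed7cf_an.H42

end
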