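import Pool.Agent.MP_eed7cf_an.Mg.H42_Low

attribute [-instance] NonUnitalCStarAlgebra.toNormedSpace SubringClass.toSeminormedRing
  NonUnitalCStarAlgebra.toNonUnitalNormedRing locallyCompact_of_proper Finite.instDiscreteTopology
  IsValuativeTopology.instValuedValueGroupWithZeroOfIsUniformAddGroup
  NormedRing.toNonUnitalNormedRing NonarchimedeanAddGroup.toIsTopologicalAddGroup
  ZeroAtInftyContinuousMap.instNonUnitalNormedCommRing StarSubalgebra.cstarAlgebra
  ZeroAtInftyContinuousMap.instNonUnitalNormedRing NonUnitalNonAssocSemiring.toMulZeroClass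
  PolishSpace.toIsCompletelyMetrizableSpace NonUnitalNonAssocSemiring.toAddCommMonoid
  IsIsometricSMul.to_continuousConstSMul NonUnitalNonAssocRing.toAddCommGroup
  Group.IsPerfect.subsingleton_of_isMulCommutative IsTopologicalSemiring.toContinuousAdd
  IsOrderedRing.toIsStrictOrderedRing littleWedderburn NormedRing.toRing
  LocallyConvexSpace.toPolynormableSpace instDiscreteTopologyOfAlexandrovDiscreteOfT1Space
  NonUnitalNormedCommRing.toNonUnitalSeminormedCommRing RightPreLieAlgebra.toModule CommRing.toRing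
  LeftPreLieAlgebra.toModule DiscreteUniformity.instDiscreteTopology DivisionRing.toRing
  IsWellOrder.toIsWellFounded RKHS.instFunLike IsValuativeTopology.instIsTopologicalAddGroup
  Distrib.toAdd NonarchimedeanRing.toIsTopologicalRing DenselyNormedField.toNormedField
  Action.FintypeCat.instMulActionObjFiniteOf NonUnitalSeminormedRing.toPseudoMetricSpace
  SubringClass.toNormedCommRing SeminormedRing.toRing LieRing.toAddCommGroup IdemSemiring.toSemiring
  NormedCommRing.toCommRing instLocallyCompactSpaceOfPrespectralSpace ProperSMul.toContinuousSMul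
  NonUnitalRing.toNonUnitalNonAssocRing NonAssocSemiring.toAddCommMonoidWithOne
  MonTypeEquivalenceMon.monMonoid NonUnitalAlgSemiHomClass.toDistribMulActionSemiHomClass
  NonUnitalSemiring.toNonUnitalNonAssocSemiring NumberField.to_charZero
  TopologicalSpace.instNoetherianSpaceOfIndiscreteTopology NormedAlgebra.toAlgebra
  ZeroAtInftyContinuousMap.instNonUnitalSeminormedCommRing AddSubgroupClass.normedAddCommGroup
  AddCommGroupWithOne.toAddGroupWithOne IsTopologicalTorsor.toContinuousSMul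
  NormedRing.toSeminormedRing UniformSpace.toCompletelyRegularSpace
  NonAssocSemiring.toNonUnitalNonAssocSemiring SeminormedCommGroup.toPseudoMetricSpace
  GroupWithZero.toMonoidWithZero CoalgHomClass.toSemilinearMapClass AddQuantale.instAddLeftMono
  CommMonoidWithZero.toMonoidWithZero compactSpace_of_completeLinearOrder
  AddCommGroupWithOne.toAddCommGroup IdemSemiring.toCanonicallyOrderedAdd
  AddGroupConeClass.toAddSubmonoidClass instWellFoundedGTOfGradeOrderOrderDualNat
  EuclideanDomain.toCommRing NonUnitalNormedRing.toNonUnitalSeminormedRing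
  NonarchimedeanAddGroup.instTotallySeparated NonUnitalCommCStarAlgebra.toNonUnitalNormedCommRing
  CStarAlgebra.instOrderClosedTopology
  TopologicalSpace.IsCompletelyPseudoMetrizableSpace.PseudoMetrizableSpace instSMulZeroClass

-- part MP_eed7cf_an.H42.Mil
section

/-!
Complemented copies of spaces of vector-valued functions: averaging over the Cantor set.
-/

set_option autoImplicit false

namespace Pool.Agent.MP_eed7cf_an.H42

open Filter Topology Set H71 ZeroAtInfty OnePoint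

noncomputable section

/-- isomorphic to a complemented subspace -/
def Cp (E F : Type*) [NormedAddCommGroup E] [NormedSpace ℂ E] [NormedAddCommGroup F]
    [NormedSpace ℂ F] : Prop :=
  ∃ (J : E →L[ℂ] F) (R : F →L[ℂ] E), ∀ x, R (J x) = x

variable {X Y Z : Type*} [NormedAddCommGroup X] [NormedSpace ℂ X] [NormedAddCommGroup Y]
  [NormedSpace ℂ Y] [NormedAddCommGroup Z] [NormedSpace ℂ Z]

theorem Cp.trans (h : Cp X Y) (h' : Cp Y Z) : Cp X Z := by
  obtain ⟨J, R, h⟩ := h
  obtain ⟨J', R', h'⟩ := h'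
  exact ⟨J' ∘L J, R ∘L R', fun x => (congrArg R (h' _)).trans (h x)⟩

theorem Cp.iso_c0 (h : Cp C₀(ℕ, X) X) : Nonempty (X ≃L[ℂ] C₀(ℕ, X)) := by
  obtain ⟨J, R, h⟩ := h
  obtain ⟨u⟩ := absorb h
  exact ⟨u.trans c0shift.symm⟩

theorem Cp.iso (h : Cp C₀(ℕ, X) X) (h1 : Cp X Y) (h2 : Cp Y X) : Nonempty (X ≃L[ℂ] Y) := by
  obtain ⟨a⟩ := h.iso_c0
  obtain ⟨J, R, h1⟩ := h1
  obtain ⟨J', R', h2⟩ := h2
  exact pel h1 a (ContinuousLinearEquiv.equivOfRightInverse R' J' h2)

variable {K : Type*} [TopologicalSpace K] [CompactSpace K]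

/-- an operator into a space of functions on a compact space, from its values -/
def toC (T : K → Y →L[ℂ] X) (c : ℝ) (c0 : 0 ≤ c) (hc : ∀ y x, ‖T y x‖ ≤ c * ‖x‖)
    (h1 : ∀ x, Continuous fun y => T y x) : Y →L[ℂ] C(K, X) :=
  LinearMap.mkContinuous
    { toFun := fun x => ⟨fun y => T y x, h1 x⟩
      map_add' := fun x x' => ContinuousMap.ext fun y => map_add (T y) x x'
      map_smul' := fun a x => ContinuousMap.ext fun y => map_smul (T y) a x } c
    fun x => (ContinuousMap.norm_le _ (by positivity)).2 fun y => hc y x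

/-- composition with a continuous map -/
def cmp {L : Type*} [TopologicalSpace L] [CompactSpace L] {p : K → L} (h : Continuous p) :
    C(L, X) →L[ℂ] C(K, X) :=
  toC (fun y => ContinuousMap.evalCLM ℂ (p y)) 1 zero_le_one
    (fun _ x => (x.norm_coe_le_norm _).trans_eq (one_mul _).symm) fun x => x.continuous.comp h

variable {T : Type*} [TopologicalSpace T] [T2Space T]

theorem cp_onePoint : Cp C₀(T, X) C(OnePoint T, X) := by
  refine ⟨toC (fun y => y.elim 0 evL) 1 zero_le_one (fun y f => ?_) fun f => ?_,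
    toL (fun y : T => ContinuousMap.evalCLM ℂ (y : OnePoint T) - ContinuousMap.evalCLM ℂ ∞) 2
      zero_le_two (fun y f => ?_) (fun f => (f.continuous.comp continuous_coe).sub continuous_const)
      fun f => ?_, fun f => ZeroAtInftyContinuousMap.ext fun y => ?_⟩
  · induction y using OnePoint.rec with
    | infty => simp
    | coe y => exact (evL_le y f).trans_eq (one_mul _).symm
  · refine continuous_iff_continuousAt.2 fun y => ?_
    induction y using OnePoint.rec with
    | infty =>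
      rw [continuousAt_infty', coclosedCompact_eq_cocompact]
      exact zero_at_infty f
    | coe y => exact continuousAt_coe.2 f.continuous.continuousAt
  · exact (norm_sub_le_of_le (f.norm_coe_le_norm _) (f.norm_coe_le_norm _)).trans_eq
      (two_mul _).symm
  · have h := ((f.continuous.tendsto ∞).comp tendsto_coe_infty).sub_const (f ∞)
    rwa [coclosedCompact_eq_cocompact, sub_self] at h
  · change f y - 0 = f y
    exact sub_zero _

omit [NormedSpace ℂ X] in
theorem c0_lim {I : Type*} {F : Filter I} {f : I → C₀(ℕ, X)} {v : C₀(ℕ, X)} {b : ℕ → ℝ}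
    (hb : Tendsto b atTop (𝓝 0)) (h : ∀ i n, ‖f i n‖ ≤ b n)
    (hp : ∀ n, Tendsto (fun i => f i n) F (𝓝 (v n))) : Tendsto f F (𝓝 v) := by
  refine Metric.tendsto_nhds.2 fun ε hε => ?_
  have e0 : 0 < ε / 3 := by positivity
  obtain ⟨N, hN⟩ := eventually_atTop.1
    ((hb.eventually_le_const e0).and (NormedAddGroup.tendsto_nhds_zero.1 (c0_tendsto v) _ e0))
  filter_upwards [(eventually_all_finite (finite_lt_nat N)).2 fun n _ =>
    Metric.tendsto_nhds.1 (hp n) _ e0] with i hi
  rw [dist_eq_norm]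
  refine (c0_norm_le (c := 2 * ε / 3) fun n => ?_).trans_lt (by linarith)
  change ‖f i n - v n‖ ≤ _
  rcases lt_or_ge n N with h1 | h1
  · linarith only [hi n h1, dist_eq_norm (f i n) (v n), hε]
  · linarith only [norm_sub_le (f i n) (v n), h i n, hN n h1]

omit [T2Space T] in
theorem cp_swap (h : Cp C₀(ℕ, X) X) : Cp C₀(ℕ, C₀(T, X)) C₀(T, X) := by
  obtain ⟨J, R, h⟩ := h
  have h1 : ∀ (y : T) (n : ℕ) (f : C₀(T, X)), ‖R (f y) n‖ ≤ ‖R‖ * ‖f‖ := fun y n f =>
    (c0_apply_le _ n).trans ((R.le_opNorm _).trans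
      (mul_le_mul_of_nonneg_left (evL_le y f) (norm_nonneg _)))
  refine ⟨toL (fun y => J ∘L c0map (evL y)) ‖J‖ (norm_nonneg _) (fun y g => (J.le_opNorm _).trans
      (mul_le_mul_of_nonneg_left (c0_norm_le fun n => (evL_le y _).trans (c0_apply_le g n))
        (norm_nonneg _)))
      (fun g => J.continuous.comp (continuous_iff_continuousAt.2 fun y =>
        c0_lim (tendsto_zero_iff_norm_tendsto_zero.1 (c0_tendsto g)) (fun y n => evL_le y _)
          fun n => (g n).continuous.tendsto y))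
      fun g => (J.continuous.tendsto' 0 0 J.map_zero).comp
        (c0_lim (tendsto_zero_iff_norm_tendsto_zero.1 (c0_tendsto g)) (fun y n => evL_le y _)
          fun n => zero_at_infty (g n)),
    toC0 (fun n => toL (fun y => ev n ∘L R ∘L evL y) ‖R‖ (norm_nonneg _) (fun y => h1 y n)
      (fun f => (ev n ∘L R).continuous.comp f.continuous) fun f =>
        ((ev n ∘L R).continuous.tendsto' 0 0 (map_zero _)).comp (zero_at_infty f)) ‖R‖
      (fun n f => c0L_le (by positivity) fun y => h1 y n f) fun f => ?_,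
    fun g => ZeroAtInftyContinuousMap.ext fun n => ZeroAtInftyContinuousMap.ext fun y =>
      congrArg (· n) (h (c0map (evL y) g))⟩
  refine NormedAddGroup.tendsto_nhds_zero.2 fun ε hε => ?_
  have e0 : 0 < ε / 3 := by positivity
  obtain ⟨C, hC, h2⟩ := mem_cocompact.1 (NormedAddGroup.tendsto_nhds_zero.1
    ((R.continuous.tendsto' 0 0 (map_zero _)).comp (zero_at_infty f)) _ e0)
  obtain ⟨t, h3, h4⟩ := Metric.totallyBounded_iff.1
    (hC.image (R.continuous.comp f.continuous)).totallyBounded _ e0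
  filter_upwards [(eventually_all_finite h3).2 fun v _ =>
    NormedAddGroup.tendsto_nhds_zero.1 (c0_tendsto v) _ e0] with n hn
  refine (c0L_le (c := 2 * ε / 3) (by positivity) fun y => ?_).trans_lt (by linarith only [hε])
  change ‖R (f y) n‖ ≤ _
  by_cases h5 : y ∈ C
  · obtain ⟨v, h6, h7⟩ := mem_iUnion₂.1 (h4 ⟨y, h5, rfl⟩)
    have h8 : ‖R (f y) n - v n‖ ≤ ‖R (f y) - v‖ := c0_apply_le (R (f y) - v) n
    have h9 : ‖R (f y) - v‖ < ε / 3 := mem_ball_iff_norm.1 h7
    linarith only [norm_sub_norm_le (R (f y) n) (v n), hn v h6, h8, h9]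
  · have h6 : ‖R (f y)‖ < ε / 3 := h2 h5
    linarith [c0_apply_le (R (f y)) n]

/-- averaging in one coordinate -/
def avE (t : ℝ) (n : ℕ) : ((ℕ → Bool) → X) →ₗ[ℂ] (ℕ → Bool) → X :=
  (t : ℂ) • LinearMap.funLeft ℂ X (Function.update · n true) +
    ((1 - t : ℝ) : ℂ) • LinearMap.funLeft ℂ X (Function.update · n false)

/-- averaging in the first coordinates -/
def avH (φ : ℕ → ℝ) : ℕ → ((ℕ → Bool) → X) →ₗ[ℂ] X
  | 0 => LinearMap.proj fun _ => false
  | n + 1 => avH φ n ∘ₗ avE (φ n) n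

theorem avE_le {t c : ℝ} (h0 : 0 ≤ t) (h1 : t ≤ 1) {n : ℕ} {g : (ℕ → Bool) → X} {σ : ℕ → Bool}
    {v : X} (h2 : t ≠ 0 → ‖g (Function.update σ n true) - v‖ ≤ c)
    (h3 : t ≠ 1 → ‖g (Function.update σ n false) - v‖ ≤ c) : ‖avE t n g σ - v‖ ≤ c := by
  have h4 : avE t n g σ - v = (t : ℂ) • (g (Function.update σ n true) - v) +
      ((1 - t : ℝ) : ℂ) • (g (Function.update σ n false) - v) := by
    simp only [avE, LinearMap.add_apply, LinearMap.smul_apply, Pi.add_apply, Pi.smul_apply,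
      LinearMap.funLeft_apply]
    push_cast
    module
  have h5 : ∀ {s : ℝ} {w : X}, 0 ≤ s → (s ≠ 0 → ‖w‖ ≤ c) → ‖(s : ℂ) • w‖ ≤ s * c := by
    intro s w h5 h6
    rw [norm_smul, Complex.norm_real, Real.norm_of_nonneg h5]
    by_cases h7 : s = 0
    · simp [h7]
    · exact mul_le_mul_of_nonneg_left (h6 h7) h5
  rw [h4]
  exact (norm_add_le_of_le (h5 h0 h2) (h5 (sub_nonneg.2 h1) fun h => h3 fun h' =>
    h (by rw [h', sub_self]))).trans_eq (by ring)

theorem avH_le {φ : ℕ → ℝ} (h0 : ∀ n, 0 ≤ φ n) (h1 : ∀ n, φ n ≤ 1) {c : ℝ} {v : X} (N : ℕ) :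
    ∀ g : (ℕ → Bool) → X,
      (∀ σ, (∀ n < N, (σ n = true → φ n ≠ 0) ∧ (σ n = false → φ n ≠ 1)) → ‖g σ - v‖ ≤ c) →
        ‖avH φ N g - v‖ ≤ c := by
  induction N with
  | zero => exact fun g h => h _ (by simp)
  | succ N ih =>
    refine fun g h => ih _ fun σ hσ => avE_le (h0 N) (h1 N) (fun h2 => h _ fun n hn => ?_)
      fun h2 => h _ fun n hn => ?_
    all_goals
      rcases Nat.lt_succ_iff_lt_or_eq.1 hn with h3 | rfl
      · rw [Function.update_of_ne h3.ne]
        exact hσ n h3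
      · simpa using h2

theorem avH_sub {φ : ℕ → ℝ} (h0 : ∀ n, 0 ≤ φ n) (h1 : ∀ n, φ n ≤ 1) {c : ℝ} {N M : ℕ}
    {g' : (ℕ → Bool) → X} (h : N ≤ M) : ∀ g : (ℕ → Bool) → X,
      (∀ σ σ', (∀ n < N, σ n = σ' n) → ‖g σ - g' σ'‖ ≤ c) → ‖avH φ M g - avH φ N g'‖ ≤ c := by
  induction M, h using Nat.le_induction with
  | base =>
    intro g h
    rw [← map_sub, ← sub_zero (avH _ _ _)]
    exact avH_le h0 h1 N _ fun σ _ => by simpa using h σ σ fun _ _ => rfl
  | succ M hM ih =>
    exact fun g h => ih _ fun σ σ' hσ => avE_le (h0 M) (h1 M)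
      (fun _ => h _ _ fun n hn => by rw [Function.update_of_ne (by omega), hσ n hn])
      fun _ => h _ _ fun n hn => by rw [Function.update_of_ne (by omega), hσ n hn]

omit [CompactSpace K] in
theorem avH_cont (φ : ℕ → C(K, ℝ)) (N : ℕ) : ∀ G : K → (ℕ → Bool) → X,
    (∀ σ, Continuous fun x => G x σ) → Continuous fun x => avH (fun n => φ n x) N (G x) := by
  induction N with
  | zero => exact fun G h => h _
  | succ N ih =>
    refine fun G h => ih (fun x => avE (φ N x) N (G x)) fun σ => ?_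
    have h1 := h (Function.update σ N true)
    have h2 := h (Function.update σ N false)
    change Continuous fun x => (φ N x : ℂ) • G x _ + ((1 - φ N x : ℝ) : ℂ) • G x _
    fun_prop

omit [NormedSpace ℂ X] in
theorem cantor_unif (g : C(ℕ → Bool, X)) {ε : ℝ} (hε : 0 < ε) :
    ∃ N, ∀ σ σ', (∀ n < N, σ n = σ' n) → ‖g σ - g σ'‖ ≤ ε := by
  obtain ⟨t, ht⟩ := (isClosed_le continuous_const (by fun_prop) :
    IsClosed {p : (ℕ → Bool) × (ℕ → Bool) | ε ≤ ‖g p.1 - g p.2‖}).isCompact.elim_finite_subcover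
      (fun n => {p | p.1 n ≠ p.2 n}) (fun n => isOpen_ne_fun (by fun_prop) (by fun_prop))
      fun p hp => by
        by_contra hc
        simp only [mem_iUnion, mem_ofPred_eq, not_exists, not_not] at hc hp
        rw [funext hc, sub_self, norm_zero] at hp
        linarith
  refine ⟨t.sup id + 1, fun σ σ' h => le_of_not_ge fun hc => ?_⟩
  obtain ⟨n, h1, h2⟩ := mem_iUnion₂.1 (ht (show (σ, σ') ∈ _ from hc))
  exact h2 (h n (Nat.lt_succ_of_le (Finset.le_sup (f := id) h1)))

theorem exists_av [CompleteSpace X] (φ : ℕ → C(K, ℝ)) (h0 : ∀ n x, 0 ≤ φ n x)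
    (h1 : ∀ n x, φ n x ≤ 1) : ∃ R : C(ℕ → Bool, X) →L[ℂ] C(K, X), ∀ g x v,
      (∀ σ, (∀ n, (σ n = true → φ n x ≠ 0) ∧ (σ n = false → φ n x ≠ 1)) → g σ = v) →
        R g x = v := by
  have h2 : ∀ N x (g : C(ℕ → Bool, X)), ‖avH (fun n => φ n x) N g‖ ≤ 1 * ‖g‖ := fun N x g => by
    simpa only [one_mul, sub_zero] using avH_le (h0 · x) (h1 · x) (v := 0) N g fun σ _ => by simpa only [sub_zero] using g.norm_coe_le_norm σ
  let A : ℕ → C(ℕ → Bool, X) →L[ℂ] C(K, X) := fun N =>
    toC (fun x => LinearMap.mkContinuous (avH (fun n => φ n x) N ∘ₗ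
      (ContinuousMap.coeFnLinearMap ℂ : C(ℕ → Bool, X) →ₗ[ℂ] (ℕ → Bool) → X)) 1 (h2 N x)) 1 zero_le_one (h2 N) fun g => avH_cont φ N (fun _ => g) fun _ => continuous_const
  have h3 : ∀ g, ∃ f, Tendsto (fun N => A N g) atTop (𝓝 f) := fun g =>
    cauchySeq_tendsto_of_complete (Metric.cauchySeq_iff'.2 fun ε hε => by
      obtain ⟨N, hN⟩ := cantor_unif g (half_pos hε)
      refine ⟨N, fun M hM => lt_of_le_of_lt ?_ (half_lt_self hε)⟩
      rw [dist_eq_norm]
      exact (ContinuousMap.norm_le _ (half_pos hε).le).2 fun x =>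
        avH_sub (h0 · x) (h1 · x) hM g hN)
  choose f hf using h3
  refine ⟨continuousLinearMapOfTendsto A (tendsto_pi_nhds.2 hf), fun g x v h => ?_⟩
  refine tendsto_nhds_unique (((continuous_eval_const x).tendsto _).comp (hf g))
    (Metric.tendsto_atTop.2 fun ε hε => ?_)
  obtain ⟨N, hN⟩ := cantor_unif g (half_pos hε)
  refine ⟨N, fun M hM => lt_of_le_of_lt ?_ (half_lt_self hε)⟩
  rw [dist_eq_norm]
  refine avH_le (h0 · x) (h1 · x) M g fun σ hσ => ?_
  rw [← h (fun n => if n < M then σ n else decide (φ n x = 1)) fun n => ?_]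
  · exact hN _ _ fun n hn => by rw [if_pos (hn.trans_le hM)]
  · split_ifs with h4
    · exact hσ n h4
    · exact ⟨fun h5 => by rw [of_decide_eq_true h5]; exact one_ne_zero, of_decide_eq_false⟩

theorem ret_cantor {W : Type*} [TopologicalSpace W] [CompactSpace W] [Nonempty W]
    {e : W → ℕ → Bool} (h1 : Continuous e) (h2 : Function.Injective e) :
    ∃ ρ : (ℕ → Bool) → W, Continuous ρ ∧ ∀ w, ρ (e w) = w := by
  have h3 := h1.isClosedEmbedding h2
  obtain ⟨f, h4, -, h5⟩ := PiNat.exists_retraction_subtype_of_isClosed h3.isClosed_range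
    (range_nonempty e)
  refine ⟨h3.isEmbedding.toHomeomorph.symm ∘ f, (Homeomorph.continuous _).comp h5, fun w => ?_⟩
  rw [Function.comp_apply, h4 ⟨e w, w, rfl⟩, IsEmbedding.toHomeomorph_symm_apply]

/-- the lemma of Milutin -/
theorem cp_cantor [CompleteSpace X] [T2Space K] [SecondCountableTopology K] [Nonempty K] :
    Cp C(K, X) C(ℕ → Bool, X) := by
  obtain ⟨ψ, hψ⟩ := TopologicalSpace.exists_dense_seq C(K, ℝ)
  let φ : ℕ → C(K, ℝ) := fun n => ⟨fun x => max 0 (min 1 (ψ n x)), by fun_prop⟩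
  obtain ⟨R, hR⟩ := exists_av (X := X) φ (fun _ _ => le_max_left _ _)
    fun _ _ => max_le zero_le_one (min_le_left _ _)
  let W : Set (K × (ℕ → Bool)) :=
    {p | ∀ n, (p.2 n = true → 0 ≤ ψ n p.1) ∧ (p.2 n = false → ψ n p.1 ≤ 1)}
  have h1 : IsClosed W := by
    simp only [W, ofPred_forall, ofPred_and, imp_iff_not_or, ofPred_or]
    exact isClosed_iInter fun n => ((isClosed_discrete {b | ¬b = true}).preimage
      (f := fun p : K × (ℕ → Bool) => p.2 n) (by fun_prop) |>.union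
        (isClosed_le continuous_const (by fun_prop))).inter
      ((isClosed_discrete {b | ¬b = false}).preimage
        (f := fun p : K × (ℕ → Bool) => p.2 n) (by fun_prop) |>.union
          (isClosed_le (by fun_prop) continuous_const))
  have := isCompact_iff_compactSpace.1 h1.isCompact
  have : Nonempty W := ⟨⟨(Classical.arbitrary K, fun n => decide (0 ≤ ψ n (Classical.arbitrary K))),
    fun n => ⟨of_decide_eq_true, fun h => by linarith [not_le.1 (of_decide_eq_false h)]⟩⟩⟩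
  obtain ⟨ρ, h2, h3⟩ := ret_cantor (e := fun w : W => w.1.2) (by fun_prop) fun w w' h => by
    refine Subtype.ext (Prod.ext ?_ h)
    by_contra hc
    obtain ⟨f, h4, h5, -⟩ := exists_continuous_zero_one_of_isClosed
      (isClosed_singleton (x := w.1.1)) (isClosed_singleton (x := w'.1.1)) (by simpa using hc)
    obtain ⟨n, hn⟩ := hψ.exists_dist_lt ((3 : ℝ) • f - 1) one_pos
    have h6 := (ContinuousMap.dist_apply_le_dist w.1.1).trans_lt hn
    have h7 := (ContinuousMap.dist_apply_le_dist w'.1.1).trans_lt hn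
    simp only [ContinuousMap.sub_apply, ContinuousMap.smul_apply, h4 (mem_singleton _),
      h5 (mem_singleton _), ContinuousMap.one_apply, Real.dist_eq, abs_lt, Pi.zero_apply,
      Pi.one_apply, smul_eq_mul] at h6 h7
    cases h8 : w.1.2 n
    · linarith only [(w'.2 n).2 ((congrFun h n).symm.trans h8), h7]
    · linarith [(w.2 n).1 h8]
  refine ⟨cmp (p := fun σ => (ρ σ).1.1) (by fun_prop), R,
    fun f => ContinuousMap.ext fun x => hR _ x _ fun σ hσ => ?_⟩
  refine congrArg (fun w : W => f w.1.1) (h3 ⟨(x, σ), fun n => ⟨fun h => ?_, fun h => ?_⟩⟩)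
  · exact le_of_not_ge fun h4 => (hσ n).1 h (max_eq_left ((min_le_right _ _).trans h4))
  · exact le_of_not_ge fun h4 => (hσ n).2 h (by simp only [φ, ContinuousMap.coe_mk, min_eq_left h4, zero_le_one, sup_of_le_right])

variable [LocallyCompactSpace T] [SecondCountableTopology T]

theorem sc_onePoint : SecondCountableTopology (OnePoint T) := by
  let C := CompactExhaustion.choice T
  refine (TopologicalSpace.isTopologicalBasis_of_isOpen_of_nhds
    (s := (image (↑)) '' TopologicalSpace.countableBasis T ∪ range fun n => ((↑) '' C n)ᶜ) ?_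
      fun a u h1 h2 => ?_).secondCountableTopology
    (((TopologicalSpace.countable_countableBasis T).image _).union (countable_range _))
  · rintro _ (⟨U, h, rfl⟩ | ⟨n, rfl⟩)
    · exact isOpen_image_coe.2 (TopologicalSpace.isOpen_of_mem_countableBasis h)
    · exact isOpen_compl_image_coe.2 ⟨(C.isCompact n).isClosed, C.isCompact n⟩
  · induction a using OnePoint.rec with
    | infty =>
      obtain ⟨n, hn⟩ := C.exists_superset_of_isCompact ((isOpen_iff_of_mem h1).1 h2).2
      refine ⟨_, .inr ⟨n, rfl⟩, infty_notMem_image_coe, fun y hy => ?_⟩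
      induction y using OnePoint.rec with
      | infty => exact h1
      | coe y => exact not_not.1 fun h => hy ⟨y, hn h, rfl⟩
    | coe a =>
      obtain ⟨U, h3, h4, h5⟩ := (TopologicalSpace.isBasis_countableBasis T).exists_subset_of_mem_open
        (show a ∈ (↑) ⁻¹' u from h1) (h2.preimage continuous_coe)
      exact ⟨_, .inl ⟨U, h3, rfl⟩, ⟨a, h4, rfl⟩, image_subset_iff.2 h5⟩

theorem exists_cantor (h : ¬ Countable T) :
    ∃ e : (ℕ → Bool) → T, Continuous e ∧ Function.Injective e := by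
  obtain ⟨n, hn⟩ : ∃ n, ¬ (compactCovering T n).Countable := by
    by_contra hc
    push Not at hc
    exact h (countable_univ_iff.1 (iUnion_compactCovering T ▸ countable_iUnion hc))
  have := isCompact_iff_compactSpace.1 (isCompact_compactCovering T n)
  let := TopologicalSpace.metrizableSpaceMetric (compactCovering T n)
  obtain ⟨e, -, h1, h2⟩ := IsClosed.exists_nat_bool_injection_of_not_countable
    (isClosed_univ (X := compactCovering T n)) fun h => hn (countable_univ_iff.1 h)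
  exact ⟨_, continuous_subtype_val.comp h1, Subtype.val_injective.comp h2⟩

theorem cantor_cp [CompleteSpace X] (h : ¬ Countable T) : Cp C(ℕ → Bool, X) C₀(T, X) := by
  obtain ⟨e, h1, h2⟩ := exists_cantor h
  have h4 : ∀ n b, IsClosed ((fun σ => (e σ : OnePoint T)) '' {σ | σ n = b}) := fun n b =>
    ((isClosed_eq (continuous_apply n) continuous_const).isCompact.image
      (continuous_coe.comp h1)).isClosed
  have h3 : ∀ n, ∃ φ : C(OnePoint T, ℝ), (∀ σ, σ n = false → φ (e σ) = 0) ∧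
      (∀ σ, σ n = true → φ (e σ) = 1) ∧ ∀ x, φ x ∈ Icc (0 : ℝ) 1 := fun n => by
    obtain ⟨φ, h5, h6, h7⟩ := exists_continuous_zero_one_of_isClosed (h4 n false) (h4 n true)
      (disjoint_image_of_injective (coe_injective.comp h2) (disjoint_left.2 fun σ h h' =>
        Bool.false_ne_true (h.symm.trans h')))
    exact ⟨φ, fun σ h => h5 ⟨σ, h, rfl⟩, fun σ h => h6 ⟨σ, h, rfl⟩, h7⟩
  choose φ h5 h6 h7 using h3
  obtain ⟨R, hR⟩ := exists_av (X := X) φ (fun n x => (h7 n x).1) fun n x => (h7 n x).2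
  obtain ⟨χ, h8, -, h9, h10⟩ := exists_continuous_one_zero_of_isCompact (isCompact_range h1)
    isClosed_empty (by simp)
  have h11 : ∀ (y : T) (g : C(OnePoint T, X)), ‖(χ y : ℂ) • g y‖ ≤ 1 * ‖g‖ := fun y g => by
    rw [norm_smul, Complex.norm_real, Real.norm_of_nonneg (h10 y).1]
    exact mul_le_mul (h10 y).2 (g.norm_coe_le_norm _) (norm_nonneg _) zero_le_one
  have h14 : ∀ g : C(OnePoint T, X), Continuous fun y : T => (χ y : ℂ) • g y := fun g =>
    (Complex.continuous_ofReal.comp χ.continuous).smul (g.continuous.comp continuous_coe)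
  have h15 : ∀ g : C(OnePoint T, X), Tendsto (fun y : T => (χ y : ℂ) • g y) (cocompact T) (𝓝 0) :=
    fun g => (HasCompactSupport.intro h9 fun y hy => by
      rw [image_eq_zero_of_notMem_tsupport hy, Complex.ofReal_zero, zero_smul]).is_zero_at_infty
  obtain ⟨U, hU⟩ : ∃ U : T → C(OnePoint T, X) →L[ℂ] X, ∀ y g, U y g = (χ y : ℂ) • g y :=
    ⟨fun y => (χ y : ℂ) • ContinuousMap.evalCLM ℂ (y : OnePoint T), fun y g => by
      rw [_root_.smul_apply, ContinuousMap.evalCLM_apply]⟩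
  simp only [← hU] at h11 h14 h15
  obtain ⟨J, hJ⟩ : ∃ J : C(OnePoint T, X) →L[ℂ] C₀(T, X), ∀ g y, J g y = (χ y : ℂ) • g y :=
    ⟨toL U 1 zero_le_one h11 h14 h15, fun g y => hU y g⟩
  refine ⟨J ∘L R,
    toC (fun σ => evL (e σ)) 1 zero_le_one (fun σ f => (evL_le _ f).trans_eq (one_mul _).symm)
      fun f => f.continuous.comp h1, fun g => ContinuousMap.ext fun σ => (hJ (R g) (e σ)).trans ?_⟩
  rw [h8 (mem_range_self σ), hR g _ (g σ) fun σ' h => congrArg g (funext fun n => ?_)]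
  · simp
  · cases h12 : σ n <;> cases h13 : σ' n
    · rfl
    · exact absurd (h5 n σ h12) ((h n).1 h13)
    · exact absurd (h6 n σ h12) ((h n).2 h13)
    · rfl

end

end Pool.Agent.MP_eed7cf_an.H42

end

-- part MP_eed7cf_an.H42.Up
section

/-!
Countable base spaces: complemented copies from the heights, and the classification.
-/

set_option autoImplicit false

namespace Pool.Agent.MP_eed7cf_an.H42

open Filter Topology Set H71 ZeroAtInfty OnePoint

noncomputable section

variable {K : Type*} [TopologicalSpace K]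

theorem idx {O : ℕ → Set K} (hO : ∀ n, IsClopen (O n)) : ∃ (U : ℕ → Set K) (ν : K → ℕ),
    (∀ n, IsClopen (U n)) ∧ (∀ n, U n ⊆ O n) ∧ (∀ z n, z ∈ O n → z ∈ U (ν z)) ∧
      ∀ z n, z ∈ U n → ν z = n := by
  have h1 : ∀ z, ∃ m, ∀ n, z ∈ O n → z ∈ disjointed O m := fun z => by
    by_cases h : z ∈ ⋃ n, O n
    · rw [← iUnion_disjointed] at h
      obtain ⟨m, h⟩ := mem_iUnion.1 h
      exact ⟨m, fun _ _ => h⟩
    · exact ⟨0, fun n hn => absurd (mem_iUnion.2 ⟨n, hn⟩) h⟩
  choose ν h1 using h1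
  refine ⟨disjointed O, ν, fun n => ?_, disjointed_subset O, h1, fun z n h => ?_⟩
  · rw [disjointed_eq_inter_compl]
    exact (hO n).inter (Set.Finite.isClopen_biInter (finite_lt_nat n) fun j _ => (hO j).compl)
  · by_contra hc
    exact disjoint_left.1 (disjoint_disjointed O hc) (h1 z n (disjointed_subset O n h)) h

variable [CompactSpace K] [T2Space K] [Countable K]

theorem ret {W : Type*} [TopologicalSpace W] [CompactSpace W] [Nonempty W] {e : W → K}
    (h1 : Continuous e) (h2 : Function.Injective e) :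
    ∃ ρ : K → W, Continuous ρ ∧ ∀ w, ρ (e w) = w := by
  have : Nonempty K := ⟨e (Classical.arbitrary W)⟩
  obtain ⟨s, hs⟩ := exists_surjective_nat (K × K)
  have h3 : ∀ p : K × K, ∃ U, IsClopen U ∧ (p.1 ≠ p.2 → p.1 ∈ U ∧ p.2 ∈ Uᶜ) := fun p => by
    by_cases h : p.1 = p.2
    · exact ⟨∅, isClopen_empty, fun h' => absurd h h'⟩
    · obtain ⟨U, h3, h4⟩ := exists_isClopen_of_totally_separated h
      exact ⟨U, h3, fun _ => h4⟩
  choose U h3 h4 using h3
  have h5 : Continuous fun x n => (U (s n)).boolIndicator x :=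
    continuous_pi fun n => (continuous_boolIndicator_iff_isClopen _).2 (h3 _)
  obtain ⟨ρ, h6, h7⟩ := ret_cantor (h5.comp h1) fun w w' h => h2 <| by
    by_contra hc
    obtain ⟨n, hn⟩ := hs (e w, e w')
    have h8 : (U (s n)).boolIndicator (e w) = (U (s n)).boolIndicator (e w') := congrFun h n
    rw [hn, ((U _).mem_iff_boolIndicator _).1 (h4 (e w, e w') hc).1] at h8
    exact (h4 (e w, e w') hc).2 (((U _).mem_iff_boolIndicator _).2 h8.symm)
  exact ⟨_, h6.comp h5, h7⟩

theorem emb {T : Type*} [MetricSpace T] (F : Set K) (ρ : Ordinal.{0}) :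
    ∀ q ∈ F, q ∉ derivedSet (cb F ρ) → ∀ p ∈ cb (univ : Set T) ρ, ∀ r > 0,
      ∃ (O : Set K) (e : K → T), IsClopen O ∧ q ∈ O ∧ ContinuousOn e (F ∩ O) ∧ InjOn e (F ∩ O) ∧
        ∀ z ∈ F ∩ O, dist (e z) p < r := by
  classical
  induction ρ using WellFoundedLT.induction with
  | ind ρ ih =>
  intro q hq h1 p hp r r0
  rw [mem_derivedSet, accPt_iff_nhds] at h1
  push Not at h1
  obtain ⟨V, hV, h1⟩ := h1
  obtain ⟨O, hO, h2, h3⟩ :=
    compact_exists_isClopen_in_isOpen isOpen_interior (mem_interior_iff_mem_nhds.2 hV)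
  have : Nonempty K := ⟨q⟩
  obtain ⟨y, hy⟩ := exists_surjective_nat K
  have h4 : ∀ (n : ℕ) (s : ℝ), ∃ (t : ℝ) (U : Set K) (e : K → T), 0 < s → 0 < t ∧ t ≤ s / 2 ∧
      IsClopen U ∧ q ∉ U ∧ (y n ∈ F ∩ O → y n ≠ q → y n ∈ U) ∧ ContinuousOn e (F ∩ U) ∧
      InjOn e (F ∩ U) ∧ ∀ z ∈ F ∩ U, t < dist (e z) p ∧ dist (e z) p < s := fun n s => by
    by_cases h : 0 < s ∧ y n ∈ F ∩ O ∧ y n ≠ q
    · obtain ⟨s0, h4, h5⟩ := h
      obtain ⟨ξ, h6, -, h7⟩ := exists_rank (d := derivedSet) (γ := ρ) h4.1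
        fun h => h5 (h1 _ ⟨interior_subset (h3 h4.2), h⟩)
      obtain ⟨p', ⟨h8, h9⟩, h10⟩ := accPt_iff_nhds.1 ((mem_it.1 hp).2 ξ h6) _
        (Metric.ball_mem_nhds p (half_pos s0))
      have d0 := half_pos (dist_pos.2 h10)
      have d1 : dist p' p < s / 2 := h8
      obtain ⟨U, e, u1, u2, u3, u4, u5⟩ := ih ξ h6 _ h4.1 h7 p' h9 _ d0
      obtain ⟨U', v1, v2, v3⟩ := compact_exists_isClopen_in_isOpen (isOpen_compl_singleton (x := q)) h5
      have h11 : F ∩ (U ∩ U') ⊆ F ∩ U := inter_subset_inter_right _ inter_subset_left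
      refine ⟨_, U ∩ U', e, fun _ => ⟨d0, by linarith, u1.inter v1, fun h => v3 h.2 rfl,
        fun _ _ => ⟨u2, v2⟩, u3.mono h11, u4.mono h11, fun z hz => ?_⟩⟩
      have h12 := u5 z (h11 hz)
      constructor <;> linarith only [dist_triangle (e z) p' p, dist_triangle_left p' p (e z), h12, d0, d1]
    · exact ⟨s / 2, ∅, fun _ => p, fun s0 => ⟨half_pos s0, le_rfl, isClopen_empty, id,
        fun h5 h6 => absurd ⟨s0, h5, h6⟩ h, continuousOn_const, by simp, by simp only [inter_empty, mem_empty_iff_false, dist_self, IsEmpty.forall_iff, implies_true]⟩⟩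
  choose t U e h4 using h4
  let s : ℕ → ℝ := fun n => Nat.rec r t n
  have s0 : ∀ n, 0 < s n := fun n => by
    induction n with
    | zero => exact r0
    | succ n ih => exact (h4 n _ ih).1
  replace h4 := fun n => h4 n _ (s0 n)
  have s1 : Antitone s := antitone_nat_of_succ_le fun n => (h4 n).2.1.trans (half_le_self (s0 n).le)
  have s2 : ∀ n, s n ≤ r * (1 / 2) ^ n := fun n => by
    induction n with
    | zero => simp [s]
    | succ n ih => exact (h4 n).2.1.trans (by rw [pow_succ]; linarith only [ih])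
  obtain ⟨W, ν, w1, w2, w3, w4⟩ := idx fun n => (h4 n).2.2.1
  have h5 : ∀ z ∈ F ∩ O, z ≠ q → z ∈ W (ν z) := fun z hz h => by
    obtain ⟨n, rfl⟩ := hy z
    exact w3 _ n ((h4 n).2.2.2.2.1 hz h)
  have h6 : ∀ z ∈ F ∩ O, z ≠ q → s (ν z + 1) < dist (e (ν z) (s (ν z)) z) p ∧
      dist (e (ν z) (s (ν z)) z) p < s (ν z) := fun z hz h =>
    (h4 _).2.2.2.2.2.2.2 z ⟨hz.1, w2 _ (h5 z hz h)⟩
  refine ⟨O, fun z => if z = q then p else e (ν z) (s (ν z)) z, hO, h2, fun z hz => ?_,
    fun z hz z' hz' h => ?_, fun z hz => ?_⟩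
  · rcases eq_or_ne z q with rfl | h
    · refine Metric.tendsto_nhds.2 fun ε hε => ?_
      obtain ⟨N, hN⟩ := (((tendsto_pow_atTop_nhds_zero_of_lt_one (r := (1 / 2 : ℝ)) (by norm_num)
        (by norm_num)).const_mul r).eventually_lt_const (by simpa using hε)).exists
      filter_upwards [self_mem_nhdsWithin, mem_nhdsWithin_of_mem_nhds
        ((eventually_all_finite (finite_lt_nat N)).2 fun n _ =>
          (h4 n).2.2.1.compl.isOpen.mem_nhds (h4 n).2.2.2.1)] with z' h7 h8
      rw [if_pos rfl]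
      split_ifs with h9
      · simpa using hε
      · refine ((h6 z' h7 h9).2.trans_le (s1 (not_lt.1 fun h10 => ?_))).trans ((s2 N).trans_lt hN)
        exact h8 _ h10 (w2 _ (h5 z' h7 h9))
    · have h7 := (w1 _).isOpen.mem_nhds (h5 z hz h)
      refine (((h4 (ν z)).2.2.2.2.2.1 z ⟨hz.1, w2 _ (h5 z hz h)⟩).mono_of_mem_nhdsWithin
        ?_).congr_of_eventuallyEq ?_ (if_neg h)
      · filter_upwards [self_mem_nhdsWithin, mem_nhdsWithin_of_mem_nhds h7] with z' h8 h9
        exact ⟨h8.1, w2 _ h9⟩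
      · filter_upwards [mem_nhdsWithin_of_mem_nhds h7] with z' h8
        rw [if_neg fun h9 => (h4 _).2.2.2.1 (h9 ▸ w2 _ h8), w4 _ _ h8]
  · have h7 : ∀ z ∈ F ∩ O, z ≠ q → e (ν z) (s (ν z)) z ≠ p := fun z hz h =>
      dist_pos.1 ((s0 (ν z + 1)).trans (h6 z hz h).1)
    by_cases h8 : z = q <;> by_cases h9 : z' = q <;> simp only [h8, h9, if_true, if_false] at h
    · rw [h8, h9]
    · exact absurd h.symm (h7 z' hz' h9)
    · exact absurd h (h7 z hz h8)
    · have h10 := h6 z hz h8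
      have h11 := h6 z' hz' h9
      rw [h] at h10
      have h12 : ν z = ν z' := le_antisymm (not_lt.1 fun h => by linarith only [s1 (Nat.succ_le_of_lt h), h10, h11])
        (not_lt.1 fun h => by linarith only [s1 (Nat.succ_le_of_lt h), h10, h11])
      rw [← h12] at h
      exact (h4 _).2.2.2.2.2.2.1 ⟨hz.1, w2 _ (h5 z hz h8)⟩ ⟨hz'.1, w2 _ (h12 ▸ h5 z' hz' h9)⟩ h
  · dsimp only
    split_ifs with h
    · simpa using r0
    · exact (h6 z hz h).2.trans_le (s1 (Nat.zero_le _))

variable {X G : Type*} [NormedAddCommGroup X] [NormedSpace ℂ X] [NormedAddCommGroup G]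
  [NormedSpace ℂ G] {T : Type*} [TopologicalSpace T] [T2Space T] [LocallyCompactSpace T]
  [Countable T]

omit [Countable K] [T2Space K] in
theorem ext_op {W : Set K} (hW : IsClosed W) {e : K → T} (h1 : ContinuousOn e W) (h2 : InjOn e W) :
    ∃ J : C(K, X) →L[ℂ] C₀(T, X), (∀ f c, 0 ≤ c → (∀ z ∈ W, ‖f z‖ ≤ c) → ‖J f‖ ≤ c) ∧
      ∀ f, ∀ z ∈ W, J f (e z) = f z := by
  rcases W.eq_empty_or_nonempty with rfl | h
  · exact ⟨0, fun _ _ h _ => by simpa only [zero_apply, norm_zero] using h, by simp⟩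
  have := h.to_subtype
  have := isCompact_iff_compactSpace.1 hW.isCompact
  have : Countable (OnePoint T) := inferInstanceAs (Countable (Option T))
  obtain ⟨ρ, h3, h4⟩ := ret (e := fun w : W => (e w : OnePoint T))
    (continuous_coe.comp h1.domRestrict) fun w w' h => Subtype.ext (h2 w.2 w'.2 (coe_injective h))
  obtain ⟨χ, h8, -, h9, h10⟩ := exists_continuous_one_zero_of_isCompact
    (hW.isCompact.image_of_continuousOn h1) isClosed_empty (by simp)
  obtain ⟨U, hU⟩ : ∃ U : T → C(K, X) →L[ℂ] X, ∀ y g, U y g = (χ y : ℂ) • g (ρ y) :=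
    ⟨fun y => (χ y : ℂ) • ContinuousMap.evalCLM ℂ (ρ y : K), fun y g => by
      rw [_root_.smul_apply, ContinuousMap.evalCLM_apply]⟩
  have h5 : ∀ y g, ‖U y g‖ ≤ ‖g (ρ y)‖ := fun y g => by
    rw [hU, norm_smul, Complex.norm_real, Real.norm_of_nonneg (h10 y).1]
    exact mul_le_of_le_one_left (norm_nonneg _) (h10 y).2
  refine ⟨toL U 1 zero_le_one
    (fun y g => (h5 y g).trans ((g.norm_coe_le_norm _).trans_eq (one_mul _).symm)) (fun g => ?_)
      fun g => (HasCompactSupport.intro h9 fun y hy => ?_).is_zero_at_infty,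
    fun f c c0 h => c0L_le c0 fun y => (h5 y f).trans (h _ (ρ y).2), fun f z hz => (hU _ f).trans ?_⟩
  · simp only [hU]
    exact (Complex.continuous_ofReal.comp χ.continuous).smul
      (g.continuous.comp (continuous_subtype_val.comp (h3.comp continuous_coe)))
  · rw [hU, image_eq_zero_of_notMem_tsupport hy, Complex.ofReal_zero, zero_smul]
  · rw [h4 ⟨z, hz⟩, h8 (mem_image_of_mem e hz)]
    simp

theorem fac_layer [SecondCountableTopology T] {F : Set K} (hF : IsClosed F) {γ : Ordinal.{0}}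
    (hT : ∀ ξ < γ, (cb (univ : Set T) ξ).Nonempty) [Nonempty T] (P : G →L[ℂ] C(K, X))
    (hP : ∀ g, ∀ z ∈ cb F γ, P g z = 0) :
    ∃ (J : G →L[ℂ] C₀(ℕ, C₀(T, X))) (R : C₀(ℕ, C₀(T, X)) →L[ℂ] C(K, X)),
      ∀ g, ∀ z ∈ F, R (J g) z = P g z := by
  classical
  rcases F.eq_empty_or_nonempty with rfl | h
  · exact ⟨0, 0, by simp⟩
  have := h.to_subtype
  have := isCompact_iff_compactSpace.1 hF.isCompact
  have : Nonempty K := ⟨h.some⟩
  obtain ⟨r, r1, r2⟩ := ret (continuous_subtype_val (p := (· ∈ F))) Subtype.val_injective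
  obtain ⟨y, hy⟩ := exists_surjective_nat K
  let := TopologicalSpace.metrizableSpaceMetric T
  have h1 : ∀ n, ∃ (O : Set K) (e : K → T), IsClopen O ∧ (y n ∈ F → y n ∉ cb F γ → y n ∈ O) ∧
      ContinuousOn e (F ∩ O) ∧ InjOn e (F ∩ O) := fun n => by
    by_cases h : y n ∈ F ∧ y n ∉ cb F γ
    · obtain ⟨ξ, h1, -, h2⟩ := exists_rank h.1 h.2
      obtain ⟨p, hp⟩ := hT ξ h1
      obtain ⟨O, e, h3, h4, h5, h6, -⟩ := emb F ξ _ h.1 h2 p hp 1 one_pos
      exact ⟨O, e, h3, fun _ _ => h4, h5, h6⟩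
    · exact ⟨∅, fun _ => Classical.arbitrary T, isClopen_empty, fun h1 h2 => absurd ⟨h1, h2⟩ h,
        continuousOn_const, by simp⟩
  choose O e h1 h2 h3 h4 using h1
  obtain ⟨U, ν, u1, u2, u3, u4⟩ := idx h1
  have h5 : ∀ n, F ∩ U n ⊆ F ∩ O n := fun n => inter_subset_inter_right _ (u2 n)
  choose J h6 h7 using fun n =>
    ext_op (X := X) (hF.inter (u1 n).isClosed) ((h3 n).mono (h5 n)) ((h4 n).mono (h5 n))
  have h8 : ∀ z ∈ F, z ∉ cb F γ → z ∈ U (ν z) := fun z h8 h9 => by
    obtain ⟨n, rfl⟩ := hy z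
    exact u3 _ n (h2 n h8 h9)
  obtain ⟨E, e1, e2⟩ : ∃ E : K → C₀(ℕ, C₀(T, X)) →L[ℂ] X,
      (∀ z n, z ∈ U n → ∀ f, E z f = f n (e n z)) ∧ ∀ z, z ∉ U (ν z) → ∀ f, E z f = 0 :=
    ⟨fun z => if z ∈ U (ν z) then evL (e (ν z) z) ∘L ev (ν z) else 0, fun z n h f => by
      obtain rfl := u4 z n h
      exact DFunLike.congr_fun (if_pos h) f, fun z h f => DFunLike.congr_fun (if_neg h) f⟩
  have e3 : ∀ z f c, 0 ≤ c → (z ∈ U (ν z) → ‖f (ν z)‖ ≤ c) → ‖E z f‖ ≤ c := fun z f c c0 h => by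
    by_cases h9 : z ∈ U (ν z)
    · rw [e1 z _ h9]
      exact (evL_le _ _).trans (h h9)
    · rwa [e2 z h9, norm_zero]
  have e4 : ∀ f, ContinuousOn (fun z => E z f) F := fun f z hz => by
    by_cases h9 : z ∈ U (ν z)
    · have h10 := mem_nhdsWithin_of_mem_nhds (t := F) ((u1 _).isOpen.mem_nhds h9)
      refine ((f (ν z)).continuous.continuousAt.comp_continuousWithinAt
        ((h3 _ z (h5 _ ⟨hz, h9⟩)).mono_of_mem_nhdsWithin ?_)).congr_of_eventuallyEq ?_ (e1 z _ h9 f)
      · filter_upwards [self_mem_nhdsWithin, h10] with z' h11 h12 using h5 _ ⟨h11, h12⟩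
      · filter_upwards [h10] with z' h11 using e1 z' _ h11 f
    · rw [ContinuousWithinAt, e2 z h9]
      refine NormedAddGroup.tendsto_nhds_zero.2 fun ε hε => ?_
      obtain ⟨N, hN⟩ := eventually_atTop.1
        (NormedAddGroup.tendsto_nhds_zero.1 (c0_tendsto f) _ (half_pos hε))
      filter_upwards [mem_nhdsWithin_of_mem_nhds ((eventually_all_finite (finite_lt_nat N)).2
        fun n _ => (u1 n).compl.isOpen.mem_nhds fun h => h9 (u3 z n (u2 n h)))] with z' h10
      exact (e3 z' f _ (half_pos hε).le fun h => (hN _ (not_lt.1 fun h' => h10 _ h' h)).le).trans_lt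
        (half_lt_self hε)
  refine ⟨toC0 (fun n => J n ∘L P) ‖P‖ (fun n g => h6 n _ _ (by positivity) fun z _ =>
      ((P g).norm_coe_le_norm z).trans (P.le_opNorm g)) fun g => ?_,
    toC (fun z => E (r z)) 1 zero_le_one (fun z f => e3 _ f _ (by positivity) fun _ =>
      (c0_apply_le f _).trans_eq (one_mul _).symm)
      fun f => (e4 f).comp_continuous (continuous_subtype_val.comp r1) fun z => (r z).2,
    fun g z hz => ?_⟩
  · refine NormedAddGroup.tendsto_nhds_zero.2 fun ε hε => ?_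
    obtain ⟨t, ht⟩ := (hF.inter (isClosed_le continuous_const (P g).continuous.norm) :
      IsClosed (F ∩ {z | ε / 2 ≤ ‖P g z‖})).isCompact.elim_finite_subcover U (fun n => (u1 n).isOpen)
        fun z hz => mem_iUnion.2 ⟨_, h8 z hz.1 fun h => by
          have h9 : ε / 2 ≤ ‖P g z‖ := hz.2
          rw [hP g z h, norm_zero] at h9
          linarith⟩
    filter_upwards [eventually_gt_atTop (t.sup id)] with n hn
    refine (h6 n _ _ (half_pos hε).le fun z hz => le_of_not_ge fun h => ?_).trans_lt (half_lt_self hε)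
    obtain ⟨m, h9, h10⟩ := mem_iUnion₂.1 (ht ⟨hz.1, h⟩)
    rw [← u4 z n hz.2, u4 z m h10] at hn
    exact hn.not_ge (Finset.le_sup (f := id) h9)
  · change E (r (⟨z, hz⟩ : F)) _ = _
    rw [r2]
    by_cases h9 : z ∈ U (ν z)
    · exact (e1 z _ h9 _).trans (h7 _ _ z ⟨hz, h9⟩)
    · exact (e2 z h9 _).trans (hP g z (not_not.1 fun h => h9 (h8 z hz h))).symm

theorem fac_all [SecondCountableTopology T] [Nonempty T] {γ : Ordinal.{0}}
    (hT : ∀ ξ < γ, (cb (univ : Set T) ξ).Nonempty) (k : ℕ) : ∀ F : Set K, IsClosed F →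
      cb F (γ * k) = ∅ → ∃ (J : C(K, X) →L[ℂ] C₀(ℕ, C₀(T, X))) (R : C₀(ℕ, C₀(T, X)) →L[ℂ] C(K, X)),
        ∀ f, ∀ z ∈ F, R (J f) z = f z := by
  induction k with
  | zero =>
    intro F _ h
    rw [Nat.cast_zero, mul_zero, cb, it_zero] at h
    exact ⟨0, 0, by simp [h]⟩
  | succ k ih =>
    intro F hF h
    rw [add_comm, Nat.cast_add, Nat.cast_one, mul_add, mul_one, cb, it_add] at h
    obtain ⟨J, R, h1⟩ := ih _ (cb_closed hF) h
    obtain ⟨J', R', h2⟩ := fac_layer hF hT (1 - R ∘L J) fun f z hz => sub_eq_zero.2 (h1 f z hz).symm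
    refine ⟨c0two.symm.toContinuousLinearMap ∘L J.prod J', R.coprod R' ∘L c0two.toContinuousLinearMap,
      fun f z hz => ?_⟩
    simp [h2 f z hz]

omit [Countable T]

variable {T' : Type*} [TopologicalSpace T'] [T2Space T'] [LocallyCompactSpace T']

open Ordinal in
theorem cp_of_height [CompleteSpace X] [SecondCountableTopology T] [SecondCountableTopology T']
    [Nonempty T] (hX : Cp C₀(ℕ, X) X) (h : ∀ α : Ordinal.{0}, 0 < α →
      (∃ ξ < ω ^ α, cb (Set.univ : Set T) ξ = ∅) → ∃ ξ < ω ^ α, cb (Set.univ : Set T') ξ = ∅) :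
    Cp C₀(T', X) C₀(T, X) := by
  refine cp_onePoint.trans ?_
  by_cases hT : Countable T
  · obtain ⟨γ, h1, h2⟩ := (wellFounded_lt (α := Ordinal.{0})).has_min _ (scattered (X := T))
    have h3 : γ ≠ 0 := by
      rintro rfl
      exact Set.univ_nonempty.ne_empty (it_zero.symm.trans h1)
    obtain ⟨ξ, h4, h5⟩ := h _ (Order.bot_lt_succ _) ⟨γ, lt_opow_succ_log_self one_lt_omega0 γ, h1⟩
    obtain ⟨k, hk⟩ := lt_omega0_opow_succ.1 h4
    have := countable_of h5
    have : Countable (OnePoint T') := inferInstanceAs (Countable (Option T'))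
    obtain ⟨J, R, h6⟩ := fac_all (X := X) (fun ξ hξ => nonempty_iff_ne_empty.2 fun h => h2 ξ h hξ) k
      _ isClosed_univ (it_empty (cb_onePoint h5)
        ((Order.add_one_le_of_lt hk).trans (mul_le_mul_left (opow_log_le_self _ h3) _)))
    exact Cp.trans ⟨J, R, fun f => ContinuousMap.ext fun z => h6 f z trivial⟩ (cp_swap hX)
  · have := sc_onePoint (T := T')
    exact cp_cantor.trans (cantor_cp hT)

theorem sc_of_sep [TopologicalSpace.SeparableSpace C₀(T, X)] {f : X} (hf : 1 ≤ ‖f‖) :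
    SecondCountableTopology T := by
  obtain ⟨g, hg⟩ := TopologicalSpace.exists_dense_seq C₀(T, X)
  refine (TopologicalSpace.isTopologicalBasis_of_isOpen_of_nhds
    (s := range fun n => {y | 1 / 2 < ‖g n y‖}) ?_ fun a u h1 h2 => ?_).secondCountableTopology
      (countable_range _)
  · rintro _ ⟨n, rfl⟩
    exact isOpen_lt continuous_const (g n).continuous.norm
  · obtain ⟨x, h3, -, h4⟩ := (fn0 T X).bump h2 h1 f
    obtain ⟨n, hn⟩ := hg.exists_dist_lt x one_half_pos
    have h5 : ∀ y, ‖x y - g n y‖ < 1 / 2 := fun y =>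
      (evL_le y (x - g n)).trans_lt (dist_eq_norm x (g n) ▸ hn)
    refine ⟨_, ⟨n, rfl⟩, ?_, fun y hy => not_not.1 fun h => ?_⟩
    · have h6 : x a = f := h3
      change 1 / 2 < ‖g n a‖
      linarith [norm_sub_norm_le (x a) (g n a), h5 a, congrArg norm h6]
    · have h6 := h5 y
      rw [show x y = 0 from h4 y h, zero_sub, norm_neg] at h6
      exact lt_asymm h6 hy

theorem height' (h : Cp C₀(T', DA) C₀(T, DA)) {α : Ordinal.{0}} (hα : 0 < α) :
    (∃ ξ < Ordinal.omega0 ^ α, cb (univ : Set T) ξ = ∅) →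
      ∃ ξ < Ordinal.omega0 ^ α, cb (univ : Set T') ξ = ∅ := by
  rintro ⟨ξ, h1, h2⟩
  obtain ⟨D⟩ := model
  obtain ⟨J, R, h3⟩ := h.trans cp_onePoint
  exact height D (fn0 T' DA) J R h3 hα.ne'
    ((Ordinal.isSuccLimit_opow_left Ordinal.isSuccLimit_omega0 hα.ne').add_one_lt h1)
    (cb_onePoint h2)

theorem main [SecondCountableTopology T] [Nonempty T] [Nonempty T'] :
    Nonempty (C₀(T', DA) ≃L[ℂ] C₀(T, DA)) ↔ SecondCountableTopology T' ∧
      ∀ α : Ordinal.{0}, 0 < α → ((∃ ξ < Ordinal.omega0 ^ α, cb (univ : Set T') ξ = ∅) ↔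
        ∃ ξ < Ordinal.omega0 ^ α, cb (univ : Set T) ξ = ∅) := by
  refine ⟨fun ⟨e⟩ => ⟨?_, fun α hα => ⟨height' ⟨e.symm, e, e.apply_symm_apply⟩ hα,
    height' ⟨e, e.symm, e.symm_apply_apply⟩ hα⟩⟩, fun ⟨_, h⟩ => (cp_swap sum_compl).iso
      (cp_of_height sum_compl fun α hα => (h α hα).2) (cp_of_height sum_compl fun α hα => (h α hα).1)⟩
  obtain ⟨D⟩ := model
  obtain ⟨J, R, h⟩ := Cp.trans (X := C₀(T', DA)) (Y := C₀(T, DA)) ⟨e, e.symm, e.symm_apply_apply⟩
    cp_onePoint
  have := sc_onePoint (T := T)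
  have := (Function.LeftInverse.isEmbedding h R.continuous J.continuous).secondCountableTopology
  exact sc_of_sep ((D.z_norm 0).ge.trans (D.b_le _ 0))

end

end Pool.Agent.MP_eed7cf_an.H42

end
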