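import Mathlib

attribute [-instance] SubringClass.toSeminormedRing RKHS.instFunLike SubfieldClass.toSubringClass
  NonUnitalStarSubalgebra.nonUnitalCStarAlgebra CommRing.toRing Subalgebra.smulCommClass_right
  TotallySeparatedSpace.t2Space NormedRing.toNonUnitalNormedRing SubringClass.toSeminormedCommRing
  NonarchimedeanAddGroup.toIsTopologicalAddGroup SubringClass.toRing
  SemilinearIsometryClass.toSemilinearMapClass Valued.toUniformSpace
  RingHomClass.toLinearMapClassNNRat CoalgHomClass.toSemilinearMapClass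
  ZeroAtInftyContinuousMap.instNonUnitalNormedCommRing RingHomClass.toLinearMapClassRat
  SeminormedRing.toNonUnitalSeminormedRing AddQuantale.instAddLeftMono
  NonarchimedeanRing.toIsTopologicalRing StarSubalgebra.cstarAlgebra
  NonUnitalAlgSemiHomClass.toDistribMulActionSemiHomClass
  NonUnitalNormedRing.toNonUnitalSeminormedRing SubringClass.toCommRing LieAdmissibleAlgebra.toModule
  NonUnitalCommCStarAlgebra.toNonUnitalNormedCommRing MonTypeEquivalenceMon.monMonoid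
  littleWedderburn RightPreLieAlgebra.toModule IdemSemiring.toCanonicallyOrderedAdd
  LeftPreLieAlgebra.toModule NonUnitalCStarAlgebra.toNonUnitalNormedRing
  ZeroAtInftyContinuousMap.instNonUnitalSeminormedCommRing NonAssocRing.toNonUnitalNonAssocRing
  ZeroAtInftyContinuousMap.instNonUnitalSeminormedRing AddSubgroupClass.normedAddCommGroup
  IsIsometricSMul.to_continuousConstSMul MulZeroOneClass.toMulZeroClass NumberField.to_charZero
  ContinuousMonoidHom.instCoeOutOfMonoidHomClassOfContinuousMapClass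
  NonUnitalSemiring.toNonUnitalNonAssocSemiring Valued.isTopologicalDivisionRing
  IsTopologicalSemiring.toContinuousAdd instCoeTCOfCoe GroupConeClass.toSubmonoidClass
  NormedRing.toRing MonoidWithZeroHomClass.toZeroHomClass
  LinearOrderedCommMonoidWithZero.toPosMulStrictMono AddQuantale.instAddRightMono
  LieAdmissibleRing.toNonUnitalNonAssocRing IdemSemiring.toSemiring
  CommMonTypeEquivalenceCommMon.commMonCommMonoid IsValuativeTopology.instIsTopologicalAddGroup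
  GrpTypeEquivalenceGrp.grpGroup DenselyNormedField.toNormedField
  NonUnitalSeminormedCommRing.toNonUnitalCommRing ProperSMul.toContinuousSMul LieRing.toAddCommGroup
  NonUnitalNonAssocCommSemiring.toNonUnitalNonAssocSemiring NonUnitalNormedRing.toNonUnitalRing
  MulSemiringAction.toDistribMulAction Topology.IsLowerSet.toAlexandrovDiscrete
  AddGroupConeClass.toAddSubmonoidClass NonAssocCommSemiring.toNonAssocSemiring
  NormedCommRing.toCommRing Quantale.instMulRightMono NonUnitalNormedCommRing.toNonUnitalCommRing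
  SubringClass.toNormedCommRing EuclideanDomain.toCommRing
  ZeroAtInftyContinuousMap.instNonUnitalCommCStarAlgebra NonAssocCommRing.toNonUnitalNonAssocCommRing
  IsModuleTopology.toContinuousSMul Action.FintypeCat.instMulActionObjFiniteOf
  MulSemiringActionSemiHomClass.toDistribMulActionSemiHomClass NonUnitalCStarAlgebra.toSMulCommClass
  NonUnitalNormedCommRing.toNonUnitalSeminormedCommRing AddCommGroupWithOne.toAddCommGroup
  IsometryClass.instCoeOutIsometryEquiv ZeroAtInftyContinuousMap.instNonUnitalNonAssocRing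
  AddCommMonoidWithOne.toAddCommMonoid AlgHomClass.toRingHomClass
  LeftPreLieRing.toNonUnitalNonAssocRing Nontrivial.to_nonempty
  ZeroAtInftyContinuousMap.instNonUnitalCStarAlgebra NonUnitalSubalgebraClass.nonUnitalSeminormedRing
  TopologicalSpace.UpgradedIsCompletelyPseudoMetrizableSpace.toPseudoMetricSpace
  DiscreteUniformity.instDiscreteTopology AddCommGroupWithOne.toAddGroupWithOne

-- part MP_eed7cf_an.C0
section

/-!
Sums of type c-zero and the decomposition method.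
-/

set_option autoImplicit false

namespace Pool.Agent.MP_eed7cf_an

open Filter Topology ZeroAtInfty

noncomputable section

variable {E F G : Type*} [NormedAddCommGroup E] [NormedSpace ℂ E] [NormedAddCommGroup F]
  [NormedSpace ℂ F] [NormedAddCommGroup G] [NormedSpace ℂ G]

omit [NormedSpace ℂ E] in
theorem c0_apply_le (x : C₀(ℕ, E)) (n : ℕ) : ‖x n‖ ≤ ‖x‖ := x.toBCF.norm_coe_le_norm n

omit [NormedSpace ℂ E] in
theorem c0_norm_le {x : C₀(ℕ, E)} {c : ℝ} (h : ∀ n, ‖x n‖ ≤ c) : ‖x‖ ≤ c :=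
  (BoundedContinuousFunction.norm_le ((norm_nonneg _).trans (h 0))).2 h

omit [NormedSpace ℂ E] in
theorem c0_tendsto (x : C₀(ℕ, E)) : Tendsto x atTop (𝓝 0) := by
  simpa only [cocompact_eq_cofinite, Nat.cofinite_eq_atTop] using zero_at_infty x

/-- the coordinates -/
def ev (n : ℕ) : C₀(ℕ, E) →L[ℂ] E :=
  LinearMap.mkContinuous
    { toFun := fun x => x n, map_add' := fun _ _ => rfl, map_smul' := fun _ _ => rfl } 1
    fun x => by simpa only [LinearMap.coe_mk, AddHom.coe_mk, one_mul] using c0_apply_le x n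

@[simp] theorem ev_apply (n : ℕ) (x : C₀(ℕ, E)) : ev n x = x n := rfl

/-- an operator into a sum, from its coordinates -/
def toC0 (L : ℕ → F →L[ℂ] E) (c : ℝ) (hc : ∀ n x, ‖L n x‖ ≤ c * ‖x‖)
    (h0 : ∀ x, Tendsto (fun n => L n x) atTop (𝓝 0)) : F →L[ℂ] C₀(ℕ, E) :=
  LinearMap.mkContinuous
    { toFun := fun x => ⟨⟨fun n => L n x, continuous_of_discreteTopology⟩, by
        rw [cocompact_eq_cofinite, Nat.cofinite_eq_atTop]; exact h0 x⟩
      map_add' := fun x y => ZeroAtInftyContinuousMap.ext fun n => map_add (L n) x y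
      map_smul' := fun a x => ZeroAtInftyContinuousMap.ext fun n => map_smul (L n) a x } c
    fun x => c0_norm_le fun n => hc n x

@[simp] theorem toC0_apply (L : ℕ → F →L[ℂ] E) (c : ℝ) (hc) (h0) (x : F) (n : ℕ) :
    toC0 L c hc h0 x n = L n x := rfl

/-- the coordinatewise operator -/
def c0map (T : E →L[ℂ] F) : C₀(ℕ, E) →L[ℂ] C₀(ℕ, F) :=
  toC0 (fun n => T ∘L ev n) ‖T‖
    (fun n x => (T.le_opNorm _).trans (mul_le_mul_of_nonneg_left (c0_apply_le x n) (norm_nonneg _)))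
    fun x => (T.continuous.tendsto' 0 0 T.map_zero).comp (c0_tendsto x)

@[simp] theorem c0map_apply (T : E →L[ℂ] F) (x : C₀(ℕ, E)) (n : ℕ) : c0map T x n = T (x n) := rfl

/-- a subsequence -/
def c0sub (u : ℕ → ℕ) (hu : Tendsto u atTop atTop) : C₀(ℕ, E) →L[ℂ] C₀(ℕ, E) :=
  toC0 (fun n => ev (u n)) 1 (fun n x => by simpa only [ev_apply, one_mul] using c0_apply_le x _)
    fun x => (c0_tendsto x).comp hu

@[simp] theorem c0sub_apply (u : ℕ → ℕ) (hu) (x : C₀(ℕ, E)) (n : ℕ) : c0sub u hu x n = x (u n) :=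
  rfl

def c0congr (e : E ≃L[ℂ] F) : C₀(ℕ, E) ≃L[ℂ] C₀(ℕ, F) :=
  .equivOfInverse (c0map e) (c0map e.symm) (fun x => by ext n; simp only [c0map_apply, ContinuousLinearEquiv.coe_coe, ContinuousLinearEquiv.symm_apply_apply]) fun x => by ext n; simp only [c0map_apply, ContinuousLinearEquiv.coe_coe, ContinuousLinearEquiv.apply_symm_apply]

def c0prod : C₀(ℕ, E × F) ≃L[ℂ] C₀(ℕ, E) × C₀(ℕ, F) :=
  .equivOfInverse ((c0map (.fst ℂ E F)).prod (c0map (.snd ℂ E F)))
    ((c0map (.inl ℂ E F)).coprod (c0map (.inr ℂ E F))) (fun x => by ext n <;> simp only [ContinuousLinearMap.prod_apply, ContinuousLinearMap.coprod_apply, ZeroAtInftyContinuousMap.coe_add, Pi.add_apply, c0map_apply, ContinuousLinearMap.coe_fst', ContinuousLinearMap.inl_apply, ContinuousLinearMap.coe_snd', ContinuousLinearMap.inr_apply, Prod.mk_add_mk, add_zero, zero_add, Prod.mk.eta])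
    fun x => by ext n <;> simp

def c0shift : C₀(ℕ, E) ≃L[ℂ] E × C₀(ℕ, E) :=
  .equivOfInverse ((ev 0).prod (c0sub (· + 1) (tendsto_add_atTop_nat 1)))
    (toC0 (fun n => if n = 0 then .fst ℂ _ _ else ev (n - 1) ∘L .snd ℂ _ _) 1
      (fun n x => by
        split_ifs
        · simpa only [ContinuousLinearMap.coe_fst', one_mul] using norm_fst_le x
        · simpa only [ContinuousLinearMap.comp_apply, ContinuousLinearMap.coe_snd', ev_apply, one_mul] using (c0_apply_le x.2 _).trans (norm_snd_le x))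
      fun x => (tendsto_add_atTop_iff_nat 1).1 (by simpa only [Nat.add_eq_zero_iff, one_ne_zero, and_false, ↓ reduceIte, add_tsub_cancel_right, ContinuousLinearMap.comp_apply, ContinuousLinearMap.coe_snd', ev_apply] using c0_tendsto x.2))
    (fun x => by ext n; cases n <;> simp only [ContinuousLinearMap.prod_apply, ev_apply, toC0_apply, ↓ reduceIte, ContinuousLinearMap.coe_fst', Nat.add_eq_zero_iff, one_ne_zero, and_false, add_tsub_cancel_right, ContinuousLinearMap.comp_apply, ContinuousLinearMap.coe_snd', c0sub_apply]) fun x => by ext n <;> simp only [ContinuousLinearMap.prod_apply, ev_apply, toC0_apply, ↓ reduceIte, ContinuousLinearMap.coe_fst', c0sub_apply, Nat.add_eq_zero_iff, one_ne_zero, and_false, add_tsub_cancel_right, ContinuousLinearMap.comp_apply, ContinuousLinearMap.coe_snd']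

def c0two : C₀(ℕ, E) ≃L[ℂ] C₀(ℕ, E) × C₀(ℕ, E) :=
  .equivOfInverse
    ((c0sub (fun n => 2 * n) (tendsto_id.const_mul_atTop' two_pos)).prod
      (c0sub (fun n => 2 * n + 1)
        ((tendsto_add_atTop_nat 1).comp (tendsto_id.const_mul_atTop' two_pos))))
    (toC0 (fun n => ev (n / 2) ∘L if n % 2 = 0 then .fst ℂ _ _ else .snd ℂ _ _) 1
      (fun n x => by
        split_ifs
        · simpa only [ContinuousLinearMap.comp_apply, ContinuousLinearMap.coe_fst', ev_apply, one_mul] using (c0_apply_le x.1 _).trans (norm_fst_le x)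
        · simpa only [ContinuousLinearMap.comp_apply, ContinuousLinearMap.coe_snd', ev_apply, one_mul] using (c0_apply_le x.2 _).trans (norm_snd_le x))
      fun x => by
        have h := Nat.tendsto_div_const_atTop (n := 2) two_ne_zero
        refine (((c0_tendsto x.1).comp h).if' ((c0_tendsto x.2).comp h)
          (p := fun n => n % 2 = 0)).congr fun n => ?_
        split_ifs <;> rfl)
    (fun x => by
      ext n
      rcases Nat.even_or_odd' n with ⟨k, rfl | rfl⟩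
      · simp only [ContinuousLinearMap.prod_apply, toC0_apply, ne_eq, OfNat.ofNat_ne_zero, not_false_eq_true, mul_div_cancel_left₀, Nat.mul_mod_right, ↓ reduceIte, ContinuousLinearMap.comp_apply, ContinuousLinearMap.coe_fst', ev_apply, c0sub_apply]
      · simp only [ContinuousLinearMap.prod_apply, toC0_apply, show (2 * k + 1) / 2 = k by omega, Nat.mul_add_mod_self_left, Nat.mod_succ, one_ne_zero, ↓ reduceIte, ContinuousLinearMap.comp_apply, ContinuousLinearMap.coe_snd', ev_apply, c0sub_apply])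
    fun x => by
      ext n
      · simp only [ContinuousLinearMap.prod_apply, c0sub_apply, toC0_apply, ne_eq, OfNat.ofNat_ne_zero, not_false_eq_true, mul_div_cancel_left₀, Nat.mul_mod_right, ↓ reduceIte, ContinuousLinearMap.comp_apply, ContinuousLinearMap.coe_fst', ev_apply]
      · simp only [ContinuousLinearMap.prod_apply, c0sub_apply, toC0_apply, show (2 * n + 1) / 2 = n by omega, Nat.mul_add_mod_self_left, Nat.reduceMod, one_ne_zero, ↓ reduceIte, ContinuousLinearMap.comp_apply, ContinuousLinearMap.coe_snd', ev_apply]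

/-- a space containing a complemented copy of a sum absorbs the sum -/
theorem absorb {J : C₀(ℕ, E) →L[ℂ] F} {R : F →L[ℂ] C₀(ℕ, E)} (h : ∀ x, R (J x) = x) :
    Nonempty (F ≃L[ℂ] F × C₀(ℕ, E)) :=
  let e := ContinuousLinearEquiv.equivOfRightInverse R J h
  ⟨e.trans <| (c0two.prodCongr (.refl ℂ _)).trans <| (ContinuousLinearEquiv.prodAssoc ℂ _ _ _).trans <|
    ((ContinuousLinearEquiv.refl ℂ _).prodCongr e.symm).trans (.prodComm ℂ _ _)⟩

theorem pel {J : E →L[ℂ] F} {R : F →L[ℂ] E} (h : ∀ x, R (J x) = x) (a : E ≃L[ℂ] C₀(ℕ, E))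
    (e : E ≃L[ℂ] F × G) : Nonempty (E ≃L[ℂ] F) := by
  obtain ⟨u⟩ := absorb (J := J ∘L a.symm.toContinuousLinearMap) (R := a.toContinuousLinearMap ∘L R)
    fun x => by simp [h]
  let v := (c0congr e).trans c0prod
  exact ⟨a.trans <| v.trans <| (c0shift.prodCongr (.refl ℂ _)).trans <|
    (ContinuousLinearEquiv.prodAssoc ℂ _ _ _).trans <|
      ((ContinuousLinearEquiv.refl ℂ _).prodCongr v.symm).trans u.symm⟩

/-- the decomposition method -/
theorem primary_of {J : C₀(ℕ, E) →L[ℂ] E} {R : E →L[ℂ] C₀(ℕ, E)} (h : ∀ x, R (J x) = x)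
    (hf : ∀ S : E →L[ℂ] E, (∃ J R : E →L[ℂ] E, ∀ x, R (S (J x)) = x) ∨
      ∃ J R : E →L[ℂ] E, ∀ x, R (J x - S (J x)) = x)
    (e : C₀(ℕ, E) ≃L[ℂ] F × G) : Nonempty (E ≃L[ℂ] F) ∨ Nonempty (E ≃L[ℂ] G) := by
  obtain ⟨u⟩ := absorb h
  let a := u.trans c0shift.symm
  let b := a.trans e
  let b1 := b.toContinuousLinearMap
  let b2 := b.symm.toContinuousLinearMap
  rcases hf (b2 ∘L .inl ℂ F G ∘L .fst ℂ F G ∘L b1) with ⟨J, R, h⟩ | ⟨J, R, h⟩
  · exact .inl (pel (J := .fst ℂ F G ∘L b1 ∘L J) (R := R ∘L b2 ∘L .inl ℂ F G) h a b)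
  · refine .inr (pel (J := .snd ℂ F G ∘L b1 ∘L J) (R := R ∘L b2 ∘L .inr ℂ F G)
      (fun x => Eq.trans ?_ (h x)) a (b.trans (.prodComm ℂ _ _)))
    refine congrArg R (b.injective ?_)
    ext <;> simp [b1, b2]

/-- a small perturbation of a nonzero scalar has a left inverse -/
theorem left_inv [CompleteSpace E] (S : E →L[ℂ] E) {d : ℂ} {c : ℝ} (h0 : 0 ≤ c) (hc : c < ‖d‖)
    (h : ∀ x, ‖S x - d • x‖ ≤ c * ‖x‖) : ∃ U : E →L[ℂ] E, ∀ x, U (S x) = x := by
  have d0 : 0 < ‖d‖ := h0.trans_lt hc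
  have d1 : d ≠ 0 := norm_pos_iff.1 d0
  have h1 : ‖1 - d⁻¹ • S‖ < 1 := by
    refine (ContinuousLinearMap.opNorm_le_bound _ (div_nonneg h0 d0.le) fun x => ?_).trans_lt
      ((div_lt_one d0).2 hc)
    have e : (1 - d⁻¹ • S) x = -d⁻¹ • (S x - d • x) := by
      simp [smul_sub, smul_smul, inv_mul_cancel₀ d1]; abel
    rw [e, norm_smul, norm_neg, norm_inv, div_mul_eq_mul_div, div_eq_inv_mul]
    exact mul_le_mul_of_nonneg_left (h x) (by positivity)
  refine ⟨d⁻¹ • ((Units.oneSub _ h1)⁻¹ : (E →L[ℂ] E)ˣ), fun x => ?_⟩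
  have := congrArg (fun T : E →L[ℂ] E => T x) (Units.oneSub _ h1).inv_mul
  simpa only [smul_apply, Units.val_oneSub, sub_sub_cancel, Algebra.mul_smul_comm, mul_apply_eq_comp, one_apply_eq_self] using this

end

end Pool.Agent.MP_eed7cf_an

end

-- part MP_eed7cf_an.Disc
section

/-!
The disc algebra: evaluation, composition operators, peak functions, averaging over roots.
-/

set_option autoImplicit false

namespace Pool.Agent.MP_eed7cf_an

open Filter Topology Metric Set BoundedContinuousFunction Complex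

noncomputable section

/-- the closed disc -/
abbrev K : Set ℂ := closedBall 0 1

theorem memK {z : ℂ} : z ∈ K ↔ ‖z‖ ≤ 1 := mem_closedBall_zero_iff

open Classical in
/-- extension by zero -/
def ex (f : K →ᵇ ℂ) (z : ℂ) : ℂ := if h : z ∈ K then f ⟨z, h⟩ else 0

theorem ex_of (f : K →ᵇ ℂ) {z : ℂ} (h : z ∈ K) : ex f z = f ⟨z, h⟩ := dif_pos h

theorem ex_add (f g : K →ᵇ ℂ) (z : ℂ) : ex (f + g) z = ex f z + ex g z := by
  unfold ex; split_ifs <;> simp

theorem ex_mul (f g : K →ᵇ ℂ) (z : ℂ) : ex (f * g) z = ex f z * ex g z := by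
  unfold ex; split_ifs <;> simp

theorem ex_smul (c : ℂ) (f : K →ᵇ ℂ) (z : ℂ) : ex (c • f) z = c * ex f z := by
  unfold ex; split_ifs <;> simp

theorem ex_le (f : K →ᵇ ℂ) (z : ℂ) : ‖ex f z‖ ≤ ‖f‖ := by
  unfold ex; split_ifs
  · exact f.norm_coe_le_norm _
  · simp only [norm_zero, norm_nonneg]

/-- the disc algebra -/
def DA : Subalgebra ℂ (K →ᵇ ℂ) where
  carrier := {f | DifferentiableOn ℂ (ex f) (ball 0 1)}
  mul_mem' {f g} hf hg := (DifferentiableOn.mul hf hg).congr fun z _ => ex_mul f g z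
  add_mem' {f g} hf hg := (DifferentiableOn.add hf hg).congr fun z _ => ex_add f g z
  algebraMap_mem' c := (differentiableOn_const c).congr fun z hz => by
    rw [ex_of _ (ball_subset_closedBall hz)]; simp

theorem mem_DA {f : K →ᵇ ℂ} :
    f ∈ DA ↔ ∃ g : ℂ → ℂ, DifferentiableOn ℂ g (ball 0 1) ∧ ∀ x : K, f x = g x :=
  ⟨fun h => ⟨ex f, h, fun x => (ex_of f x.2).symm⟩, fun ⟨_, h1, h2⟩ =>
    h1.congr fun _ hz => (ex_of f (ball_subset_closedBall hz)).trans (h2 _)⟩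

instance : CompleteSpace DA := by
  refine IsClosed.completeSpace_coe (hs := IsSeqClosed.isClosed fun f g hf hg => ?_)
  refine TendstoLocallyUniformlyOn.differentiableOn (φ := atTop) (F := fun n => ex (f n))
    (TendstoUniformlyOn.tendstoLocallyUniformlyOn ?_) (.of_forall hf) isOpen_ball
  refine Metric.tendstoUniformlyOn_iff.2 fun ε hε => ?_
  filter_upwards [Metric.tendsto_nhds.1 hg ε hε] with n hn z hz
  rw [ex_of _ (ball_subset_closedBall hz), ex_of _ (ball_subset_closedBall hz), dist_comm]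
  exact (dist_coe_le_dist _).trans_lt hn

/-- evaluation -/
def E (z : ℂ) : DA →L[ℂ] ℂ :=
  LinearMap.mkContinuous
    { toFun := fun f => ex f z, map_add' := fun f g => ex_add f g z
      map_smul' := fun c f => ex_smul c f z } 1 fun f => (ex_le f z).trans_eq (one_mul _).symm

theorem E_le (z : ℂ) (f : DA) : ‖E z f‖ ≤ ‖f‖ := ex_le f z

theorem E_mul (z : ℂ) (f g : DA) : E z (f * g) = E z f * E z g := ex_mul f g z

theorem E_one {z : ℂ} (h : ‖z‖ ≤ 1) : E z 1 = 1 := (ex_of _ (memK.2 h)).trans rfl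

theorem E_pow {z : ℂ} (h : ‖z‖ ≤ 1) (f : DA) (n : ℕ) : E z (f ^ n) = E z f ^ n := by
  induction n with
  | zero => simpa only [pow_zero] using E_one h
  | succ n ih => rw [pow_succ, E_mul, ih, pow_succ]

theorem E_diff (f : DA) : DifferentiableOn ℂ (fun z => E z f) (ball 0 1) := f.2

theorem E_cont2 {X : Type} [TopologicalSpace X] {t : X → ℂ} {f : X → DA} (ht : Continuous t)
    (h1 : ∀ x, ‖t x‖ ≤ 1) (hf : Continuous f) : Continuous fun x => E (t x) (f x) :=
  ((continuous_subtype_val.comp hf).eval (ht.subtype_mk fun x => memK.2 (h1 x))).congr fun x =>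
    (ex_of _ (memK.2 (h1 x))).symm

theorem E_cont (f : DA) : ContinuousOn (fun z => E z f) K :=
  continuousOn_iff_continuous_domRestrict.2
    (E_cont2 continuous_subtype_val (fun x => memK.1 x.2) continuous_const)

theorem E_near (f : DA) {t : ℂ} (ht : ‖t‖ ≤ 1) {ε : ℝ} (hε : 0 < ε) :
    ∃ r > 0, ∀ z, ‖z‖ ≤ 1 → ‖z - t‖ < r → ‖E z f - E t f‖ ≤ ε := by
  obtain ⟨r, r0, h⟩ := Metric.continuousWithinAt_iff.1 (E_cont f t (memK.2 ht)) ε hε
  exact ⟨r, r0, fun z hz h1 => by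
    simpa only [dist_eq_norm] using (h (memK.2 hz) (by rwa [dist_eq_norm])).le⟩

theorem norm_le_K {f : DA} {c : ℝ} (h : ∀ z, ‖z‖ ≤ 1 → ‖E z f‖ ≤ c) : ‖f‖ ≤ c :=
  (norm_le ((norm_nonneg _).trans (h 0 (by simp)))).2 fun z => ex_of f.1 z.2 ▸ h z (memK.1 z.2)

theorem norm_le_T {f : DA} {c : ℝ} (h : ∀ z, ‖z‖ = 1 → ‖E z f‖ ≤ c) : ‖f‖ ≤ c :=
  norm_le_K fun z hz => norm_le_of_forall_mem_frontier_norm_le (f := fun z => E z f) isBounded_ball
    ⟨E_diff f, by rw [closure_ball _ one_ne_zero]; exact E_cont f⟩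
    (fun z hz => h z (by simpa [frontier_ball _ one_ne_zero] using hz))
    (by rw [closure_ball _ one_ne_zero]; exact memK.2 hz)

theorem DA_ext {f g : DA} (h : ∀ z, ‖z‖ ≤ 1 → E z f = E z g) : f = g :=
  sub_eq_zero.1 (norm_le_zero_iff.1 (norm_le_K fun z hz => by simp [h z hz]))

/-- an element from a function -/
def mk (g : ℂ → ℂ) (hc : ContinuousOn g K) (hd : DifferentiableOn ℂ g (ball 0 1)) : DA :=
  ⟨mkOfCompact ⟨K.domRestrict g, hc.domRestrict⟩, mem_DA.2 ⟨g, hd, fun _ => rfl⟩⟩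

theorem E_mk (g : ℂ → ℂ) (hc hd) {z : ℂ} (h : ‖z‖ ≤ 1) : E z (mk g hc hd) = g z :=
  ex_of _ (memK.2 h)

/-- a contraction given pointwise by functionals -/
def op (L : ℂ → DA →L[ℂ] ℂ) (hc : ∀ f, ContinuousOn (fun z => L z f) K)
    (hd : ∀ f, DifferentiableOn ℂ (fun z => L z f) (ball 0 1)) (hn : ∀ z f, ‖L z f‖ ≤ ‖f‖) :
    DA →L[ℂ] DA :=
  LinearMap.mkContinuous
    { toFun := fun f => mk _ (hc f) (hd f)
      map_add' := fun f g => DA_ext fun z hz => by simp only [map_add, E_mk _ _ _ hz]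
      map_smul' := fun c f => DA_ext fun z hz => by
        simp only [map_smul, E_mk _ _ _ hz, RingHom.id_apply] } 1
    fun f => norm_le_K fun z hz => (congrArg _ (E_mk _ (hc f) (hd f) hz)).trans_le
      ((hn z f).trans_eq (one_mul _).symm)

theorem E_op (L : ℂ → DA →L[ℂ] ℂ) (hc hd hn) (f : DA) {z : ℂ} (h : ‖z‖ ≤ 1) :
    E z (op L hc hd hn f) = L z f := E_mk _ (hc f) (hd f) h

/-- holomorphic self maps of the disc -/
structure Hol (θ : ℂ → ℂ) : Prop where
  c : ContinuousOn θ K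
  d : DifferentiableOn ℂ θ (ball 0 1)
  m : ∀ z, ‖z‖ ≤ 1 → ‖θ z‖ ≤ 1
  b : ∀ z, ‖z‖ < 1 → ‖θ z‖ < 1

theorem Hol.m' {θ : ℂ → ℂ} (h : Hol θ) : MapsTo θ K K := fun z hz => memK.2 (h.m z (memK.1 hz))

theorem Hol.b' {θ : ℂ → ℂ} (h : Hol θ) : MapsTo θ (ball 0 1) (ball 0 1) :=
  fun z hz => mem_ball_zero_iff.2 (h.b z (mem_ball_zero_iff.1 hz))

theorem Hol.comp {θ η : ℂ → ℂ} (h : Hol θ) (k : Hol η) : Hol fun z => θ (η z) :=
  ⟨h.c.comp k.c k.m', h.d.comp k.d k.b', fun z hz => h.m _ (k.m z hz), fun z hz => h.b _ (k.b z hz)⟩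

theorem hol_rot {c : ℂ} (h : ‖c‖ = 1) : Hol fun z => c * z :=
  ⟨by fun_prop, by fun_prop, fun z hz => by simpa [h], fun z hz => by simpa [h]⟩

theorem hol_pow {N : ℕ} (h : N ≠ 0) : Hol fun z => z ^ N :=
  ⟨by fun_prop, by fun_prop, fun z hz => by rw [norm_pow]; exact pow_le_one₀ (norm_nonneg _) hz,
    fun z hz => by rw [norm_pow]; exact pow_lt_one₀ (norm_nonneg _) hz h⟩

/-- the automorphisms with real parameter -/
def mo (s : ℝ) (u : ℂ) : ℂ := (u + s) / (1 + s * u)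

theorem mo_ne {s : ℝ} (hs : |s| < 1) {u : ℂ} (hu : ‖u‖ ≤ 1) : 1 + s * u ≠ 0 := fun e => by
  have h : ‖(s : ℂ) * u‖ = 1 := by rw [eq_neg_of_add_eq_zero_right e]; simp
  rw [norm_mul, norm_real, Real.norm_eq_abs] at h
  nlinarith only [abs_nonneg s, hs, hu, h]

theorem mo_sq (s : ℝ) (u : ℂ) :
    ‖1 + s * u‖ ^ 2 = ‖u + s‖ ^ 2 + (1 - |s| ^ 2) * (1 - ‖u‖ ^ 2) := by
  simp only [Complex.sq_norm, sq_abs, normSq_apply]; simp only [add_re, one_re, mul_re, ofReal_re, ofReal_im, zero_mul, sub_zero, add_im, one_im, mul_im, add_zero, zero_add]; ring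

theorem hol_mo {s : ℝ} (hs : |s| < 1) : Hol (mo s) := by
  have s2 : 0 < 1 - |s| ^ 2 := by nlinarith only [abs_nonneg s, hs]
  refine ⟨ContinuousOn.div (by fun_prop) (by fun_prop) fun u hu => mo_ne hs (memK.1 hu),
    DifferentiableOn.div (by fun_prop) (by fun_prop) fun u hu =>
      mo_ne hs (mem_ball_zero_iff.1 hu).le, fun u hu => ?_, fun u hu => ?_⟩
  · rw [mo, norm_div, div_le_one (norm_pos_iff.2 (mo_ne hs hu))]
    refine le_of_sq_le_sq ?_ (norm_nonneg _)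
    rw [mo_sq]
    exact le_add_of_nonneg_right (mul_nonneg s2.le (by nlinarith only [norm_nonneg u, hu]))
  · rw [mo, norm_div, div_lt_one (norm_pos_iff.2 (mo_ne hs hu.le))]
    refine lt_of_pow_lt_pow_left₀ 2 (norm_nonneg _) ?_
    rw [mo_sq]
    exact lt_add_of_pos_right _ (mul_pos s2 (by nlinarith only [norm_nonneg u, hu]))

theorem mo_norm {s : ℝ} (hs : |s| < 1) {u : ℂ} (hu : ‖u‖ = 1) : ‖mo s u‖ = 1 := by
  rw [mo, norm_div, div_eq_one_iff_eq (norm_ne_zero_iff.2 (mo_ne hs hu.le))]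
  refine (pow_left_inj₀ (norm_nonneg _) (norm_nonneg _) two_ne_zero).1 ?_
  rw [mo_sq, hu]; ring

theorem mo_mo {s : ℝ} (hs : |s| < 1) {u : ℂ} (hu : ‖u‖ ≤ 1) : mo (-s) (mo s u) = u := by
  have h1 := mo_ne hs hu
  have h2 := mo_ne (s := -s) (by rwa [abs_neg]) ((hol_mo hs).m u hu)
  have e : mo s u * (1 + s * u) = u + s := div_mul_cancel₀ _ h1
  rw [mo, div_eq_iff h2]
  push_cast
  linear_combination e

theorem mo_near {r κ : ℝ} (r0 : 0 < r) (κ0 : 0 < κ) :
    ∃ s : ℝ, |s| < 1 ∧ ∀ u : ℂ, ‖u‖ = 1 → κ ≤ ‖u + 1‖ → ‖mo s u - 1‖ < r := by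
  obtain ⟨δ, δ0, δ1, δ2, δ3⟩ : ∃ δ : ℝ, 0 < δ ∧ δ ≤ 1 ∧ δ ≤ κ / 2 ∧ δ ≤ r * κ / 8 :=
    ⟨min 1 (min (κ / 2) (r * κ / 8)), by positivity, min_le_left _ _,
      (min_le_right _ _).trans (min_le_left _ _), (min_le_right _ _).trans (min_le_right _ _)⟩
  have hs : |1 - δ| < 1 := abs_lt.2 ⟨by linarith only [δ1], by linarith only [δ0]⟩
  refine ⟨1 - δ, hs, fun u hu hκ => ?_⟩
  have h1 := mo_ne hs hu.le
  have e : mo (1 - δ) u - 1 = δ * (u - 1) / (1 + (1 - δ : ℝ) * u) := by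
    rw [mo, div_sub_one h1]; congr 1; push_cast; ring
  have h2 : ‖u + 1‖ ≤ ‖1 + ((1 - δ : ℝ) : ℂ) * u‖ + δ := by
    have := norm_add_le (1 + ((1 - δ : ℝ) : ℂ) * u) (δ * u)
    rw [norm_mul, hu, norm_real, Real.norm_of_nonneg δ0.le, mul_one] at this
    refine le_trans (le_of_eq ?_) this
    congr 1; push_cast; ring
  have h3 : ‖u - 1‖ ≤ 2 := (norm_sub_le _ _).trans (by rw [hu, norm_one]; norm_num)
  rw [e, norm_div, div_lt_iff₀ (norm_pos_iff.2 h1), norm_mul, norm_real, Real.norm_of_nonneg δ0.le]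
  nlinarith only [r0, δ0, δ2, δ3, hκ, h2, h3]

/-- composition operators -/
def cp {θ : ℂ → ℂ} (h : Hol θ) : DA →L[ℂ] DA :=
  op (fun z => E (θ z)) (fun f => (E_cont f).comp h.c h.m') (fun f => (E_diff f).comp h.d h.b')
    fun _ => E_le _

theorem E_cp {θ : ℂ → ℂ} (h : Hol θ) (f : DA) {z : ℂ} (hz : ‖z‖ ≤ 1) :
    E z (cp h f) = E (θ z) f := E_op _ _ _ _ f hz

theorem cp_le {θ : ℂ → ℂ} (h : Hol θ) (f : DA) : ‖cp h f‖ ≤ ‖f‖ :=
  norm_le_K fun z hz => by rw [E_cp h f hz]; exact E_le _ _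

section avg

variable (N : ℕ) [NeZero N]

instance : Fintype (rootsOfUnity N ℂ) := Fintype.ofFinite _

/-- a root of unity as a number -/
abbrev cu (ζ : rootsOfUnity N ℂ) : ℂ := (ζ : ℂˣ)

omit [NeZero N] in
theorem cu_pow (ζ : rootsOfUnity N ℂ) : cu N ζ ^ N = 1 := (mem_rootsOfUnity' _ _).1 ζ.2

theorem cu_norm (ζ : rootsOfUnity N ℂ) : ‖cu N ζ‖ = 1 :=
  norm_eq_one_of_pow_eq_one (cu_pow N ζ) (NeZero.ne N)

/-- the mean over the orbit of a point -/
def av (z : ℂ) : DA →L[ℂ] ℂ := (N : ℂ)⁻¹ • ∑ ζ : rootsOfUnity N ℂ, E (cu N ζ * z)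

theorem av_apply (z : ℂ) (f : DA) :
    av N z f = (N : ℂ)⁻¹ * ∑ ζ : rootsOfUnity N ℂ, E (cu N ζ * z) f := by
  simp [av]

theorem card_cu : Fintype.card (rootsOfUnity N ℂ) = N := by
  rw [← Nat.card_eq_fintype_card]; exact Complex.card_rootsOfUnity N

theorem av_le' {z : ℂ} {f : DA} {c e : ℝ} (ζ0 : rootsOfUnity N ℂ)
    (h : ∀ ζ, ‖E (cu N ζ * z) f‖ ≤ c + if ζ = ζ0 then e else 0) : ‖av N z f‖ ≤ c + e / N := by
  have N0 : (0 : ℝ) < N := Nat.cast_pos.2 (NeZero.pos N)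
  have h1 := (norm_sum_le _ _).trans (Finset.sum_le_sum (s := Finset.univ) fun ζ _ => h ζ)
  rw [Finset.sum_add_distrib, Finset.sum_const, Finset.card_univ, card_cu, Finset.sum_ite_eq',
    if_pos (Finset.mem_univ _), nsmul_eq_mul] at h1
  rw [av_apply, norm_mul, norm_inv, norm_natCast, inv_mul_le_iff₀ N0]
  exact h1.trans_eq (by field_simp)

theorem av_le (z : ℂ) (f : DA) : ‖av N z f‖ ≤ ‖f‖ :=
  (av_le' N (e := 0) 1 fun ζ => (E_le _ f).trans_eq (by rw [ite_self, add_zero])).trans_eq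
    (by rw [zero_div, add_zero])

theorem av_eq {z z' : ℂ} (h : z ^ N = z' ^ N) : av N z = av N z' := by
  by_cases z0 : z' = 0
  · rw [z0, pow_eq_zero_iff (NeZero.ne N) |>.1 (h.trans (by rw [z0, zero_pow (NeZero.ne N)]))]
  let η := rootsOfUnity.mkOfPowEq (n := N) (z / z') (by rw [div_pow, h, div_self (pow_ne_zero _ z0)])
  unfold av
  congr 1
  refine Fintype.sum_equiv (Equiv.mulRight η) _ _ fun ζ => ?_
  congr 1
  simp only [cu, η, Equiv.coe_mulRight, Subgroup.coe_mul, Units.val_mul, rootsOfUnity.val_mkOfPowEq_coe, mul_assoc, isUnit_iff_ne_zero, ne_eq, z0, not_false_eq_true, IsUnit.div_mul_cancel]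

theorem av_cont (f : DA) : ContinuousOn (fun z => av N z f) K := by
  simp only [av_apply]
  exact continuousOn_const.mul (continuousOn_finsetSum _ fun ζ _ =>
    (E_cont f).comp (hol_rot (cu_norm N ζ)).c (hol_rot (cu_norm N ζ)).m')

theorem av_diff (f : DA) : DifferentiableOn ℂ (fun z => av N z f) (ball 0 1) := by
  simp only [av_apply]
  exact (differentiableOn_const _).mul (DifferentiableOn.fun_sum fun ζ _ =>
    (E_diff f).comp (hol_rot (cu_norm N ζ)).d (hol_rot (cu_norm N ζ)).b')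

/-- a root -/
def rt (w : ℂ) : ℂ := w ^ (N : ℂ)⁻¹

theorem rt_pow (w : ℂ) : rt N w ^ N = w := cpow_nat_inv_pow w (NeZero.ne N)

theorem rt_cont (f : DA) : ContinuousOn (fun w => av N (rt N w) f) K := by
  have hp := hol_pow (NeZero.ne N)
  have c : Continuous (hp.m'.restrict _ K K) := hp.c.mapsToRestrict _
  have q : IsQuotientMap (hp.m'.restrict _ K K) := c.isClosedMap.isQuotientMap c fun w =>
    ⟨⟨rt N w, memK.2 ((pow_le_one_iff_of_nonneg (norm_nonneg _) (NeZero.ne N)).1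
      (by rw [← norm_pow, rt_pow]; exact memK.1 w.2))⟩, Subtype.ext (rt_pow N w)⟩
  rw [continuousOn_iff_continuous_domRestrict, q.continuous_iff]
  refine (continuousOn_iff_continuous_domRestrict.1 (av_cont N f)).congr fun z => ?_
  exact congrArg (fun L : DA →L[ℂ] ℂ => L f) (av_eq N (rt_pow N _).symm)

theorem rt_diff (f : DA) : DifferentiableOn ℂ (fun w => av N (rt N w) f) (ball 0 1) := by
  refine (differentiableOn_compl_singleton_and_continuousAt_iff (c := 0)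
    (ball_mem_nhds _ one_pos)).1 ⟨fun w hw => ?_,
      (rt_cont N f).continuousAt (closedBall_mem_nhds _ one_pos)⟩
  have w0 : w ≠ 0 := hw.2
  have e : ∀ v, (rt N w * rt N (v / w)) ^ N = v := fun v => by
    rw [mul_pow, rt_pow, rt_pow, mul_div_cancel₀ _ w0]
  have h1 : DifferentiableAt ℂ (fun v => rt N w * rt N (v / w)) w :=
    (DifferentiableAt.cpow_const (by fun_prop) (by simp [w0])).const_mul _
  have h2 : rt N w * rt N (w / w) ∈ ball (0 : ℂ) 1 := mem_ball_zero_iff.2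
    ((pow_lt_one_iff_of_nonneg (norm_nonneg _) (NeZero.ne N)).1
      (by rw [← norm_pow, e]; exact mem_ball_zero_iff.1 hw.1))
  have h3 := ((av_diff N f).differentiableAt (isOpen_ball.mem_nhds h2)).comp w h1
  refine (h3.congr_of_eventuallyEq (.of_forall fun v => ?_)).differentiableWithinAt
  exact congrArg (fun L : DA →L[ℂ] ℂ => L f) (av_eq N ((rt_pow N v).trans (e v).symm))

theorem cu_sep : ∃ κ > 0, ∀ u : ℂ, ‖u‖ = 1 → ∃ ζ0, ∀ ζ ≠ ζ0, κ ≤ ‖cu N ζ * u + 1‖ := by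
  have h : ∀ᶠ κ : ℝ in 𝓝[>] 0, ∀ p : rootsOfUnity N ℂ × rootsOfUnity N ℂ, p.1 ≠ p.2 →
      2 * κ < ‖cu N p.1 - cu N p.2‖ := eventually_all.2 fun p => by
    by_cases e : p.1 = p.2
    · simp [e]
    have h0 : 2 * (0 : ℝ) < ‖cu N p.1 - cu N p.2‖ := by
      rw [mul_zero, norm_pos_iff, sub_ne_zero]
      exact fun h => e (Subtype.ext (Units.ext h))
    exact (((continuous_const.mul continuous_id).tendsto (0 : ℝ)).eventually_lt_const h0
      |>.filter_mono nhdsWithin_le_nhds).mono fun _ h _ => h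
  obtain ⟨κ, h1, h0⟩ := (h.and self_mem_nhdsWithin).exists
  refine ⟨κ, h0, fun u hu => ?_⟩
  by_cases e : ∃ ζ0, ‖cu N ζ0 * u + 1‖ < κ
  · obtain ⟨ζ0, e⟩ := e
    refine ⟨ζ0, fun ζ ne => not_lt.1 fun e' => ?_⟩
    have h2 := norm_sub_le (cu N ζ * u + 1) (cu N ζ0 * u + 1)
    rw [add_sub_add_right_eq_sub, ← sub_mul, norm_mul, hu, mul_one] at h2
    linarith [h1 (ζ, ζ0) ne]
  · exact ⟨1, fun ζ _ => not_lt.1 fun h => e ⟨ζ, h⟩⟩

/-- localisation: a retraction that sees little outside a given arc -/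
theorem loc {t : ℂ} (ht : ‖t‖ = 1) {r : ℝ} (r0 : 0 < r) : ∃ J R : DA →L[ℂ] DA,
    (∀ f, ‖J f‖ ≤ ‖f‖) ∧ (∀ f, R (J f) = f) ∧ ∀ (g : DA) (c : ℝ), 0 ≤ c →
      (∀ z, ‖z‖ = 1 → ‖z - t‖ < r → ‖E z g‖ ≤ c) → ‖R g‖ ≤ c + ‖g‖ / N := by
  obtain ⟨κ, κ0, hκ⟩ := cu_sep N
  obtain ⟨s, hs, hr⟩ := mo_near r0 κ0
  have t0 : t ≠ 0 := norm_ne_zero_iff.1 (ht ▸ one_ne_zero)
  have h1 := (hol_pow (NeZero.ne N)).comp ((hol_mo (s := -s) (by rwa [abs_neg])).comp
    (hol_rot (c := t⁻¹) (by simp [ht])))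
  have h2 := (hol_rot ht).comp (hol_mo hs)
  have rn : ∀ w : ℂ, ‖w‖ ≤ 1 → ∀ ζ, ‖cu N ζ * rt N w‖ ≤ 1 := fun w hw ζ => by
    rw [norm_mul, cu_norm, one_mul]
    exact (pow_le_one_iff_of_nonneg (norm_nonneg _) (NeZero.ne N)).1 (by rwa [← norm_pow, rt_pow])
  refine ⟨cp h1, op (fun w => av N (rt N w)) (rt_cont N) (rt_diff N) (fun _ => av_le N _) ∘L cp h2,
    cp_le h1, fun f => DA_ext fun w hw => ?_, fun g c c0 hc => norm_le_T fun w hw => ?_⟩
  · rw [ContinuousLinearMap.comp_apply, E_op _ _ _ _ _ hw, av_apply,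
      Finset.sum_congr rfl (g := fun _ => E w f) fun ζ _ => ?_, Finset.sum_const, Finset.card_univ,
      card_cu, nsmul_eq_mul, inv_mul_cancel_left₀ (Nat.cast_ne_zero.2 (NeZero.ne N))]
    rw [E_cp _ _ (rn w hw ζ), E_cp _ _ (h2.m _ (rn w hw ζ)), inv_mul_cancel_left₀ t0,
      mo_mo hs (rn w hw ζ), mul_pow, cu_pow, rt_pow, one_mul]
  · have u1 : ‖rt N w‖ = 1 :=
      (pow_eq_one_iff_of_nonneg (norm_nonneg _) (NeZero.ne N)).1 (by rwa [← norm_pow, rt_pow])
    obtain ⟨ζ0, h⟩ := hκ _ u1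
    rw [ContinuousLinearMap.comp_apply, E_op _ _ _ _ _ hw.le]
    refine av_le' N ζ0 fun ζ => ?_
    rw [E_cp _ _ (rn w hw.le ζ)]
    split_ifs with e
    · linarith only [E_le (t * mo s (cu N ζ * rt N w)) g, c0]
    have u2 : ‖cu N ζ * rt N w‖ = 1 := by rw [norm_mul, cu_norm, u1, one_mul]
    refine (hc _ (by rw [norm_mul, ht, mo_norm hs u2, one_mul]) ?_).trans_eq (add_zero c).symm
    rw [← mul_sub_one, norm_mul, ht, one_mul]
    exact hr _ u2 (h ζ e)

end avg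

end

end Pool.Agent.MP_eed7cf_an

end

-- part MP_eed7cf_an.Main
section

/-!
Operators on the disc algebra are almost scalar on some arc; factorisation of the identity.
-/

set_option autoImplicit false

namespace Pool.Agent.MP_eed7cf_an

open Filter Topology Metric Set Complex ZeroAtInfty

noncomputable section

/-- the peak function at a point of the circle -/
def pk (t : ℂ) : DA :=
  (2⁻¹ : ℂ) • 1 + (2⁻¹ * (starRingEnd ℂ) t) • mk id continuousOn_id differentiableOn_id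

theorem pk_cont : Continuous pk :=
  continuous_const.add ((continuous_const.mul continuous_conj).smul continuous_const)

theorem E_pk {t z : ℂ} (ht : ‖t‖ = 1) (hz : ‖z‖ ≤ 1) :
    E z (pk t) = 2⁻¹ * (starRingEnd ℂ) t * (t + z) := by
  have e : (starRingEnd ℂ) t * t = 1 := by rw [conj_mul', ht]; norm_num
  rw [pk, map_add, map_smul, map_smul, E_one hz, E_mk _ _ _ hz, smul_eq_mul, smul_eq_mul, id]
  linear_combination (-2⁻¹ : ℂ) * e

theorem pk_self {t : ℂ} (ht : ‖t‖ = 1) (n : ℕ) : E t (pk t ^ n) = 1 := by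
  have e : (starRingEnd ℂ) t * t = 1 := by rw [conj_mul', ht]; norm_num
  rw [E_pow ht.le, E_pk ht ht.le, show 2⁻¹ * (starRingEnd ℂ) t * (t + t) = 1 by
    linear_combination e, one_pow]

theorem pk_sq {t z : ℂ} (ht : ‖t‖ = 1) (hz : ‖z‖ ≤ 1) :
    ‖E z (pk t)‖ ^ 2 ≤ 1 - ‖z - t‖ ^ 2 / 4 := by
  have h := parallelogram_law_with_norm ℝ t z
  rw [E_pk ht hz, norm_mul, norm_mul, RCLike.norm_conj, ht, norm_inv, norm_sub_rev]
  rw [ht] at h
  simp only [Complex.norm_ofNat]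
  nlinarith only [norm_nonneg z, hz, h]

theorem pk_le {t : ℂ} (ht : ‖t‖ = 1) (n : ℕ) : ‖pk t ^ n‖ ≤ 1 := norm_le_K fun z hz => by
  rw [E_pow hz, norm_pow]
  refine pow_le_one₀ (norm_nonneg _) (le_of_sq_le_sq ?_ zero_le_one)
  linarith only [pk_sq ht hz, sq_nonneg ‖z - t‖]

theorem pk_small {t : ℂ} (ht : ‖t‖ = 1) {r η : ℝ} (r0 : 0 < r) (η0 : 0 < η) :
    ∃ n, ∀ z, ‖z‖ ≤ 1 → r ≤ ‖z - t‖ → ‖E z (pk t ^ n)‖ ≤ η := by
  obtain ⟨n, hn⟩ := exists_pow_lt_of_lt_one η0 (show 1 - r ^ 2 / 4 < 1 by nlinarith only [r0])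
  refine ⟨2 * n, fun z hz h => ?_⟩
  rw [E_pow hz, norm_pow, pow_mul]
  refine (pow_le_pow_left₀ (sq_nonneg _) ((pk_sq ht hz).trans ?_) n).trans hn.le
  nlinarith only [r0, h]

theorem E_mul_le {z : ℂ} {p f : DA} {a b : ℝ} (h1 : ‖E z p‖ ≤ a) (h2 : ‖f‖ ≤ b) :
    ‖E z (p * f)‖ ≤ a * b := by
  rw [E_mul, norm_mul]
  exact mul_le_mul h1 ((E_le z f).trans h2) (norm_nonneg _) ((norm_nonneg _).trans h1)

/-- near a peak point a functional acts as a multiple of the evaluation -/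
theorem diag (l : DA →L[ℂ] ℂ) {t : ℂ} (ht : ‖t‖ = 1) {ε : ℝ} (ε0 : 0 < ε) :
    ∃ n, ∀ f, ‖l (pk t ^ n * f) - l (pk t ^ n) * E t f‖ ≤ ε * ‖f‖ := by
  by_contra H
  push Not at H
  have hg : ∀ n, ∃ g : DA, E t g = 0 ∧ (∀ z, ‖E z g‖ ≤ ‖E z (pk t ^ n)‖) ∧ ε / 2 ≤ (l g).re := by
    intro n
    obtain ⟨f, hf⟩ := H n
    have f0 : 0 < ‖f‖ := norm_pos_iff.2 fun e => by
      rw [e, mul_zero, map_zero, map_zero, mul_zero, sub_zero, norm_zero, norm_zero] at hf
      linarith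
    obtain ⟨a, a1, ha⟩ := exists_norm_eq_mul_self (l (pk t ^ n * f) - l (pk t ^ n) * E t f)
    have n2 : ‖((2 * ‖f‖)⁻¹ : ℝ) * a‖ = (2 * ‖f‖)⁻¹ := by
      rw [norm_mul, a1, mul_one, norm_real, Real.norm_of_nonneg (by positivity)]
    refine ⟨(((2 * ‖f‖)⁻¹ : ℝ) * a) • (pk t ^ n * f - E t f • pk t ^ n), ?_, fun z => ?_, ?_⟩
    · rw [map_smul, map_sub, map_smul, E_mul, pk_self ht, one_mul, smul_eq_mul, smul_eq_mul,
        mul_one, sub_self, mul_zero]
    · rw [map_smul, map_sub, map_smul, E_mul, smul_eq_mul, smul_eq_mul, norm_mul, n2,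
        mul_comm (E t f), ← mul_sub, norm_mul, inv_mul_le_iff₀ (by positivity), mul_comm]
      refine mul_le_mul_of_nonneg_right ((norm_sub_le _ _).trans ?_) (norm_nonneg _)
      linarith only [E_le z f, E_le t f]
    · rw [map_smul, map_sub, map_smul, smul_eq_mul, smul_eq_mul, mul_comm (E t f), mul_assoc, ← ha,
        ← ofReal_mul, ofReal_re, le_inv_mul_iff₀ (by positivity)]
      linarith only [hf]
  have hG : ∀ m : ℕ, ∃ G : DA, E t G = 0 ∧ ‖G‖ < 2 ∧ m * (ε / 2) ≤ (l G).re := by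
    intro m
    induction m with
    | zero => exact ⟨0, map_zero _, by rw [norm_zero]; norm_num, by rw [map_zero]; simp⟩
    | succ m ih =>
      obtain ⟨G, G0, G2, Gl⟩ := ih
      obtain ⟨r, r0, hr⟩ := E_near G ht.le one_half_pos
      obtain ⟨n, hn⟩ := pk_small ht r0 (half_pos (sub_pos.2 G2))
      obtain ⟨g, g0, g1, gl⟩ := hg n
      refine ⟨G + g, by rw [map_add, G0, g0, add_zero], lt_of_le_of_lt
        (norm_le_K (c := max (3 / 2) (1 + ‖G‖ / 2)) fun z hz => ?_)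
        (max_lt (by norm_num) (by linarith only [G2])), by rw [map_add, add_re]; push_cast; linarith only [Gl, gl]⟩
      rw [map_add]
      refine (norm_add_le _ _).trans ?_
      rcases lt_or_ge ‖z - t‖ r with h | h
      · have h1 := hr z hz h
        rw [G0, sub_zero] at h1
        exact le_max_of_le_left (by linarith only [g1 z, (E_le z _).trans (pk_le ht n), h1])
      · exact le_max_of_le_right (by linarith only [g1 z, hn z hz h, E_le z G])
  obtain ⟨m, hm⟩ := exists_nat_gt (‖l‖ * 2 / (ε / 2))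
  obtain ⟨G, -, G2, Gl⟩ := hG m
  rw [div_lt_iff₀ (half_pos ε0)] at hm
  linarith [(re_le_norm _).trans (l.le_of_opNorm_le_of_le le_rfl G2.le)]

/-- every operator is almost scalar on some arc -/
theorem arc (S : DA →L[ℂ] DA) {ε : ℝ} (ε0 : 0 < ε) : ∃ (t : ℂ) (r : ℝ) (p : DA) (d : ℂ),
    ‖t‖ = 1 ∧ 0 < r ∧ ‖p‖ ≤ 1 ∧ ‖d‖ ≤ ‖S‖ ∧ ∀ z, ‖z‖ = 1 → ‖z - t‖ < r →
      ‖E z p - 1‖ ≤ ε ∧ ∀ f, ‖E z (S (p * f)) - d * E z f‖ ≤ (‖S‖ + 2) * ε * ‖f‖ := by
  have hT : ∀ t : sphere (0 : ℂ) 1, ‖(t : ℂ)‖ = 1 := fun t => mem_sphere_zero_iff_norm.1 t.2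
  have c1 : ∀ n, Continuous fun t : sphere (0 : ℂ) 1 => pk t ^ n := fun n =>
    (pk_cont.comp continuous_subtype_val).pow n
  have c2 : ∀ {f : sphere (0 : ℂ) 1 → DA}, Continuous f → Continuous fun t => E t.1 (f t) :=
    fun hf => E_cont2 continuous_subtype_val (fun t => (hT t).le) hf
  have : Nonempty (sphere (0 : ℂ) 1) := ⟨⟨1, by simp⟩⟩
  obtain ⟨n, t, ht⟩ := nonempty_interior_of_iUnion_of_closed
    (f := fun n : ℕ => ⋂ f : DA, {t : sphere (0 : ℂ) 1 |
      ‖E t (S (pk t ^ n * f)) - E t (S (pk t ^ n)) * E t f‖ ≤ ε * ‖f‖})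
    (fun n => isClosed_iInter fun f => isClosed_le
      ((c2 (S.continuous.comp ((c1 n).mul continuous_const))).sub
        ((c2 (S.continuous.comp (c1 n))).mul (c2 continuous_const))).norm continuous_const)
    (eq_univ_of_forall fun t => by
      obtain ⟨n, hn⟩ := diag (E t ∘L S) (hT t) ε0
      exact mem_iUnion.2 ⟨n, mem_iInter.2 hn⟩)
  have e1 := Metric.tendsto_nhds.1 ((c1 n).tendsto t) ε ε0
  have e2 := Metric.tendsto_nhds.1 ((c2 (S.continuous.comp (c1 n))).tendsto t) ε ε0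
  have e3 := Metric.tendsto_nhds.1 ((c2 (continuous_const (y := pk t ^ n))).tendsto t) ε ε0
  obtain ⟨r, r0, hr⟩ := Metric.eventually_nhds_iff.1
    (e1.and (e2.and (e3.and (mem_interior_iff_mem_nhds.1 ht))))
  refine ⟨t, r, pk t ^ n, E t (S (pk t ^ n)), hT t, r0, pk_le (hT t) n,
    (E_le _ _).trans ((S.le_of_opNorm_le_of_le le_rfl (pk_le (hT t) n)).trans_eq (mul_one _)),
    fun z hz h => ?_⟩
  obtain ⟨h1, h2, h3, h4⟩ := hr (y := ⟨z, mem_sphere_zero_iff_norm.2 hz⟩)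
    (by rwa [Subtype.dist_eq, dist_eq_norm])
  rw [dist_eq_norm] at h1 h2 h3
  refine ⟨pk_self (hT t) n ▸ h3.le, fun f => ?_⟩
  have h5 : ‖E z (S (pk z ^ n * f)) - E z (S (pk z ^ n)) * E z f‖ ≤ ε * ‖f‖ := mem_iInter.1 h4 f
  have h6 : ‖E z (S ((pk z ^ n - pk t ^ n) * f))‖ ≤ ‖S‖ * (ε * ‖f‖) :=
    (E_le _ _).trans (S.le_of_opNorm_le_of_le le_rfl
      ((norm_mul_le _ _).trans (mul_le_mul_of_nonneg_right h1.le (norm_nonneg _))))
  have h7 : ‖(E z (S (pk z ^ n)) - E t (S (pk t ^ n))) * E z f‖ ≤ ε * ‖f‖ := by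
    rw [norm_mul]
    exact mul_le_mul h2.le (E_le _ _) (norm_nonneg _) ε0.le
  rw [sub_mul, map_sub, map_sub] at h6
  have h8 := norm_add_le_of_le (norm_sub_le_of_le h5 h6) h7
  refine le_trans (le_of_eq ?_) (h8.trans_eq (by ring))
  congr 1; ring

/-- an operator that is almost a large scalar on an arc factors the identity -/
theorem fac_of (S : DA →L[ℂ] DA) {t d : ℂ} {r c : ℝ} (ht : ‖t‖ = 1) (r0 : 0 < r) (c0 : 0 ≤ c)
    (hd : c < ‖d‖) (h : ∀ z, ‖z‖ = 1 → ‖z - t‖ < r → ∀ f, ‖E z (S f) - d * E z f‖ ≤ c * ‖f‖) :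
    ∃ J R : DA →L[ℂ] DA, ∀ f, R (S (J f)) = f := by
  obtain ⟨N, hN⟩ := exists_nat_gt ((‖S‖ + ‖d‖) / (‖d‖ - c))
  have N0 : (0 : ℝ) < N := lt_of_le_of_lt (div_nonneg (by positivity) (sub_pos.2 hd).le) hN
  have : NeZero N := ⟨Nat.cast_ne_zero.1 N0.ne'⟩
  obtain ⟨J, R, h1, h2, h3⟩ := loc N ht r0
  rw [div_lt_iff₀ (sub_pos.2 hd), mul_comm, ← div_lt_iff₀ N0] at hN
  obtain ⟨U, hU⟩ := left_inv (R ∘L S ∘L J) (d := d) (c := c + (‖S‖ + ‖d‖) / N) (by positivity)
    (by linarith) fun f => by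
      have e : (R ∘L S ∘L J) f - d • f = R (S (J f) - d • J f) := by
        rw [map_sub, map_smul, h2]; rfl
      have h4 : ‖S (J f) - d • J f‖ ≤ (‖S‖ + ‖d‖) * ‖f‖ :=
        (norm_sub_le_of_le (S.le_of_opNorm_le_of_le le_rfl (h1 f)) ((norm_smul_le _ _).trans
          (mul_le_mul_of_nonneg_left (h1 f) (norm_nonneg _)))).trans_eq (by ring)
      rw [e]
      refine (h3 _ (c * ‖f‖) (by positivity) fun z hz hr => ?_).trans ?_
      · rw [map_sub, map_smul]
        exact (h z hz hr _).trans (mul_le_mul_of_nonneg_left (h1 f) c0)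
      · rw [add_mul, div_mul_eq_mul_div]
        exact add_le_add le_rfl (div_le_div_of_nonneg_right h4 N0.le)
  exact ⟨J, U ∘L R, hU⟩

/-- the identity factors through `S` or through `1 - S` -/
theorem fac (S : DA →L[ℂ] DA) : (∃ J R : DA →L[ℂ] DA, ∀ x, R (S (J x)) = x) ∨
    ∃ J R : DA →L[ℂ] DA, ∀ x, R (J x - S (J x)) = x := by
  have S0 := norm_nonneg S
  have ε0 : 0 < (4 * (‖S‖ + 3))⁻¹ := by positivity
  have ε1 : (‖S‖ + 3) * (4 * (‖S‖ + 3))⁻¹ = 4⁻¹ := by field_simp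
  obtain ⟨t, r, p, d, ht, r0, -, -, h⟩ := arc S ε0
  set ε := (4 * (‖S‖ + 3))⁻¹
  let M : DA →L[ℂ] DA := ContinuousLinearMap.mul ℂ DA p
  rcases le_or_gt 2⁻¹ ‖d‖ with hd | hd
  · obtain ⟨J, R, h⟩ := fac_of (S ∘L M) (d := d) (c := (‖S‖ + 2) * ε) ht r0 (by positivity)
      (by linarith) fun z hz hr => (h z hz hr).2
    exact .inl ⟨M ∘L J, R, h⟩
  · have h1 : ‖(1 : ℂ)‖ ≤ ‖1 - d‖ + ‖d‖ := norm_le_norm_sub_add _ _
    rw [norm_one] at h1
    obtain ⟨J, R, h⟩ := fac_of (M - S ∘L M) (d := 1 - d) (c := (‖S‖ + 3) * ε) ht r0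
      (by positivity) (by linarith only [ε1, hd, h1]) fun z hz hr f => by
        have h2 : ‖(E z p - 1) * E z f‖ ≤ ε * ‖f‖ := by
          rw [norm_mul]
          exact mul_le_mul (h z hz hr).1 (E_le _ _) (norm_nonneg _) ε0.le
        refine le_trans (le_of_eq ?_) ((norm_sub_le_of_le h2 ((h z hz hr).2 f)).trans_eq (by ring))
        change ‖E z (p * f - S (p * f)) - _‖ = _
        rw [map_sub, E_mul]
        congr 1; ring
    exact .inr ⟨M ∘L J, R, h⟩

theorem exists_pt {a : ℝ} (a0 : 0 ≤ a) (a1 : a ≤ 1) : ∃ t : ℂ, ‖t‖ = 1 ∧ ‖t - 1‖ = a :=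
  ⟨exp (I * (2 * Real.arcsin (a / 2) : ℝ)), by rw [mul_comm]; exact norm_exp_ofReal_mul_I _, by
    rw [norm_exp_I_mul_ofReal_sub_one, mul_div_cancel_left₀ _ two_ne_zero,
      Real.sin_arcsin (by linarith) (by linarith only [a1]), Real.norm_of_nonneg (by linarith)]
    ring⟩

/-- the sum of copies of the disc algebra is complemented in the disc algebra -/
theorem sum_compl : ∃ (J : C₀(ℕ, DA) →L[ℂ] DA) (R : DA →L[ℂ] C₀(ℕ, DA)), ∀ x, R (J x) = x := by
  let a : ℕ → ℝ := fun k => (1 / 4) ^ k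
  have a0 : ∀ k, 0 < a k := fun k => by positivity
  have aT : Tendsto a atTop (𝓝 0) := tendsto_pow_atTop_nhds_zero_of_lt_one (by norm_num) (by norm_num)
  choose t t1 ta using fun k => exists_pt (a0 k).le (pow_le_one₀ (by norm_num) (by norm_num))
  let b : ℕ → ℝ := fun k => 1 / 10 / 2 / 2 ^ k
  have hb : HasSum b (1 / 10) := hasSum_geometric_two' _
  have b0 : ∀ k, 0 < b k := fun k => by positivity
  choose n hn using fun k => pk_small (t1 k) (half_pos (a0 k)) (b0 k)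
  choose r r0 hr using fun k =>
    E_near (pk (t k) ^ n k) (t1 k).le (show (0 : ℝ) < 1 / 10 by norm_num)
  choose J R hJ hRJ hR using fun k => loc (k + 20) (t1 k) (lt_min (r0 k) (half_pos (a0 k)))
  have near : ∀ z k, ‖z - t k‖ < a k / 2 → a k / 2 < ‖z - 1‖ ∧ ‖z - 1‖ < 3 / 2 * a k := fun z k h => by
    have h1 := norm_sub_le_norm_sub_add_norm_sub z (t k) 1
    have h2 := norm_sub_le_norm_sub_add_norm_sub (t k) z 1
    rw [norm_sub_rev (t k) z] at h2
    constructor <;> linarith [ta k]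
  have sep : ∀ z j k, ‖z - t j‖ < a j / 2 → k ≠ j → a k / 2 ≤ ‖z - t k‖ := by
    have h : ∀ z j k, j < k → ‖z - t j‖ < a j / 2 → ‖z - t k‖ < a k / 2 → False :=
      fun z j k jk h1 h2 => by
        have h3 : a k ≤ a j * (1 / 4) :=
          (pow_le_pow_of_le_one (by norm_num) (by norm_num) jk).trans_eq (pow_succ _ _)
        linarith only [(near z j h1).1, (near z k h2).2, a0 j, h3]
    exact fun z j k h1 ne => not_lt.1 fun h2 => ne.lt_or_gt.elim (fun l => h z k j l h2 h1)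
      fun l => h z j k l h1 h2
  have one : ∀ z, ∃ j, ∀ k ≠ j, a k / 2 ≤ ‖z - t k‖ := fun z => by
    by_cases e : ∃ j, ‖z - t j‖ < a j / 2
    · exact e.imp fun j h k => sep z j k h
    · exact ⟨0, fun k _ => not_lt.1 fun h => e ⟨k, h⟩⟩
  let u : C₀(ℕ, DA) → ℕ → DA := fun x k => pk (t k) ^ n k * J k (x k)
  have u1 : ∀ x k z c, ‖x k‖ ≤ c → ‖E z (u x k)‖ ≤ c := fun x k z c h =>
    (E_mul_le ((E_le _ _).trans (pk_le (t1 k) _)) ((hJ k _).trans h)).trans_eq (one_mul _)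
  have u2 : ∀ x k z c, ‖x k‖ ≤ c → ‖z‖ ≤ 1 → a k / 2 ≤ ‖z - t k‖ → ‖E z (u x k)‖ ≤ b k * c :=
    fun x k z c h hz h1 => E_mul_le (hn k z hz h1) ((hJ k _).trans h)
  have us : ∀ x, Summable (u x) := fun x => summable_iff_vanishing_norm.2 fun ε ε0 => by
    obtain ⟨M, hM⟩ := eventually_atTop.1
      ((c0_tendsto x).norm.eventually_le_const (show ‖(0 : DA)‖ < ε / 3 by rw [norm_zero]; linarith))
    refine ⟨Finset.range M, fun s hs => lt_of_le_of_lt
      (norm_le_K (c := ε / 3 + 1 / 10 * (ε / 3)) fun z hz => ?_) (by linarith)⟩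
    obtain ⟨j, hj⟩ := one z
    have h1 : ∀ k ∈ s, ‖E z (u x k)‖ ≤ (if k = j then ε / 3 else 0) + b k * (ε / 3) := fun k hk => by
      have h2 := hM k (not_lt.1 fun l => Finset.disjoint_left.1 hs hk (Finset.mem_range.2 l))
      split_ifs with e
      · exact (u1 x k z _ h2).trans (le_add_of_nonneg_right (by positivity [b0 k]))
      · exact (u2 x k z _ h2 hz (hj k e)).trans_eq (zero_add _).symm
    rw [map_sum]
    refine ((norm_sum_le _ _).trans (Finset.sum_le_sum h1)).trans ?_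
    rw [Finset.sum_add_distrib, Finset.sum_ite_eq', ← Finset.sum_mul]
    refine add_le_add ?_ (mul_le_mul_of_nonneg_right
      (sum_le_hasSum s (fun k _ => (b0 k).le) hb) (by linarith))
    split_ifs <;> linarith only [ε0]
  have u3 : ∀ x z j, ‖z‖ ≤ 1 → (∀ k ≠ j, a k / 2 ≤ ‖z - t k‖) →
      ‖E z (∑' k, u x k) - E z (u x j)‖ ≤ 1 / 10 * ‖x‖ := fun x z j hz hj => by
    rw [(E z).map_tsum (us x), ((E z).summable (us x)).tsum_eq_add_tsum_ite j, add_sub_cancel_left]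
    refine tsum_of_norm_bounded (hb.mul_right _) fun k => ?_
    split_ifs with e
    · rw [norm_zero]; positivity [b0 k]
    · exact u2 x k z _ (c0_apply_le x k) hz (hj k e)
  have u4 : ∀ x, ‖∑' k, u x k‖ ≤ 2 * ‖x‖ := fun x => norm_le_K fun z hz => by
    obtain ⟨j, hj⟩ := one z
    linarith [norm_le_norm_sub_add (E z (∑' k, u x k)) (E z (u x j)), u3 x z j hz hj,
      u1 x j z _ (c0_apply_le x j), norm_nonneg x]
  let J' : C₀(ℕ, DA) →L[ℂ] DA := LinearMap.mkContinuous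
    { toFun := fun x => ∑' k, u x k
      map_add' := fun x y => by
        rw [← (us x).tsum_add (us y)]
        exact tsum_congr fun k => (congrArg _ (map_add (J k) _ _)).trans (mul_add _ _ _)
      map_smul' := fun c x => by
        rw [RingHom.id_apply, ← (us x).tsum_const_smul c]
        exact tsum_congr fun k => (congrArg _ (map_smul (J k) _ _)).trans (mul_smul_comm _ _ _) }
    2 u4
  let Q : DA →L[ℂ] DA := ContinuousLinearMap.id ℂ DA - (E 1).smulRight 1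
  have Q1 : ∀ g z, ‖z‖ ≤ 1 → E z (Q g) = E z g - E 1 g := fun g z hz => by
    change E z (g - E 1 g • 1) = _
    rw [map_sub, map_smul, E_one hz, smul_eq_mul, mul_one]
  have Q2 : ∀ g, ‖Q g‖ ≤ 2 * ‖g‖ := fun g => norm_le_K fun z hz => by
    rw [Q1 g z hz]
    linarith [norm_sub_le (E z g) (E 1 g), E_le z g, E_le 1 g]
  have dv : ∀ (k : ℕ) (c : ℝ), 0 ≤ c → c / (k + 20 : ℕ) ≤ c / 20 := fun k c c0 =>
    div_le_div_of_nonneg_left c0 (by norm_num) (by exact_mod_cast Nat.le_add_left 20 k)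
  let R' : DA →L[ℂ] C₀(ℕ, DA) := toC0 (fun k => R k ∘L Q) 4
    (fun k g => by
      have h := hR k (Q g) _ (norm_nonneg _) fun z _ _ => E_le z _
      change ‖R k (Q g)‖ ≤ _
      linarith only [dv k _ (norm_nonneg (Q g)), Q2 g, norm_nonneg (Q g), h])
    fun g => NormedAddGroup.tendsto_nhds_zero.2 fun ε ε0 => by
      obtain ⟨ρ, ρ0, hρ⟩ := E_near g (t := 1) norm_one.le (half_pos ε0)
      have h1 : Tendsto (fun k : ℕ => ‖Q g‖ / (k + 20 : ℕ)) atTop (𝓝 0) :=
        (tendsto_const_div_atTop_nhds_zero_nat _).comp (tendsto_add_atTop_nat 20)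
      filter_upwards [h1.eventually_lt_const (half_pos ε0),
        aT.eventually_lt_const (half_pos ρ0)] with k k1 k2
      refine lt_of_le_of_lt (hR k (Q g) _ (half_pos ε0).le fun z hz h => ?_) (by linarith)
      rw [Q1 g z hz.le]
      exact hρ z hz.le (by linarith only [(near z k (lt_min_iff.1 h).2).2, ρ0, k2])
  have key : ∀ x, ‖(R' ∘L J') x - (1 : ℂ) • x‖ ≤ 7 / 10 * ‖x‖ :=
    fun x => c0_norm_le fun k => by
      have e : ((R' ∘L J') x - (1 : ℂ) • x) k = R k (Q (∑' k, u x k) - J k (x k)) := by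
        rw [map_sub, hRJ, one_smul]; rfl
      have x0 := norm_nonneg x
      have x1 := (hJ k _).trans (c0_apply_le x k)
      have o1 : ∀ k, a k / 2 ≤ ‖1 - t k‖ := fun k => by rw [norm_sub_rev, ta]; linarith [a0 k]
      have h1 := u3 x 1 0 norm_one.le fun k _ => o1 k
      have h2 : ‖E 1 (u x 0)‖ ≤ 1 / 10 / 2 / 2 ^ 0 * ‖x‖ :=
        u2 x 0 1 _ (c0_apply_le x 0) norm_one.le (o1 0)
      have h3 := norm_le_norm_sub_add (E 1 (∑' k, u x k)) (E 1 (u x 0))
      have h4 := norm_sub_le (Q (∑' k, u x k)) (J k (x k))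
      rw [e]
      refine (hR k _ (4 / 10 * ‖x‖) (by positivity) fun z hz h => ?_).trans
        (by linarith only [dv k _ (norm_nonneg (Q (∑' k, u x k) - J k (x k))), Q2 (∑' k, u x k), u4 x, x0, x1, h4])
      have h5 := u3 x z k hz.le fun j => sep z k j (lt_min_iff.1 h).2
      have h6 : ‖(E z (pk (t k) ^ n k) - 1) * E z (J k (x k))‖ ≤ 1 / 10 * ‖x‖ := by
        rw [norm_mul]
        exact mul_le_mul (pk_self (t1 k) (n k) ▸ hr k z hz.le (lt_min_iff.1 h).1)
          ((E_le _ _).trans x1) (norm_nonneg _) (by norm_num)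
      have h7 := norm_sub_le_of_le (norm_add_le_of_le h5 h6) h3
      rw [map_sub, Q1 _ z hz.le]
      refine le_trans (le_of_eq ?_) (h7.trans (by linarith only [x0, h1, h2]))
      rw [E_mul]
      congr 1; ring
  obtain ⟨U, hU⟩ := left_inv (E := C₀(ℕ, DA)) (R'.comp J') (d := 1) (c := 7 / 10) (by norm_num)
    (by norm_num) key
  exact ⟨J', U ∘L R', hU⟩

end

end Pool.Agent.MP_eed7cf_an

end
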